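import Pool.Agent.Helper158.FCD.CoreDefs

/-! From the core theorem to the torsor data. -/

set_option autoImplicit false

namespace Pool.Agent.Helper158.FCD

/-- representatives of the span of the moves with index in `[ℓ, t)` -/
def sp (ℓ : ℕ) : ℕ → List (List ℕ)
  | 0 => [[]]
  | t + 1 => if ℓ ≤ t then sp ℓ t ++ (sp ℓ t).map (fun y => mv t ++ y) else sp ℓ t

/-- the stage predicate -/
def EstC (t : ℕ) (x : List Bool) : Bool :=
  (sp x.length t).any (fun y => (List.range x.length).all
    (fun c => dead t c || (x.getD c false == par y c)))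

lemma sp_mono {ℓ t : ℕ} {y : List ℕ} (h : y ∈ sp ℓ t) : y ∈ sp ℓ (t + 1) := by
  unfold sp
  split_ifs
  · exact List.mem_append_left _ h
  · exact h

lemma sp_mono' {ℓ t u : ℕ} {y : List ℕ} (h : y ∈ sp ℓ t) (hu : t ≤ u) : y ∈ sp ℓ u := by
  induction u, hu using Nat.le_induction with
  | base => exact h
  | succ u _ ih => exact sp_mono ih

lemma nil_mem_sp (ℓ t : ℕ) : [] ∈ sp ℓ t := by
  have : ([] : List ℕ) ∈ sp ℓ 0 := by simp [sp]
  exact sp_mono' this (Nat.zero_le t)

lemma sp_sound (ℓ t : ℕ) : ∀ y ∈ sp ℓ t, ∃ S : List ℕ, (∀ s ∈ S, ℓ ≤ s) ∧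
    ∀ c, par y c = par (S.flatMap mv) c := by
  induction t with
  | zero =>
    intro y hy
    simp [sp] at hy
    subst hy
    exact ⟨[], by simp, by simp⟩
  | succ t ih =>
    intro y hy
    unfold sp at hy
    split_ifs at hy with h
    · rw [List.mem_append, List.mem_map] at hy
      rcases hy with hy | ⟨y', hy', rfl⟩
      · exact ih y hy
      · obtain ⟨S, h1, h2⟩ := ih y' hy'
        refine ⟨t :: S, ?_, ?_⟩
        · intro s hs
          rcases List.mem_cons.1 hs with rfl | hs
          · exact h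
          · exact h1 s hs
        · intro c
          simp [h2 c]
    · exact ih y hy

lemma sp_add (ℓ s : ℕ) (hs : ℓ ≤ s) (t : ℕ) (hst : s < t) : ∀ y ∈ sp ℓ t,
    ∃ y' ∈ sp ℓ t, ∀ c, par y' c = xor (par (mv s) c) (par y c) := by
  induction t with
  | zero => omega
  | succ t ih =>
    intro y hy
    have hlt : ℓ ≤ t := by omega
    unfold sp at hy ⊢
    rw [if_pos hlt] at hy ⊢
    rw [List.mem_append, List.mem_map] at hy
    by_cases h : s = t
    · subst h
      rcases hy with hy | ⟨y', hy', rfl⟩
      · refine ⟨mv s ++ y, List.mem_append_right _ (List.mem_map.2 ⟨y, hy, rfl⟩), fun c => ?_⟩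
        simp
      · refine ⟨y', List.mem_append_left _ hy', fun c => ?_⟩
        simp
    · have h' : s < t := by omega
      rcases hy with hy | ⟨y', hy', rfl⟩
      · obtain ⟨z, hz, hz'⟩ := ih h' y hy
        exact ⟨z, List.mem_append_left _ hz, hz'⟩
      · obtain ⟨z, hz, hz'⟩ := ih h' y' hy'
        refine ⟨mv t ++ z, List.mem_append_right _ (List.mem_map.2 ⟨z, hz, rfl⟩), fun c => ?_⟩
        simp only [par_append, hz' c]
        cases par (mv t) c <;> cases par (mv s) c <;> cases par y' c <;> rfl

lemma sp_complete (ℓ : ℕ) (S : List ℕ) (hS : ∀ s ∈ S, ℓ ≤ s) :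
    ∃ T, ∀ t, T ≤ t → ∃ y ∈ sp ℓ t, ∀ c, par y c = par (S.flatMap mv) c := by
  induction S with
  | nil => exact ⟨0, fun t _ => ⟨[], nil_mem_sp ℓ t, by simp⟩⟩
  | cons s S ih =>
    obtain ⟨T, hT⟩ := ih (fun x hx => hS x (List.mem_cons_of_mem _ hx))
    refine ⟨max T (s + 1), fun t ht => ?_⟩
    obtain ⟨y, hy, hy'⟩ := hT t (by omega)
    obtain ⟨z, hz, hz'⟩ := sp_add ℓ s (hS s (by simp)) t (by omega) y hy
    refine ⟨z, hz, fun c => ?_⟩
    rw [hz' c, hy' c]
    simp

lemma dead_mono' (hM : DeadMono dead) {t u c : ℕ} (h : dead t c = true) (hu : t ≤ u) :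
    dead u c = true := by
  induction u, hu using Nat.le_induction with
  | base => exact h
  | succ u _ ih => exact hM u c ih

lemma dead_bound (hM : DeadMono dead) (ℓ : ℕ) :
    ∃ T, ∀ t, T ≤ t → ∀ c < ℓ, (∀ u, dead u c = false) ∨ dead t c = true := by
  induction ℓ with
  | zero => exact ⟨0, fun t _ c hc => absurd hc (by omega)⟩
  | succ ℓ ih =>
    obtain ⟨T, hT⟩ := ih
    by_cases h : ∀ u, dead u ℓ = false
    · refine ⟨T, fun t ht c hc => ?_⟩
      rcases Nat.lt_succ_iff_lt_or_eq.1 hc with h1 | rfl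
      · exact hT t ht c h1
      · exact Or.inl h
    · push Not at h
      obtain ⟨u, hu⟩ := h
      have hu' : dead u ℓ = true := by
        cases hx : dead u ℓ
        · exact absurd hx hu
        · rfl
      refine ⟨max T u, fun t ht c hc => ?_⟩
      rcases Nat.lt_succ_iff_lt_or_eq.1 hc with h1 | rfl
      · exact hT t (by omega) c h1
      · exact Or.inr (dead_mono' hM hu' (by omega))

lemma InU_congr {v : ℕ → List ℕ} {dd : ℕ → ℕ → Bool} {ℓ : ℕ} {x y : ℕ → Bool}
    (h : InU v dd ℓ x) (hxy : ∀ c < ℓ, x c = y c) : InU v dd ℓ y := by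
  obtain ⟨S, h1, h2⟩ := h
  exact ⟨S, h1, fun c hc hd => by rw [← hxy c hc]; exact h2 c hc hd⟩

lemma lim_iff (hM : DeadMono dead) (x : List Bool) :
    Lim EstC x ↔ InU mv dead x.length (fun c => x.getD c false) := by
  constructor
  · rintro ⟨t, ht⟩
    unfold EstC at ht
    rw [List.any_eq_true] at ht
    obtain ⟨y, hy, hy'⟩ := ht
    obtain ⟨S, h1, h2⟩ := sp_sound _ _ y hy
    refine ⟨S, h1, fun c hc hd => ?_⟩
    rw [List.all_eq_true] at hy'
    have h3 := hy' c (List.mem_range.2 hc)
    rw [hd t, Bool.false_or, beq_iff_eq] at h3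
    show x.getD c false = _
    rw [h3, h2 c]
  · rintro ⟨S, h1, h2⟩
    obtain ⟨T, hT⟩ := sp_complete _ S h1
    obtain ⟨T', hT'⟩ := dead_bound hM x.length
    obtain ⟨y, hy, hy'⟩ := hT (max T T') (by omega)
    refine ⟨max T T', ?_⟩
    unfold EstC
    rw [List.any_eq_true]
    refine ⟨y, hy, ?_⟩
    rw [List.all_eq_true]
    intro c hc
    rw [List.mem_range] at hc
    rcases hT' (max T T') (by omega) c hc with h | h
    · have h3 : x.getD c false = par (S.flatMap mv) c := h2 c hc h
      rw [h3, hy' c]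
      simp
    · rw [h]; rfl

lemma est_mono (hM : DeadMono dead) (t : ℕ) (x : List Bool) (h : EstC t x = true) :
    EstC (t + 1) x = true := by
  unfold EstC at h ⊢
  rw [List.any_eq_true] at h ⊢
  obtain ⟨y, hy, hy'⟩ := h
  refine ⟨y, sp_mono hy, ?_⟩
  rw [List.all_eq_true] at hy' ⊢
  intro c hc
  have h1 := hy' c hc
  rw [Bool.or_eq_true] at h1 ⊢
  rcases h1 with h1 | h1
  · exact Or.inl (hM t c h1)
  · exact Or.inr h1

lemma pre_length (a : ℕ → Bool) (ℓ : ℕ) : (pre a ℓ).length = ℓ := by simp [pre]

lemma pre_getD (a : ℕ → Bool) (ℓ c : ℕ) (hc : c < ℓ) : (pre a ℓ).getD c false = a c := by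
  unfold pre
  rw [List.getD_eq_getElem?_getD, List.getElem?_map, List.getElem?_range hc]
  rfl

lemma sx_length (x y : List Bool) (h : x.length = y.length) : (sx x y).length = x.length := by
  simp [sx, h]

lemma sx_getD (x y : List Bool) (h : x.length = y.length) (c : ℕ) (hc : c < x.length) :
    (sx x y).getD c false = xor (x.getD c false) (y.getD c false) := by
  unfold sx
  have h1 : c < y.length := by omega
  simp [List.getD_eq_getElem?_getD, List.getElem?_zipWith, List.getElem?_eq_getElem hc,
    List.getElem?_eq_getElem h1]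

lemma ff_diff (v : ℕ → List ℕ) (k ℓ : ℕ) (h : k ≤ ℓ) (c : ℕ) :
    xor (ff v ℓ c) (ff v k c) = par ((List.range' k (ℓ - k)).flatMap v) c := by
  induction ℓ, h using Nat.le_induction with
  | base => simp
  | succ ℓ hk ih =>
    have h1 : ℓ + 1 - k = (ℓ - k) + 1 := by omega
    rw [h1, List.range'_concat, List.flatMap_append, par_append, ← ih]
    have h2 : k + 1 * (ℓ - k) = ℓ := by omega
    rw [h2]
    simp only [ff, List.flatMap_cons, List.flatMap_nil, List.append_nil]
    cases ff v ℓ c <;> cases par (v ℓ) c <;> cases ff v k c <;> rfl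

/-! ### computability -/

lemma prim_xor : Primrec₂ xor := Primrec.dom_finite (fun p : Bool × Bool => xor p.1 p.2)

lemma prim_par : Primrec₂ par := by
  have h : Primrec₂ (fun (p : List ℕ × ℕ) (q : ℕ × Bool) => xor (decide (q.1 = p.2)) q.2) := by
    refine prim_xor.comp ?_ ?_
    · exact (Primrec.eq.comp (Primrec.fst.comp Primrec.snd) (Primrec.snd.comp Primrec.fst)).decide
    · exact Primrec.snd.comp Primrec.snd
  exact (Primrec.list_foldr Primrec.fst (Primrec.const false) h).of_eq (fun p => rfl)

lemma prim_ff (hmv : Primrec mv) : Primrec₂ (ff mv) := by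
  have h : Primrec₂ (fun (p : ℕ × ℕ) (q : ℕ × Bool) => xor q.2 (par (mv q.1) p.2)) := by
    refine prim_xor.comp ?_ ?_
    · exact Primrec.snd.comp Primrec.snd
    · exact prim_par.comp (hmv.comp (Primrec.fst.comp Primrec.snd)) (Primrec.snd.comp Primrec.fst)
  have h2 := Primrec.nat_rec' (Primrec.fst (α := ℕ) (β := ℕ)) (Primrec.const false) h
  refine h2.of_eq (fun p => ?_)
  obtain ⟨t, c⟩ := p
  show (Nat.rec false (fun n IH => xor IH (par (mv n) c)) t : Bool) = ff mv t c
  induction t with
  | zero => rfl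
  | succ t ih => simp only [ff]; rw [← ih]

lemma prim_sp (hmv : Primrec mv) : Primrec₂ sp := by
  have h : Primrec₂ (fun (p : ℕ × ℕ) (q : ℕ × List (List ℕ)) =>
      if p.1 ≤ q.1 then q.2 ++ q.2.map (fun y => mv q.1 ++ y) else q.2) := by
    refine Primrec.ite ?_ ?_ ?_
    · exact Primrec.nat_le.comp (Primrec.fst.comp Primrec.fst) (Primrec.fst.comp Primrec.snd)
    · refine Primrec.list_append.comp (Primrec.snd.comp Primrec.snd) ?_
      refine Primrec.list_map (Primrec.snd.comp Primrec.snd) ?_
      exact Primrec.list_append.comp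
        (hmv.comp (Primrec.fst.comp (Primrec.snd.comp Primrec.fst))) Primrec.snd
    · exact Primrec.snd.comp Primrec.snd
  have h2 := Primrec.nat_rec' (Primrec.snd (α := ℕ) (β := ℕ)) (Primrec.const [[]]) h
  refine h2.of_eq (fun p => ?_)
  obtain ⟨ℓ, t⟩ := p
  show (Nat.rec [[]] (fun n IH => if ℓ ≤ n then IH ++ IH.map (fun y => mv n ++ y) else IH) t :
    List (List ℕ)) = sp ℓ t
  induction t with
  | zero => rfl
  | succ t ih => unfold sp; rw [← ih]

lemma prim_all {α β : Type*} [Primcodable α] [Primcodable β] {f : α → List β} {p : α → β → Bool}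
    (hf : Primrec f) (hp : Primrec₂ p) : Primrec (fun a => (f a).all (p a)) := by
  have h : Primrec₂ (fun (a : α) (q : β × Bool) => (p a q.1 && q.2)) :=
    Primrec.and.comp (hp.comp Primrec.fst (Primrec.fst.comp Primrec.snd))
      (Primrec.snd.comp Primrec.snd)
  refine (Primrec.list_foldr hf (Primrec.const true) h).of_eq (fun a => ?_)
  generalize f a = l
  induction l with
  | nil => rfl
  | cons x l ih => simp [ih]

lemma prim_any {α β : Type*} [Primcodable α] [Primcodable β] {f : α → List β} {p : α → β → Bool}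
    (hf : Primrec f) (hp : Primrec₂ p) : Primrec (fun a => (f a).any (p a)) := by
  have h : Primrec₂ (fun (a : α) (q : β × Bool) => (p a q.1 || q.2)) :=
    Primrec.or.comp (hp.comp Primrec.fst (Primrec.fst.comp Primrec.snd))
      (Primrec.snd.comp Primrec.snd)
  refine (Primrec.list_foldr hf (Primrec.const false) h).of_eq (fun a => ?_)
  generalize f a = l
  induction l with
  | nil => rfl
  | cons x l ih => simp [ih]

lemma prim_getD : Primrec₂ (fun (x : List Bool) (c : ℕ) => x.getD c false) := by
  exact (Primrec.option_getD.comp (Primrec.list_getElem?) (Primrec.const false)).of_eq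
    (fun p => (List.getD_eq_getElem?_getD ..).symm)

lemma prim_est (hmv : Primrec mv) (hdead : Primrec₂ dead) : Primrec₂ EstC := by
  unfold EstC
  refine prim_any (α := ℕ × List Bool) (f := fun a => sp a.2.length a.1)
    (p := fun a y => (List.range a.2.length).all
      (fun c => dead a.1 c || (a.2.getD c false == par y c))) ?_ ?_
  · exact (prim_sp hmv).comp (Primrec.list_length.comp Primrec.snd) Primrec.fst
  · refine prim_all (α := (ℕ × List Bool) × List ℕ) (f := fun a => List.range a.1.2.length)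
      (p := fun a c => dead a.1.1 c || (a.1.2.getD c false == par a.2 c)) ?_ ?_
    · exact Primrec.list_range.comp
        (Primrec.list_length.comp (Primrec.snd.comp Primrec.fst))
    · refine Primrec.or.comp ?_ ?_
      · exact hdead.comp (Primrec.fst.comp (Primrec.fst.comp Primrec.fst)) Primrec.snd
      · exact Primrec.beq.comp
          (prim_getD.comp (Primrec.snd.comp (Primrec.fst.comp Primrec.fst)) Primrec.snd)
          (prim_par.comp (Primrec.snd.comp Primrec.fst) Primrec.snd)

lemma prim_F (hmv : Primrec mv) : Primrec (fun ℓ => pre (ff mv ℓ) ℓ) := by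
  unfold pre
  exact Primrec.list_map Primrec.list_range (prim_ff hmv)

/-- **The torsor data.** -/
theorem torsor_of_core (hmv : Primrec mv) (hdead : Primrec₂ dead) (hM : DeadMono dead)
    (hN : CoreNon mv dead) (hD : CoreDich mv dead) : Nonempty TorsorData := by
  refine ⟨⟨EstC, fun ℓ => pre (ff mv ℓ) ℓ, (prim_est hmv hdead).to_comp, (prim_F hmv).to_comp,
    est_mono hM, ?_, ?_, ?_, fun ℓ => pre_length _ ℓ, ?_, ?_, ?_⟩⟩
  · intro ℓ
    rw [lim_iff hM]
    refine ⟨[], by simp, fun c hc _ => ?_⟩
    simp at hc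
    simp [List.getD_eq_getElem?_getD, hc]
  · intro x y hxy hx hy
    rw [lim_iff hM] at hx hy ⊢
    obtain ⟨S, h1, h2⟩ := hx
    obtain ⟨S', h1', h2'⟩ := hy
    rw [sx_length x y hxy]
    refine ⟨S ++ S', ?_, ?_⟩
    · intro s hs
      rcases List.mem_append.1 hs with hs | hs
      · exact h1 s hs
      · rw [hxy]; exact h1' s hs
    · intro c hc hd
      show (sx x y).getD c false = _
      rw [sx_getD x y hxy c hc, List.flatMap_append, par_append]
      have e1 := h2 c hc hd
      have e2 := h2' c (by omega) hd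
      simp only at e1 e2
      rw [e1, e2]
  · intro x k hx
    rw [lim_iff hM] at hx ⊢
    obtain ⟨S, h1, h2⟩ := hx
    refine ⟨S, ?_, ?_⟩
    · intro s hs
      have := h1 s hs
      rw [List.length_take]
      omega
    · intro c hc hd
      rw [List.length_take] at hc
      have h3 := h2 c (by omega) hd
      rw [← h3]
      simp only [List.getD_eq_getElem?_getD]
      rw [List.getElem?_take_of_lt (by omega)]
  · intro k ℓ hk
    rw [lim_iff hM]
    have e0 : ((pre (ff mv ℓ) ℓ).take k).length = k := by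
      rw [List.length_take, pre_length]; omega
    have e1 : ((pre (ff mv ℓ) ℓ).take k).length = (pre (ff mv k) k).length := by
      rw [e0, pre_length]
    rw [sx_length _ _ e1, e0]
    refine ⟨List.range' k (ℓ - k), ?_, ?_⟩
    · intro s hs
      simp only [List.mem_range'_1] at hs
      exact hs.1
    · intro c hc _
      show (sx _ _).getD c false = _
      rw [sx_getD _ _ e1 c (by omega), pre_getD _ _ _ hc, ← ff_diff mv k ℓ hk]
      congr 1
      rw [List.getD_eq_getElem?_getD, List.getElem?_take_of_lt hc,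
        ← List.getD_eq_getElem?_getD, pre_getD _ _ _ (by omega)]
  · rintro ⟨a, ha, h⟩
    apply hN
    refine ⟨a, ha, fun ℓ => ?_⟩
    have h1 := h ℓ
    rw [lim_iff hM] at h1
    have e1 : (pre a ℓ).length = (pre (ff mv ℓ) ℓ).length := by rw [pre_length, pre_length]
    rw [sx_length _ _ e1, pre_length] at h1
    refine InU_congr h1 (fun c hc => ?_)
    rw [sx_getD _ _ e1 c (by rw [pre_length]; exact hc), pre_getD _ _ _ hc, pre_getD _ _ _ hc]
  · intro m hm hlen hcoh
    have hm' : Computable₂ (fun ℓ c => (m ℓ).getD c false) :=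
      prim_getD.to_comp.comp (hm.comp Computable.fst) Computable.snd
    obtain ⟨a, ha, hor⟩ := hD (fun ℓ c => (m ℓ).getD c false) hm' (by
      intro k ℓ hk
      have h1 := hcoh k ℓ hk
      rw [lim_iff hM] at h1
      have e1 : ((m ℓ).take k).length = (m k).length := by
        rw [List.length_take, hlen, hlen]; omega
      rw [sx_length _ _ e1, e1, hlen] at h1
      refine InU_congr h1 (fun c hc => ?_)
      rw [sx_getD _ _ e1 c (by rw [e1, hlen]; exact hc)]
      congr 1
      rw [List.getD_eq_getElem?_getD, List.getElem?_take_of_lt hc,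
        ← List.getD_eq_getElem?_getD])
    refine ⟨a, ha, ?_⟩
    rcases hor with h | h
    · left
      intro ℓ
      rw [lim_iff hM]
      have e1 : (pre a ℓ).length = (m ℓ).length := by rw [pre_length, hlen]
      rw [sx_length _ _ e1, pre_length]
      refine InU_congr (h ℓ) (fun c hc => ?_)
      rw [sx_getD _ _ e1 c (by rw [pre_length]; exact hc), pre_getD _ _ _ hc]
    · right
      intro ℓ
      rw [lim_iff hM]
      have e2 : (m ℓ).length = (pre (ff mv ℓ) ℓ).length := by rw [pre_length, hlen]
      have e1 : (pre a ℓ).length = (sx (m ℓ) (pre (ff mv ℓ) ℓ)).length := by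
        rw [sx_length _ _ e2, pre_length, hlen]
      rw [sx_length _ _ e1, pre_length]
      refine InU_congr (h ℓ) (fun c hc => ?_)
      rw [sx_getD _ _ e1 c (by rw [pre_length]; exact hc), pre_getD _ _ _ hc,
        sx_getD _ _ e2 c (by rw [hlen]; exact hc), pre_getD _ _ _ hc]

end Pool.Agent.Helper158.FCD
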