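import Mathlib

/-! Interface between the two parts of the proof of S09751
(locally finite connected graph of computable dimension two).

`Est t x` says: at stage `t` the string `x` is known to lie in the subgroup `U (length x)`.
`F ℓ` is the base point of the coset of the second structure at level `ℓ`. -/

set_option autoImplicit false

namespace Pool.Agent.Helper158.FCD

/-- coordinatewise sum mod 2 -/
def sx (x y : List Bool) : List Bool := List.zipWith xor x y

/-- prefix of length `ℓ` of an infinite sequence -/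
def pre (a : ℕ → Bool) (ℓ : ℕ) : List Bool := (List.range ℓ).map a

/-- the limit of a stage predicate -/
def Lim (Est : ℕ → List Bool → Bool) (x : List Bool) : Prop := ∃ t, Est t x = true

/-- A computable torsor of dimension two. -/
structure TorsorData where
  Est : ℕ → List Bool → Bool
  F : ℕ → List Bool
  compE : Computable₂ Est
  compF : Computable F
  mono : ∀ t x, Est t x = true → Est (t + 1) x = true
  zero : ∀ ℓ, Lim Est (List.replicate ℓ false)
  add : ∀ x y, x.length = y.length → Lim Est x → Lim Est y → Lim Est (sx x y)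
  restr : ∀ x k, Lim Est x → Lim Est (x.take k)
  lenF : ∀ ℓ, (F ℓ).length = ℓ
  cohF : ∀ k ℓ, k ≤ ℓ → Lim Est (sx ((F ℓ).take k) (F k))
  noniso : ¬ ∃ a : ℕ → Bool, Computable a ∧ ∀ ℓ, Lim Est (sx (pre a ℓ) (F ℓ))
  dich : ∀ m : ℕ → List Bool, Computable m → (∀ ℓ, (m ℓ).length = ℓ) →
    (∀ k ℓ, k ≤ ℓ → Lim Est (sx ((m ℓ).take k) (m k))) →
    ∃ a : ℕ → Bool, Computable a ∧
      ((∀ ℓ, Lim Est (sx (pre a ℓ) (m ℓ))) ∨
       (∀ ℓ, Lim Est (sx (pre a ℓ) (sx (m ℓ) (F ℓ)))))

end Pool.Agent.Helper158.FCD
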