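import Pool.Agent.Helper158.FCD.Small
import Pool.Agent.Helper158.FCD.Interface

/-! Statement of the core theorem. -/

set_option autoImplicit false

namespace Pool.Agent.Helper158.FCD

/-- the partial sums of the moves -/
def ff (v : ℕ → List ℕ) : ℕ → ℕ → Bool
  | 0, _ => false
  | t + 1, c => xor (ff v t c) (par (v t) c)

/-- `x` restricted to the levels below `ℓ` lies in the `ℓ`-th subgroup -/
def InU (v : ℕ → List ℕ) (dead : ℕ → ℕ → Bool) (ℓ : ℕ) (x : ℕ → Bool) : Prop :=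
  ∃ S : List ℕ, (∀ s ∈ S, ℓ ≤ s) ∧
    ∀ c < ℓ, (∀ t, dead t c = false) → x c = par (S.flatMap v) c

/-- the core theorem, non-computability part -/
def CoreNon (v : ℕ → List ℕ) (dead : ℕ → ℕ → Bool) : Prop :=
  ¬ ∃ a : ℕ → Bool, Computable a ∧ ∀ ℓ, InU v dead ℓ (fun c => xor (a c) (ff v ℓ c))

/-- the core theorem, dichotomy part -/
def CoreDich (v : ℕ → List ℕ) (dead : ℕ → ℕ → Bool) : Prop :=
  ∀ m : ℕ → ℕ → Bool, Computable₂ m →
    (∀ k ℓ, k ≤ ℓ → InU v dead k (fun c => xor (m ℓ c) (m k c))) →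
    ∃ a : ℕ → Bool, Computable a ∧
      ((∀ ℓ, InU v dead ℓ (fun c => xor (a c) (m ℓ c))) ∨
       (∀ ℓ, InU v dead ℓ (fun c => xor (a c) (xor (m ℓ c) (ff v ℓ c)))))

/-- death is permanent -/
def DeadMono (dead : ℕ → ℕ → Bool) : Prop := ∀ t c, dead t c = true → dead (t + 1) c = true

end Pool.Agent.Helper158.FCD
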