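import Mathlib

/-! The machine of the construction. -/

set_option autoImplicit false

namespace Pool.Agent.Helper158.FCD



/-- paths, innermost outcome first -/
abbrev Path := List (Fin 4)

/-- node data -/
structure Node where
  c : ℕ
  rm : ℕ
  wait : Bool
  dl : List ℕ
  pf : Bool
  pM : Bool
  s0 : ℕ
  s1 : ℕ
  r : List ℕ

/-- a new node -/
def fresh (t : ℕ) : Node := ⟨t, 0, false, [], true, false, 0, 0, []⟩

/-- concrete configurations -/
structure Cfg where
  L : List (Path × Node)
  p : Path
  up : Bool
  d : List ℕ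

/-- look up a node -/
def get (L : List (Path × Node)) (q : Path) : Option Node :=
  L.foldr (fun e acc => if e.1 = q then some e.2 else acc) none

/-- parity of the number of occurrences -/
def par (l : List ℕ) (c : ℕ) : Bool := l.foldr (fun x b => xor (decide (x = c)) b) false

/-- `w` is strictly below `q` with an outcome different from `3` -/
def Rel (q w : Path) : Prop := (0 :: q) <:+ w ∨ (1 :: q) <:+ w ∨ (2 :: q) <:+ w

instance (q w : Path) : Decidable (Rel q w) := by unfold Rel; infer_instance

/-- `w` is deleted when `q` takes the outcome `o` -/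
def Kill (o : Fin 4) (q w : Path) : Prop :=
  (o < 1 ∧ (1 :: q) <:+ w) ∨ (o < 2 ∧ (2 :: q) <:+ w) ∨ (o < 3 ∧ (3 :: q) <:+ w)

instance (o : Fin 4) (q w : Path) : Decidable (Kill o q w) := by unfold Kill; infer_instance

/-- bit `c` of label `s` of the `j`-th opponent, computed in `t` steps -/
def ev (j t s c : ℕ) : Option ℕ := Nat.Partrec.Code.evaln t (Denumerable.ofNat Nat.Partrec.Code j) (Nat.pair s c)

/-- the bit as a Boolean -/
def bv (j t s c : ℕ) : Bool := decide (ev j t s c = some 1)

/-- the diagonalisation condition -/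
def Phi (j t c : ℕ) : Prop := Nat.Partrec.Code.evaln t (Denumerable.ofNat Nat.Partrec.Code j) c = some 0

instance (j t c : ℕ) : Decidable (Phi j t c) := by unfold Phi; infer_instance

/-- the answer of the `j`-th opponent -/
def ansf (j t s0 s1 : ℕ) (r : List ℕ) (K : List ℕ) : Option Bool :=
  if K.all (fun c => (ev j t s1 c).isSome && (decide (s0 ≤ c) || (ev j t s0 c).isSome)) then
    if K.all (fun c => decide (s0 ≤ c) || (bv j t s1 c == bv j t s0 c)) then some false
    else if K.all (fun c => decide (s0 ≤ c) || (bv j t s1 c == xor (bv j t s0 c) (par r c)))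
      then some true
    else none
  else none

/-- the coordinates relevant for `q` -/
def rels (L : List (Path × Node)) (q : Path) : List ℕ :=
  (L.filter (fun e => decide (Rel q e.1))).map (fun e => ((get L e.1).getD (fresh 0)).c)

/-- a node when it is visited and goes on waiting -/
def nw (t : ℕ) (n : Node) : Node :=
  ⟨n.c, if n.rm = 0 then 0 else 2, true, n.dl, n.pf, n.pM, n.s0, if n.wait then n.s1 else t, n.r⟩

/-- a node after the answer `b` -/
def na (t : ℕ) (n : Node) (b : Bool) : Node :=
  ⟨n.c, if n.rm = 0 then 0 else 2, false, n.dl, n.pf, xor n.pM b,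
    if n.wait then n.s1 else t, if n.wait then n.s1 else t, n.r⟩

/-- the outcome determined by the two bits -/
def outc (pf pM : Bool) : Fin 4 := if pf then 0 else if pM then 2 else 1

/-- the step function -/
def step (t : ℕ) (C : Cfg) : Cfg :=
  if C.up then
    match C.p with
    | [] => ⟨C.L, [], false, []⟩
    | o :: q =>
      if o = 3 then ⟨C.L, q, true, C.d⟩
      else
        let n := (get C.L q).getD (fresh 0)
        if n.pf then
          ⟨(q, ⟨n.c, n.rm, n.wait, C.d, n.pf, n.pM, n.s0, n.s1, C.d⟩) :: C.L, q, true, C.d⟩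
        else
          ⟨(q, ⟨n.c, n.rm, n.wait, n.dl, true, n.pM, n.s0, n.s1, n.dl ++ C.d⟩) :: C.L,
            q, true, n.dl ++ C.d⟩
  else
    match get C.L C.p with
    | none => ⟨(C.p, fresh t) :: C.L, C.p, true, []⟩
    | some n =>
      if n.rm = 0 ∧ Phi C.p.length t n.c then
        ⟨(C.p, ⟨n.c, 1, n.wait, n.dl, n.pf, n.pM, n.s0, n.s1, n.r⟩) :: C.L, C.p, true, [n.c]⟩
      else
        match ansf C.p.length t n.s0 (if n.wait then n.s1 else t) n.r (rels C.L C.p) with
        | none => ⟨(C.p, nw t n) :: C.L, 3 :: C.p, false, []⟩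
        | some b =>
          if n.pf && xor n.pM b then
            ⟨(C.p, ⟨(na t n b).c, (na t n b).rm, false, n.dl, false, (na t n b).pM, (na t n b).s0,
              (na t n b).s1, n.dl⟩) :: C.L, C.p, true, n.dl⟩
          else
            ⟨(C.p, na t n b) ::
              C.L.filter (fun e => !decide (Kill (outc n.pf (xor n.pM b)) C.p e.1)),
              outc n.pf (xor n.pM b) :: C.p, false, []⟩

/-- the run -/
def run : ℕ → Cfg
  | 0 => ⟨[], [], false, []⟩
  | t + 1 => step t (run t)

/-- the move at time `t` -/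
def mv (t : ℕ) : List ℕ := if (run t).up = true ∧ (run t).p = [] then (run t).d else []

/-- the coordinate `c` is dead at time `t` -/
def dead (t c : ℕ) : Bool :=
  decide (c < t) && !((run t).L.any (fun e => decide (((get (run t).L e.1).getD (fresh 0)).c = c)))

/-! ### the abstract machine -/

/-- abstract configurations -/
structure ACfg where
  S : Path → Option Node
  p : Path
  up : Bool
  d : List ℕ

/-- one step of the abstract machine -/
inductive Step (t : ℕ) : ACfg → ACfg → Prop
  | emit (S : Path → Option Node) (d : List ℕ) : Step t ⟨S, [], true, d⟩ ⟨S, [], false, []⟩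
  | upD (S : Path → Option Node) (q : Path) (d : List ℕ) :
      Step t ⟨S, 3 :: q, true, d⟩ ⟨S, q, true, d⟩
  | upN (S : Path → Option Node) (q : Path) (o : Fin 4) (d : List ℕ) (n : Node)
      (ho : o ≠ 3) (hS : S q = some n) (hpf : n.pf = true) :
      Step t ⟨S, o :: q, true, d⟩
        ⟨Function.update S q (some ⟨n.c, n.rm, n.wait, d, n.pf, n.pM, n.s0, n.s1, d⟩), q, true, d⟩
  | upP (S : Path → Option Node) (q : Path) (o : Fin 4) (d : List ℕ) (n : Node)
      (ho : o ≠ 3) (hS : S q = some n) (hpf : n.pf = false) :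
      Step t ⟨S, o :: q, true, d⟩
        ⟨Function.update S q (some ⟨n.c, n.rm, n.wait, n.dl, true, n.pM, n.s0, n.s1, n.dl ++ d⟩),
          q, true, n.dl ++ d⟩
  | create (S : Path → Option Node) (q : Path) (d : List ℕ) (hS : S q = none) :
      Step t ⟨S, q, false, d⟩ ⟨Function.update S q (some (fresh t)), q, true, []⟩
  | act (S : Path → Option Node) (q : Path) (d : List ℕ) (n : Node) (hS : S q = some n)
      (hrm : n.rm = 0) (hPhi : Phi q.length t n.c) :
      Step t ⟨S, q, false, d⟩
        ⟨Function.update S q (some ⟨n.c, 1, n.wait, n.dl, n.pf, n.pM, n.s0, n.s1, n.r⟩),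
          q, true, [n.c]⟩
  | skip (S : Path → Option Node) (q : Path) (d : List ℕ) (n : Node) (K : List ℕ)
      (hS : S q = some n) (hna : ¬ (n.rm = 0 ∧ Phi q.length t n.c))
      (hK : ∀ c, c ∈ K ↔ ∃ w m, Rel q w ∧ S w = some m ∧ m.c = c)
      (hans : ansf q.length t n.s0 (if n.wait then n.s1 else t) n.r K = none) :
      Step t ⟨S, q, false, d⟩ ⟨Function.update S q (some (nw t n)), 3 :: q, false, []⟩
  | own (S : Path → Option Node) (q : Path) (d : List ℕ) (n : Node) (K : List ℕ) (b : Bool)
      (hS : S q = some n) (hna : ¬ (n.rm = 0 ∧ Phi q.length t n.c))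
      (hK : ∀ c, c ∈ K ↔ ∃ w m, Rel q w ∧ S w = some m ∧ m.c = c)
      (hans : ansf q.length t n.s0 (if n.wait then n.s1 else t) n.r K = some b)
      (hpf : n.pf = true) (hpM : xor n.pM b = true) :
      Step t ⟨S, q, false, d⟩
        ⟨Function.update S q (some ⟨(na t n b).c, (na t n b).rm, false, n.dl, false, (na t n b).pM,
          (na t n b).s0, (na t n b).s1, n.dl⟩), q, true, n.dl⟩
  | go (S : Path → Option Node) (q : Path) (d : List ℕ) (n : Node) (K : List ℕ) (b : Bool)
      (hS : S q = some n) (hna : ¬ (n.rm = 0 ∧ Phi q.length t n.c))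
      (hK : ∀ c, c ∈ K ↔ ∃ w m, Rel q w ∧ S w = some m ∧ m.c = c)
      (hans : ansf q.length t n.s0 (if n.wait then n.s1 else t) n.r K = some b)
      (hno : ¬ (n.pf = true ∧ xor n.pM b = true)) :
      Step t ⟨S, q, false, d⟩
        ⟨fun w => if Kill (outc n.pf (xor n.pM b)) q w then none
            else Function.update S q (some (na t n b)) w,
          outc n.pf (xor n.pM b) :: q, false, []⟩

/-- the abstract configuration at time `t` -/
def arun (t : ℕ) : ACfg := ⟨get (run t).L, (run t).p, (run t).up, (run t).d⟩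

end Pool.Agent.Helper158.FCD
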