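import Pool.Agent.Helper158.FCD.TraceDefs

set_option autoImplicit false
namespace Pool.Agent.Helper158.FCD

theorem asm_find (P : ℕ → ℕ → Bool) (hP : Computable₂ P) (h : ∀ c, ∃ t, P c t = true) :
    ∃ τ : ℕ → ℕ, Computable τ ∧ ∀ c, P c (τ c) = true := by
  have h1 : Partrec fun c => Nat.rfind (fun t => Part.some (P c t)) :=
    Partrec.rfind (p := fun c t => Part.some (P c t)) hP.partrec₂
  have hdom : ∀ c, (Nat.rfind (fun t => Part.some (P c t))).Dom := by
    intro c
    obtain ⟨t, ht⟩ := h c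
    refine Nat.rfind_dom.2 ⟨t, ?_, fun {m} _ => trivial⟩
    exact Part.mem_some_iff.2 ht.symm
  refine ⟨fun c => (Nat.rfind (fun t => Part.some (P c t))).get (hdom c), ?_, ?_⟩
  · exact Partrec.of_eq h1 fun c => (Part.some_get (hdom c)).symm
  · intro c
    have h2 := Nat.rfind_spec (Part.get_mem (hdom c))
    exact (Part.mem_some_iff.1 h2).symm

theorem asm_xor : Computable₂ (fun a b : Bool => xor a b) :=
  (Primrec.dom_finite (fun p : Bool × Bool => xor p.1 p.2)).to_comp

theorem asm_ff (v : ℕ → List ℕ) (ℓ k c : ℕ) :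
    xor (ff v (ℓ + k) c) (ff v ℓ c) = par ((List.range' ℓ k).flatMap v) c := by
  induction k with
  | zero => simp
  | succ k ih =>
    rw [List.range'_1_concat, List.flatMap_append, par_append, ← ih, ← add_assoc]
    show xor (xor (ff v (ℓ + k) c) (par (v (ℓ + k)) c)) (ff v ℓ c) = _
    simp only [List.flatMap_cons, List.flatMap_nil, List.append_nil]
    cases ff v (ℓ + k) c <;> cases par (v (ℓ + k)) c <;> cases ff v ℓ c <;> rfl

theorem asm (v : ℕ → List ℕ) (dead : ℕ → ℕ → Bool) (m : ℕ → ℕ → Bool) (hm : Computable₂ m)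
    (hff : Computable₂ (ff v)) (g : ℕ → Bool) (s : ℕ → ℕ) (B : Bool) (T : ℕ)
    (hg : Computable g) (hs : Computable s)
    (hinf : ∀ N, ∃ t, N ≤ t ∧ g t = true ∧ N ≤ s t) (hst : ∀ t, g t = true → s t ≤ t)
    (hconst : ∀ c, T ≤ c → (∀ t, dead t c = false) → ∀ t t', g t = true → g t' = true →
      c < s t → c < s t' →
      xor (m (s t) c) (B && ff v t c) = xor (m (s t') c) (B && ff v t' c))
    (hcoh : ∀ k ℓ, k ≤ ℓ → InU v dead k (fun c => xor (m ℓ c) (m k c))) :
    ∃ a : ℕ → Bool, Computable a ∧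
      (B = false → ∀ ℓ, InU v dead ℓ (fun c => xor (a c) (m ℓ c))) ∧
      (B = true → ∀ ℓ, InU v dead ℓ (fun c => xor (a c) (xor (m ℓ c) (ff v ℓ c)))) := by
  classical
  -- the value function
  obtain ⟨val, hval⟩ : ∃ val : ℕ → ℕ → Bool,
      val = fun t c => xor (m (s t) c) (B && ff v t c) := ⟨_, rfl⟩
  have hvalc : Computable₂ val := by
    rw [hval]
    have h1 : Computable₂ (fun t c : ℕ => m (s t) c) :=
      hm.comp (hs.comp Computable.fst) Computable.snd
    have h2 : Computable₂ (fun t c : ℕ => B && ff v t c) := by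
      cases B
      · exact (Computable.const false).of_eq fun p => rfl
      · exact Computable.of_eq hff fun p => by simp
    exact asm_xor.comp h1 h2
  -- pigeonhole
  obtain ⟨b, hb⟩ : ∃ b : Fin T → Bool, ∀ N, ∃ t, N ≤ t ∧ g t = true ∧ N ≤ s t ∧
      ∀ c : Fin T, val t c = b c := by
    by_contra hcon
    push Not at hcon
    choose N hN using hcon
    obtain ⟨t, ht1, ht2, ht3⟩ := hinf (Finset.univ.sup N)
    have hle : N (fun c => val t c) ≤ Finset.univ.sup N := Finset.le_sup (Finset.mem_univ _)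
    obtain ⟨c, hc⟩ := hN (fun c => val t c) t (hle.trans ht1) ht2 (hle.trans ht3)
    exact hc rfl
  -- the search
  obtain ⟨τ, hτc, hτ⟩ := asm_find (fun c t => g t && decide (c < s t)) (by
    have h1 : Computable₂ (fun c t : ℕ => g t) := hg.comp Computable.snd
    have h2 : Computable₂ (fun c t : ℕ => decide (c < s t)) := by
      have h3 : Computable₂ (fun c t : ℕ => decide (c < t)) := Primrec.nat_lt.decide.to_comp
      exact h3.comp Computable.fst (hs.comp Computable.snd)
    exact (Primrec.and.to_comp).comp h1 h2) (by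
    intro c
    obtain ⟨t, -, ht2, ht3⟩ := hinf (c + 1)
    refine ⟨t, ?_⟩
    simp [ht2]
    omega)
  have hτ1 : ∀ c, g (τ c) = true := fun c => by
    have := hτ c
    simp at this
    exact this.1
  have hτ2 : ∀ c, c < s (τ c) := fun c => by
    have := hτ c
    simp at this
    exact this.2
  -- the function
  obtain ⟨a, ha⟩ : ∃ a : ℕ → Bool, a = fun c => ((List.ofFn b)[c]?).getD (val (τ c) c) := ⟨_, rfl⟩
  have hac : Computable a := by
    rw [ha]
    exact Computable.option_getD (Primrec.list_getElem?₁ (List.ofFn b)).to_comp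
      (hvalc.comp hτc Computable.id)
  have ha1 : ∀ c (hc : c < T), a c = b ⟨c, hc⟩ := by
    intro c hc
    rw [ha]
    show ((List.ofFn b)[c]?).getD (val (τ c) c) = b ⟨c, hc⟩
    rw [List.getElem?_eq_getElem (by simpa using hc)]
    simp
  have ha2 : ∀ c, T ≤ c → a c = val (τ c) c := by
    intro c hc
    rw [ha]
    show ((List.ofFn b)[c]?).getD (val (τ c) c) = val (τ c) c
    rw [List.getElem?_eq_none (by simpa using hc)]
    rfl
  have hkey : ∀ t, g t = true → (∀ c : Fin T, val t c = b c) → ∀ c, c < s t →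
      (∀ u, dead u c = false) → a c = val t c := by
    intro t ht1 ht2 c hc hcd
    by_cases hcT : c < T
    · rw [ha1 c hcT, ← ht2 ⟨c, hcT⟩]
    · rw [ha2 c (not_lt.1 hcT), hval]
      exact hconst c (not_lt.1 hcT) hcd (τ c) t (hτ1 c) ht1 (hτ2 c) hc
  refine ⟨a, hac, ?_, ?_⟩
  · intro hB ℓ
    obtain ⟨t, ht1, ht2, ht3, ht4⟩ := hb ℓ
    obtain ⟨S, hS1, hS2⟩ := hcoh ℓ (s t) ht3
    refine ⟨S, hS1, fun c hc hcd => ?_⟩
    rw [← hS2 c hc hcd]
    have h1 := hkey t ht2 ht4 c (by omega) hcd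
    show xor (a c) (m ℓ c) = xor (m (s t) c) (m ℓ c)
    rw [h1, hval, hB]
    simp
  · intro hB ℓ
    obtain ⟨t, ht1, ht2, ht3, ht4⟩ := hb ℓ
    obtain ⟨S, hS1, hS2⟩ := hcoh ℓ (s t) ht3
    refine ⟨S ++ List.range' ℓ (t - ℓ), ?_, fun c hc hcd => ?_⟩
    · intro x hx
      rw [List.mem_append] at hx
      rcases hx with hx | hx
      · exact hS1 x hx
      · exact (List.mem_range'_1.1 hx).1
    · have h1 := hkey t ht2 ht4 c (by omega) hcd
      have h2 := asm_ff v ℓ (t - ℓ) c
      rw [Nat.add_sub_cancel' ht1] at h2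
      rw [List.flatMap_append, par_append, ← hS2 c hc hcd, ← h2]
      show xor (a c) (xor (m ℓ c) (ff v ℓ c)) =
        xor (xor (m (s t) c) (m ℓ c)) (xor (ff v t c) (ff v ℓ c))
      rw [h1, hval, hB]
      simp only [Bool.true_and]
      cases m (s t) c <;> cases ff v t c <;> cases m ℓ c <;> cases ff v ℓ c <;> rfl

end Pool.Agent.Helper158.FCD
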