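import Pool.Agent.Helper158.FCD.TraceDefs

set_option autoImplicit false
namespace Pool.Agent.Helper158.FCD


lemma incomp_prefix {α : Type*} : ∀ (a b : List α), ¬ (a <+: b) → ¬ (b <+: a) →
    ∃ q x y, x ≠ y ∧ (q ++ [x]) <+: a ∧ (q ++ [y]) <+: b := by
  intro a
  induction a with
  | nil => intro b h _; exact absurd List.nil_prefix h
  | cons x a ih =>
    intro b h h'
    cases b with
    | nil => exact absurd List.nil_prefix h'
    | cons y b =>
      by_cases hxy : x = y
      · subst hxy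
        have h1 : ¬ (a <+: b) := fun hh => h (by simpa using hh)
        have h2 : ¬ (b <+: a) := fun hh => h' (by simpa using hh)
        obtain ⟨q, x', y', hne, ha, hb⟩ := ih b h1 h2
        refine ⟨x :: q, x', y', hne, ?_, ?_⟩
        · simpa using ha
        · simpa using hb
      · exact ⟨[], x, y, hxy, by simp, by simp⟩

lemma incomp_suffix {w u : Path} (h : ¬ (w <:+ u)) (h' : ¬ (u <:+ w)) :
    ∃ (q : Path) (o₁ o₂ : Fin 4), o₁ ≠ o₂ ∧ (o₁ :: q) <:+ w ∧ (o₂ :: q) <:+ u := by
  have h1 : ¬ (w.reverse <+: u.reverse) := fun hh => h (List.reverse_prefix.1 hh)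
  have h2 : ¬ (u.reverse <+: w.reverse) := fun hh => h' (List.reverse_prefix.1 hh)
  obtain ⟨q, x, y, hne, ha, hb⟩ := incomp_prefix _ _ h1 h2
  refine ⟨q.reverse, x, y, hne, ?_, ?_⟩
  · apply List.reverse_prefix.1
    simpa using ha
  · apply List.reverse_prefix.1
    simpa using hb

lemma kill_step {t : ℕ} {C D : ACfg} (h : Step t C D) {q w : Path} {o o' : Fin 4}
    (hup : C.up = false) (hp : C.p = q) (hup' : D.up = false) (hp' : D.p = o :: q)
    (hlt : o < o') (hw : (o' :: q) <:+ w) : D.S w = none := by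
  have key : Kill o q w := by
    unfold Kill
    revert hw
    revert o'
    revert o
    intro o _ o' hlt hw
    fin_cases o' <;> fin_cases o <;> simp_all
  cases h with
  | emit => simp at hup
  | upD => simp at hup
  | upN => simp at hup
  | upP => simp at hup
  | create => simp at hup'
  | act => simp at hup'
  | own => simp at hup'
  | skip S q' d n K =>
    simp only at hp hp'
    subst hp
    simp only [List.cons.injEq, and_true] at hp'
    subst hp'
    exfalso
    revert hlt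
    fin_cases o' <;> simp
  | go S q' d n K b =>
    simp only at hp hp'
    subst hp
    simp only [List.cons.injEq, and_true] at hp'
    simp only
    rw [hp', if_pos key]

theorem cone (A : ℕ → ACfg) (v : ℕ → List ℕ) (hT : Trace A v) (w : Path) (T : ℕ)
    (hI : InfVis A w) (hS : Stay A w T)
    (owner : ∀ c, Forever A c → ∃ u, Owns A u c ∧ Vis A u c ∧ (A c).S u = none)
    (enter : ∀ (o : Fin 4) (q : Path) (t₁ t₂ : ℕ), t₁ ≤ t₂ → ¬ ((o :: q) <:+ (A t₁).p) →
      (o :: q) <:+ (A t₂).p → ∃ t, t₁ ≤ t ∧ t < t₂ ∧ Vis A q t ∧ Vis A (o :: q) (t + 1)) :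
    ∃ T', T ≤ T' ∧ ∀ c, T' ≤ c → Forever A c → ∃ u, w <:+ u ∧ Owns A u c := by
  obtain ⟨T', hT', hV⟩ := hI T
  refine ⟨T', hT', fun c hc hF => ?_⟩
  obtain ⟨u, hO, hVu, hnone⟩ := owner c hF
  refine ⟨u, ?_, hO⟩
  by_contra hwu
  have huw : ¬ (u <:+ w) := by
    intro hh
    obtain ⟨n, hn⟩ := hS c (hT'.trans hc)
    obtain ⟨k, hk⟩ := (hT.base c).pre w n hn u hh
    rw [hnone] at hk
    exact absurd hk (by simp)
  obtain ⟨q, o₁, o₂, hne, h1, h2⟩ := incomp_suffix hwu huw
  rcases lt_or_gt_of_ne hne with hlt | hlt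
  · -- o₁ < o₂
    obtain ⟨t₂, ht₂, hVw⟩ := hI (c + 1)
    obtain ⟨t, htc, htt, hq1, hq2⟩ := enter o₁ q c t₂ (by omega)
      (fun hh => hne (suffix_head hh (by rw [hVu.2]; exact h2)))
      (by rw [hVw.2]; exact h1)
    have := kill_step (hT.step t) hq1.1 hq1.2 hq2.1 hq2.2 hlt h2
    obtain ⟨n, hn, _⟩ := hO (t + 1) (by omega)
    rw [this] at hn
    exact absurd hn (by simp)
  · -- o₂ < o₁
    obtain ⟨t, htc, htt, hq1, hq2⟩ := enter o₂ q T' c hc
      (fun hh => hne (suffix_head (by rw [hV.2]; exact h1) hh))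
      (by rw [hVu.2]; exact h2)
    have := kill_step (hT.step t) hq1.1 hq1.2 hq2.1 hq2.2 hlt h1
    obtain ⟨n, hn⟩ := hS (t + 1) (by omega)
    rw [this] at hn
    exact absurd hn (by simp)

end Pool.Agent.Helper158.FCD
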