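import Pool.Agent.Helper158.FCD.TraceDefs

set_option autoImplicit false
namespace Pool.Agent.Helper158.FCD

theorem conserve (A : ℕ → ACfg) (v : ℕ → List ℕ) (hT : Trace A v) (m : ℕ → ℕ → Bool)
    (w u : Path) (o : Fin 4) (c T : ℕ) (ho : o ≠ 3) (hu : (o :: w) <:+ u) (hO : Owns A u c)
    (hS : Stay A w T)
    (yv_step : ∀ (t : ℕ) (C C' : ACfg) (f : ℕ → Bool) (n n' k k' : Node), Base t C → Supp C →
      RInv C → FInv t C f → Step t C C' → C.S w = some n → C'.S w = some n' →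
      C.S u = some k → C'.S u = some k' → k.c < n.s0 →
      k'.c = k.c ∧ k.c < n'.s0 ∧
      Yv m (fun c => xor (f c) (par (emis C) c)) C' w n' o k.c = Yv m f C w n o k.c)
    (t₁ t₂ : ℕ) (h12 : t₁ ≤ t₂) (hT1 : T ≤ t₁) (hc1 : c < t₁) (n₁ n₂ : Node)
    (hn1 : (A t₁).S w = some n₁) (hn2 : (A t₂).S w = some n₂) (hc : c < n₁.s0) :
    c < n₂.s0 ∧ Yv m (ff v t₂) (A t₂) w n₂ o c = Yv m (ff v t₁) (A t₁) w n₁ o c := by
  induction t₂, h12 using Nat.le_induction generalizing n₂ with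
  | base =>
    rw [hn1] at hn2
    have h1 : n₁ = n₂ := Option.some.inj hn2
    subst h1
    exact ⟨hc, rfl⟩
  | succ t ht ih =>
    obtain ⟨n, hn⟩ := hS t (by omega)
    obtain ⟨h1, h2⟩ := ih n hn
    obtain ⟨k, hk, hkc⟩ := hO t (by omega)
    obtain ⟨k', hk', hkc'⟩ := hO (t + 1) (by omega)
    obtain ⟨-, h4, h5⟩ := yv_step t (A t) (A (t + 1)) (ff v t) n n₂ k k' (hT.base t) (hT.supp t)
      (hT.rinv t) (hT.finv t) (hT.step t) hn hn2 hk hk' (by rw [hkc]; exact h1)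
    have h6 : ff v (t + 1) = fun c => xor (ff v t c) (par (emis (A t)) c) := by
      funext c'
      show xor (ff v t c') (par (v t) c') = _
      rw [hT.vmv t]
    rw [hkc] at h4 h5
    rw [h6]
    exact ⟨h4, h5.trans h2⟩

end Pool.Agent.Helper158.FCD
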