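import Pool.Agent.Helper158.FCD.TraceDefs

set_option autoImplicit false
namespace Pool.Agent.Helper158.FCD


lemma dc_step_w {t : ℕ} {C C' : ACfg} (h : Step t C C') (w : Path) (n n' : Node)
    (hn : C.S w = some n) (hn' : C'.S w = some n')
    (hc : ∀ o : Fin 4, o ≠ 3 → ¬ ((o :: w) <:+ C.p))
    (hc' : ∀ o : Fin 4, o ≠ 3 → ¬ ((o :: w) <:+ C'.p)) :
    (¬ (C.up = false ∧ C.p = w) ∧ n' = n) ∨
    ((C.up = false ∧ C.p = w) ∧
      ((n.rm = 0 ∧ n'.rm ≠ 0 ∧ n'.pf = n.pf) ∨
       (n.pf = true ∧ n'.pf = false ∧ (n'.rm = 0 ↔ n.rm = 0)) ∨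
       (n' = nw t n ∧ ∃ K : List ℕ, (∀ c, c ∈ K ↔ ∃ u m, Rel w u ∧ C.S u = some m ∧ m.c = c) ∧
        ansf w.length t n.s0 (if n.wait then n.s1 else t) n.r K = none))) := by
  cases h with
  | emit S d =>
    left
    simp only at hn hn'
    rw [hn] at hn'
    refine ⟨by simp, ?_⟩
    exact (Option.some.inj hn').symm
  | upD S q d =>
    left
    simp only at hn hn'
    rw [hn] at hn'
    refine ⟨by simp, ?_⟩
    exact (Option.some.inj hn').symm
  | upN S q o d m ho hS hpf =>
    left
    simp only at hn hn' hc hc'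
    have hq : w ≠ q := by
      rintro rfl
      exact hc o ho (List.suffix_refl _)
    rw [Function.update_of_ne hq, hn] at hn'
    refine ⟨by simp, ?_⟩
    exact (Option.some.inj hn').symm
  | upP S q o d m ho hS hpf =>
    left
    simp only at hn hn' hc hc'
    have hq : w ≠ q := by
      rintro rfl
      exact hc o ho (List.suffix_refl _)
    rw [Function.update_of_ne hq, hn] at hn'
    refine ⟨by simp, ?_⟩
    exact (Option.some.inj hn').symm
  | create S q d hS =>
    left
    simp only at hn hn' hc hc'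
    have hq : w ≠ q := by
      rintro rfl
      rw [hS] at hn
      exact absurd hn (by simp)
    rw [Function.update_of_ne hq, hn] at hn'
    refine ⟨fun h => hq h.2.symm, ?_⟩
    exact (Option.some.inj hn').symm
  | act S q d m hS hrm hPhi =>
    simp only at hn hn' hc hc'
    by_cases hq : w = q
    · subst hq
      right
      refine ⟨⟨rfl, rfl⟩, ?_⟩
      left
      rw [hS] at hn
      rw [Function.update_self] at hn'
      have e1 := Option.some.inj hn
      have e2 := Option.some.inj hn'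
      subst e1
      subst e2
      exact ⟨hrm, by simp, rfl⟩
    · left
      rw [Function.update_of_ne hq, hn] at hn'
      refine ⟨fun h => hq h.2.symm, ?_⟩
      exact (Option.some.inj hn').symm
  | skip S q d m K hS hna hK hans =>
    simp only at hn hn' hc hc'
    by_cases hq : w = q
    · subst hq
      right
      refine ⟨⟨rfl, rfl⟩, ?_⟩
      right
      right
      rw [hS] at hn
      rw [Function.update_self] at hn'
      have e1 := Option.some.inj hn
      have e2 := Option.some.inj hn'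
      subst e1
      exact ⟨e2.symm, K, hK, hans⟩
    · left
      rw [Function.update_of_ne hq, hn] at hn'
      refine ⟨fun h => hq h.2.symm, ?_⟩
      exact (Option.some.inj hn').symm
  | own S q d m K b hS hna hK hans hpf hpM =>
    simp only at hn hn' hc hc'
    by_cases hq : w = q
    · subst hq
      right
      refine ⟨⟨rfl, rfl⟩, ?_⟩
      right
      left
      rw [hS] at hn
      rw [Function.update_self] at hn'
      have e1 := Option.some.inj hn
      have e2 := Option.some.inj hn'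
      subst e1
      subst e2
      refine ⟨hpf, rfl, ?_⟩
      show (if m.rm = 0 then 0 else 2) = 0 ↔ m.rm = 0
      split_ifs with h <;> simp [h]
    · left
      rw [Function.update_of_ne hq, hn] at hn'
      refine ⟨fun h => hq h.2.symm, ?_⟩
      exact (Option.some.inj hn').symm
  | go S q d m K b hS hna hK hans hno =>
    simp only at hn hn' hc hc'
    by_cases hq : w = q
    · subst hq
      exfalso
      refine hc' (outc m.pf (xor m.pM b)) ?_ (List.suffix_refl _)
      unfold outc
      split_ifs <;> decide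
    · left
      rw [Function.update_of_ne hq] at hn'
      refine ⟨fun h => hq h.2.symm, ?_⟩
      split_ifs at hn'
      rw [hn] at hn'
      exact (Option.some.inj hn').symm

lemma dc_step_u {t : ℕ} {C C' : ACfg} (h : Step t C C') (w : Path) (n n' : Node)
    (hn : C.S w = some n) (hn' : C'.S w = some n')
    (hc : ∀ o : Fin 4, o ≠ 3 → ¬ ((o :: w) <:+ C.p))
    (hc' : ∀ o : Fin 4, o ≠ 3 → ¬ ((o :: w) <:+ C'.p)) (u : Path) (hu : Rel w u) :
    C'.S u = C.S u := by
  have key : ∃ o : Fin 4, o ≠ 3 ∧ (o :: w) <:+ u := by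
    rcases hu with h | h | h
    · exact ⟨0, by decide, h⟩
    · exact ⟨1, by decide, h⟩
    · exact ⟨2, by decide, h⟩
  obtain ⟨o', ho', hou⟩ := key
  have hnp : ¬ (u <:+ C.p) := fun h => hc o' ho' (hou.trans h)
  cases h with
  | emit S d => rfl
  | upD S q d => rfl
  | upN S q o d m ho hS hpf =>
    simp only at hnp ⊢
    have hq : u ≠ q := by
      rintro rfl
      exact hnp (List.suffix_cons _ _)
    rw [Function.update_of_ne hq]
  | upP S q o d m ho hS hpf =>
    simp only at hnp ⊢
    have hq : u ≠ q := by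
      rintro rfl
      exact hnp (List.suffix_cons _ _)
    rw [Function.update_of_ne hq]
  | create S q d hS =>
    simp only at hnp ⊢
    have hq : u ≠ q := by
      rintro rfl
      exact hnp (List.suffix_refl _)
    rw [Function.update_of_ne hq]
  | act S q d m hS hrm hPhi =>
    simp only at hnp ⊢
    have hq : u ≠ q := by
      rintro rfl
      exact hnp (List.suffix_refl _)
    rw [Function.update_of_ne hq]
  | skip S q d m K hS hna hK hans =>
    simp only at hnp ⊢
    have hq : u ≠ q := by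
      rintro rfl
      exact hnp (List.suffix_refl _)
    rw [Function.update_of_ne hq]
  | own S q d m K b hS hna hK hans hpf hpM =>
    simp only at hnp ⊢
    have hq : u ≠ q := by
      rintro rfl
      exact hnp (List.suffix_refl _)
    rw [Function.update_of_ne hq]
  | go S q d m K b hS hna hK hans hno =>
    simp only at hn hn' hc hc' hnp ⊢
    have hq : u ≠ q := by
      rintro rfl
      exact hnp (List.suffix_refl _)
    have hw : ¬ Kill (outc m.pf (xor m.pM b)) q w := by
      intro hk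
      rw [if_pos hk] at hn'
      exact absurd hn' (by simp)
    have hk : ¬ Kill (outc m.pf (xor m.pM b)) q u := by
      intro hk
      -- the relevant suffix
      have main : ∀ o₂ : Fin 4, (o₂ :: q) <:+ u → ((o₂ :: q) <:+ w) := by
        intro o₂ h2
        have hwu : w <:+ u := suffix_cons' hou
        rcases suffix_cmp h2 hwu with h3 | h3
        · exact h3
        · rcases suffix_cons_cases h3 with h4 | h4
          · rw [h4]
          · exfalso
            rcases suffix_eq_or h4 with h5 | ⟨o3, h5⟩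
            · subst h5
              refine hc' (outc m.pf (xor m.pM b)) ?_ (List.suffix_refl _)
              unfold outc
              split_ifs <;> decide
            · have h6 : (o3 :: w) <:+ u := h5.trans (suffix_cons' h2)
              have h7 := suffix_head h6 hou
              subst h7
              exact hc o3 ho' h5
      apply hw
      rcases hk with h | h | h
      · exact Or.inl ⟨h.1, main _ h.2⟩
      · exact Or.inr (Or.inl ⟨h.1, main _ h.2⟩)
      · exact Or.inr (Or.inr ⟨h.1, main _ h.2⟩)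
    rw [if_neg hk, Function.update_of_ne hq]

theorem dcase1 (A : ℕ → ACfg) (v : ℕ → List ℕ) (hT : Trace A v) (w : Path) (T : ℕ)
    (hI : InfVis A w) (hS : Stay A w T)
    (hno : ∃ T', ∀ o : Fin 4, o ≠ 3 → ∀ t, T' ≤ t → ¬ Vis A (o :: w) t)
    (enter : ∀ (o : Fin 4) (q : Path) (t₁ t₂ : ℕ), t₁ ≤ t₂ → ¬ ((o :: q) <:+ (A t₁).p) →
      (o :: q) <:+ (A t₂).p → ∃ t, t₁ ≤ t ∧ t < t₂ ∧ Vis A q t ∧ Vis A (o :: q) (t + 1)) :
    ∃ T₃ k, (A T₃).S w = some k ∧ k.wait = true ∧ ∀ t, T₃ ≤ t →
      (A t).S w = some k ∧ (∀ u, Rel w u → (A t).S u = (A T₃).S u) ∧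
      (Vis A w t → ∃ K : List ℕ, (∀ c, c ∈ K ↔ ∃ u m, Rel w u ∧ (A t).S u = some m ∧ m.c = c) ∧
        ansf w.length t k.s0 k.s1 k.r K = none) := by
  obtain ⟨T', hT'⟩ := hno
  obtain ⟨t₁, ht₁, hv₁⟩ := hI (max T T')
  have ht₁T : T ≤ t₁ := le_trans (le_max_left _ _) ht₁
  have ht₁T' : T' ≤ t₁ := le_trans (le_max_right _ _) ht₁
  -- claim 1
  have hc : ∀ t, t₁ ≤ t → ∀ o : Fin 4, o ≠ 3 → ¬ ((o :: w) <:+ (A t).p) := by
    intro t ht o ho hsuf
    have h0 : ¬ ((o :: w) <:+ (A t₁).p) := by
      rw [hv₁.2]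
      exact not_cons_suffix
    obtain ⟨t', h1, h2, h3, h4⟩ := enter o w t₁ t ht h0 hsuf
    exact hT' o ho (t' + 1) (by omega) h4
  -- the nodes
  have hN : ∀ t, ∃ n : Node, t₁ ≤ t → (A t).S w = some n := by
    intro t
    by_cases ht : t₁ ≤ t
    · obtain ⟨n, hn⟩ := hS t (le_trans ht₁T ht)
      exact ⟨n, fun _ => hn⟩
    · exact ⟨fresh 0, fun h => absurd h ht⟩
  choose N hN using hN
  have hstep : ∀ t, t₁ ≤ t →
      (¬ ((A t).up = false ∧ (A t).p = w) ∧ N (t + 1) = N t) ∨
      (((A t).up = false ∧ (A t).p = w) ∧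
        (((N t).rm = 0 ∧ (N (t+1)).rm ≠ 0 ∧ (N (t+1)).pf = (N t).pf) ∨
         ((N t).pf = true ∧ (N (t+1)).pf = false ∧ ((N (t+1)).rm = 0 ↔ (N t).rm = 0)) ∨
         (N (t+1) = nw t (N t) ∧ ∃ K : List ℕ,
          (∀ c, c ∈ K ↔ ∃ u m, Rel w u ∧ (A t).S u = some m ∧ m.c = c) ∧
          ansf w.length t (N t).s0 (if (N t).wait then (N t).s1 else t) (N t).r K = none))) := by
    intro t ht
    exact dc_step_w (hT.step t) w (N t) (N (t+1)) (hN t ht) (hN (t+1) (by omega)) (hc t ht)
      (hc (t+1) (by omega))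
  -- measure
  let μ : ℕ → ℕ := fun t => (if (N t).rm = 0 then 1 else 0) + (if (N t).pf = true then 1 else 0)
  have hμ : ∀ t, t₁ ≤ t → μ (t + 1) ≤ μ t := by
    intro t ht
    rcases hstep t ht with ⟨_, h⟩ | ⟨_, ⟨h1, h2, h3⟩ | ⟨h1, h2, h3⟩ | ⟨h1, _⟩⟩
    · simp only [μ, h]; exact le_refl _
    · simp only [μ, h1, h3, if_neg h2]; simp
    · simp only [μ, h1, h2, h3]; simp
    · simp only [μ, h1, nw]
      by_cases h : (N t).rm = 0 <;> simp [h]
  have hmono : ∀ a b, t₁ ≤ a → a ≤ b → μ b ≤ μ a := by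
    intro a b ha hab
    induction b, hab using Nat.le_induction with
    | base => exact le_refl _
    | succ b hb ih => exact le_trans (hμ b (le_trans ha hb)) ih
  -- a minimum
  obtain ⟨T₂, hT₂, hmin⟩ : ∃ T₂, t₁ ≤ T₂ ∧ ∀ t, t₁ ≤ t → μ T₂ ≤ μ t := by
    have hex : ∃ m, ∃ t, t₁ ≤ t ∧ μ t = m := ⟨μ t₁, t₁, le_refl _, rfl⟩
    classical
    obtain ⟨T₂, h1, h2⟩ := Nat.find_spec hex
    refine ⟨T₂, h1, fun t ht => ?_⟩
    rw [h2]
    exact Nat.find_min' hex ⟨t, ht, rfl⟩
  have hconst : ∀ t, T₂ ≤ t → μ (t + 1) = μ t := by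
    intro t ht
    apply le_antisymm (hμ t (le_trans hT₂ ht))
    exact le_trans (hmono T₂ t hT₂ ht) (hmin (t+1) (by omega))
  have hstep2 : ∀ t, T₂ ≤ t →
      (¬ ((A t).up = false ∧ (A t).p = w) ∧ N (t + 1) = N t) ∨
      (((A t).up = false ∧ (A t).p = w) ∧
         (N (t+1) = nw t (N t) ∧ ∃ K : List ℕ,
          (∀ c, c ∈ K ↔ ∃ u m, Rel w u ∧ (A t).S u = some m ∧ m.c = c) ∧
          ansf w.length t (N t).s0 (if (N t).wait then (N t).s1 else t) (N t).r K = none)) := by
    intro t ht
    have hcs := hconst t ht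
    rcases hstep t (le_trans hT₂ ht) with h | ⟨hv, ⟨h1, h2, h3⟩ | ⟨h1, h2, h3⟩ | h⟩
    · exact Or.inl h
    · exfalso
      simp only [μ, h1, h3, if_neg h2] at hcs
      simp at hcs
    · exfalso
      simp only [μ, h1, h2, h3] at hcs
      simp at hcs
    · exact Or.inr ⟨hv, h⟩
  obtain ⟨t₂, ht₂, hv₂⟩ := hI T₂
  have hk : N (t₂ + 1) = nw t₂ (N t₂) := by
    rcases hstep2 t₂ ht₂ with h | h
    · exact absurd hv₂ h.1
    · exact h.2.1
  have hwait : (N (t₂ + 1)).wait = true := by rw [hk]; rfl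
  have hrm : (N (t₂ + 1)).rm = 0 ∨ (N (t₂ + 1)).rm = 2 := by
    rw [hk]
    simp only [nw]
    by_cases h : (N t₂).rm = 0
    · left; simp [h]
    · right; simp [h]
  have hnw : ∀ t, nw t (N (t₂ + 1)) = N (t₂ + 1) := by
    intro t
    generalize N (t₂ + 1) = k at hwait hrm
    obtain ⟨c, rm, wait, dl, pf, pM, s0, s1, r⟩ := k
    simp only at hwait hrm
    subst hwait
    simp only [nw]
    rcases hrm with rfl | rfl <;> simp
  have hNc : ∀ t, t₂ + 1 ≤ t → N t = N (t₂ + 1) := by
    intro t ht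
    induction t, ht using Nat.le_induction with
    | base => rfl
    | succ t ht ih =>
      rcases hstep2 t (by omega) with h | h
      · rw [h.2, ih]
      · rw [h.2.1, ih, hnw]
  refine ⟨t₂ + 1, N (t₂ + 1), hN _ (by omega), hwait, fun t ht => ⟨?_, ?_, ?_⟩⟩
  · rw [hN t (by omega), hNc t ht]
  · intro u hu
    induction t, ht using Nat.le_induction with
    | base => rfl
    | succ t ht ih =>
      rw [← ih]
      exact dc_step_u (hT.step t) w (N t) (N (t+1)) (hN t (by omega)) (hN (t+1) (by omega))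
        (hc t (by omega)) (hc (t+1) (by omega)) u hu
  · intro hv
    rcases hstep2 t (by omega) with h | h
    · exact absurd hv h.1
    · obtain ⟨K, h1, h2⟩ := h.2.2
      refine ⟨K, h1, ?_⟩
      rw [hNc t ht, hwait] at h2
      simpa using h2

end Pool.Agent.Helper158.FCD
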