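import Pool.Agent.Helper158.FCD.TraceDefs

set_option autoImplicit false
namespace Pool.Agent.Helper158.FCD

theorem dcase2 (A : ℕ → ACfg) (v : ℕ → List ℕ) (dead : ℕ → ℕ → Bool) (hT : Trace A v)
    (hd : ∀ t c, dead t c = false ↔ (t ≤ c ∨ ∃ w n, (A t).S w = some n ∧ n.c = c))
    (hdm : DeadMono dead) (m : ℕ → ℕ → Bool) (w : Path) (hI : InfVis A w)
    (hval : ∀ u x y c, ev w.length u x y = some c → c = (m x y).toNat)
    (htot : ∀ x y, ∃ u₀, ∀ u, u₀ ≤ u → (ev w.length u x y).isSome = true)
    (hcoh : ∀ k ℓ, k ≤ ℓ → InU v dead k (fun c => xor (m ℓ c) (m k c)))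
    (T₃ : ℕ) (k : Node) (hk : (A T₃).S w = some k) (hw : k.wait = true)
    (h : ∀ t, T₃ ≤ t → (A t).S w = some k ∧ (∀ u, Rel w u → (A t).S u = (A T₃).S u) ∧
      (Vis A w t → ∃ K : List ℕ, (∀ c, c ∈ K ↔ ∃ u m, Rel w u ∧ (A t).S u = some m ∧ m.c = c) ∧
        ansf w.length t k.s0 k.s1 k.r K = none)) : False := by
  -- the relevant coordinates
  set Z : ℕ → Prop := fun c => ∃ u n, Rel w u ∧ (A T₃).S u = some n ∧ n.c = c with hZ
  have hZlt : ∀ c, Z c → c < T₃ := by
    rintro c ⟨u, n, hu, hn, rfl⟩
    exact ((hT.base T₃).bnd u n hn).1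
  have hZdead : ∀ c, Z c → ∀ t, dead t c = false := by
    rintro c ⟨u, n, hu, hn, hc⟩ t
    have hge : ∀ t, T₃ ≤ t → dead t c = false := by
      intro t ht
      rw [hd]
      right
      refine ⟨u, n, ?_, hc⟩
      rw [(h t ht).2.1 u hu]
      exact hn
    by_cases ht : T₃ ≤ t
    · exact hge t ht
    · by_contra hne
      have h1 : dead t c = true := by
        cases hdd : dead t c
        · exact absurd hdd hne
        · rfl
      have h2 : ∀ s, dead (t + s) c = true := by
        intro s
        induction s with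
        | zero => exact h1
        | succ s ih => exact hdm _ _ ih
      have h3 := h2 (T₃ - t)
      have h4 : t + (T₃ - t) = T₃ := by omega
      rw [h4, hge T₃ le_rfl] at h3
      exact absurd h3 (by decide)
  have hvx : ∀ x, k.s0 ≤ x → (∀ c, Z c → par (v x) c = false) ∨
      (∀ c, Z c → par (v x) c = par k.r c) := by
    intro x hx
    have ht : T₃ ≤ max (x + 1) T₃ := le_max_right _ _
    have hxt : x < max (x + 1) T₃ := lt_of_lt_of_le (Nat.lt_succ_self x) (le_max_left _ _)
    have hkt := (h _ ht).1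
    rcases ((hT.hist (max (x + 1) T₃)) w k hkt).2.1 x hx hxt with h1 | h1
    · left
      rintro c ⟨u, n, hu, hn, rfl⟩
      exact h1 u n hu (by rw [(h _ ht).2.1 u hu]; exact hn)
    · right
      rintro c ⟨u, n, hu, hn, rfl⟩
      exact h1 u n hu (by rw [(h _ ht).2.1 u hu]; exact hn)
  have hS : ∀ S : List ℕ, (∀ s ∈ S, k.s0 ≤ s) → (∀ c, Z c → par (S.flatMap v) c = false) ∨
      (∀ c, Z c → par (S.flatMap v) c = par k.r c) := by
    intro S
    induction S with
    | nil => intro _; left; intro c _; rfl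
    | cons s S ih =>
      intro hs
      have h1 := ih (fun x hx => hs x (List.mem_cons_of_mem _ hx))
      have h2 := hvx s (hs s (by simp))
      rcases h1 with h1 | h1 <;> rcases h2 with h2 | h2
      · left
        intro c hc
        rw [List.flatMap_cons, par_append, h1 c hc, h2 c hc]; rfl
      · right
        intro c hc
        rw [List.flatMap_cons, par_append, h1 c hc, h2 c hc]; simp
      · right
        intro c hc
        rw [List.flatMap_cons, par_append, h1 c hc, h2 c hc]; simp
      · left
        intro c hc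
        rw [List.flatMap_cons, par_append, h1 c hc, h2 c hc]; simp
  have hs01 : k.s0 ≤ k.s1 := ((hT.base T₃).bnd w k hk).2.2.2.1
  obtain ⟨S, hSs, hSc⟩ := hcoh k.s0 k.s1 hs01
  choose f hf using htot
  set u₀ : ℕ := (Finset.range T₃).sup (fun c => max (f k.s1 c) (f k.s0 c)) with hu₀
  have hu₀' : ∀ c, c < T₃ → ∀ u, u₀ ≤ u → (ev w.length u k.s1 c).isSome = true ∧
      (ev w.length u k.s0 c).isSome = true := by
    intro c hc u hu
    have h1 : max (f k.s1 c) (f k.s0 c) ≤ u₀ :=
      Finset.le_sup (f := fun c => max (f k.s1 c) (f k.s0 c)) (Finset.mem_range.2 hc)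
    exact ⟨hf _ _ u (le_trans (le_trans (le_max_left _ _) h1) hu),
      hf _ _ u (le_trans (le_trans (le_max_right _ _) h1) hu)⟩
  obtain ⟨t, ht, hvis⟩ := hI (max T₃ u₀)
  have htT : T₃ ≤ t := le_trans (le_max_left _ _) ht
  have htu : u₀ ≤ t := le_trans (le_max_right _ _) ht
  obtain ⟨K, hK, hans⟩ := (h t htT).2.2 hvis
  have hKZ : ∀ c ∈ K, Z c := by
    intro c hc
    obtain ⟨u, n, hu, hn, hnc⟩ := (hK c).1 hc
    exact ⟨u, n, hu, by rw [← (h t htT).2.1 u hu]; exact hn, hnc⟩
  have hbv : ∀ s c, (ev w.length t s c).isSome = true → bv w.length t s c = m s c := by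
    intro s c hsome
    obtain ⟨y, hy⟩ := Option.isSome_iff_exists.1 hsome
    have h1 := hval t s c y hy
    unfold bv
    rw [hy, h1]
    cases m s c <;> simp
  have hconv : K.all (fun c => (ev w.length t k.s1 c).isSome &&
      (decide (k.s0 ≤ c) || (ev w.length t k.s0 c).isSome)) = true := by
    rw [List.all_eq_true]
    intro c hc
    have h1 := hu₀' c (hZlt c (hKZ c hc)) t htu
    simp [h1.1, h1.2]
  unfold ansf at hans
  rw [if_pos hconv] at hans
  have hkey : ∀ c ∈ K, c < k.s0 → xor (m k.s1 c) (m k.s0 c) = par (S.flatMap v) c := by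
    intro c hc hlt
    exact hSc c hlt (hZdead c (hKZ c hc))
  rcases hS S hSs with h1 | h1
  · have htest : K.all (fun c => decide (k.s0 ≤ c) ||
        (bv w.length t k.s1 c == bv w.length t k.s0 c)) = true := by
      rw [List.all_eq_true]
      intro c hc
      by_cases hlt : k.s0 ≤ c
      · simp [hlt]
      · have h2 := hu₀' c (hZlt c (hKZ c hc)) t htu
        have h3 := hkey c hc (by omega)
        rw [h1 c (hKZ c hc)] at h3
        rw [hbv _ _ h2.1, hbv _ _ h2.2]
        have h4 : m k.s1 c = m k.s0 c := by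
          revert h3
          cases m k.s1 c <;> cases m k.s0 c <;> simp
        simp [h4]
    rw [if_pos htest] at hans
    exact absurd hans (by simp)
  · by_cases htest0 : K.all (fun c => decide (k.s0 ≤ c) ||
        (bv w.length t k.s1 c == bv w.length t k.s0 c)) = true
    · rw [if_pos htest0] at hans
      exact absurd hans (by simp)
    · rw [if_neg htest0] at hans
      have htest : K.all (fun c => decide (k.s0 ≤ c) ||
          (bv w.length t k.s1 c == xor (bv w.length t k.s0 c) (par k.r c))) = true := by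
        rw [List.all_eq_true]
        intro c hc
        by_cases hlt : k.s0 ≤ c
        · simp [hlt]
        · have h2 := hu₀' c (hZlt c (hKZ c hc)) t htu
          have h3 := hkey c hc (by omega)
          rw [h1 c (hKZ c hc)] at h3
          rw [hbv _ _ h2.1, hbv _ _ h2.2, ← h3]
          cases hm1 : m k.s1 c <;> cases hm0 : m k.s0 c <;> simp
      rw [if_pos htest] at hans
      exact absurd hans (by simp)

end Pool.Agent.Helper158.FCD
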