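import Pool.Agent.Helper158.FCD.TraceDefs

set_option autoImplicit false
namespace Pool.Agent.Helper158.FCD

theorem owner_step {t : ℕ} {C C' : ACfg} (h : Step t C C') (w : Path) (m' : Node)
    (hm : C'.S w = some m') :
    (∃ m, C.S w = some m ∧ m.c = m'.c) ∨
      (C.S w = none ∧ m'.c = t ∧ C.p = w ∧ C.up = false) := by
  have upd : ∀ (S : Path → Option Node) (q : Path) (n N : Node), S q = some n → N.c = n.c →
      Function.update S q (some N) w = some m' → ∃ m, S w = some m ∧ m.c = m'.c := by
    intro S q n N hq hN hw
    by_cases hwq : w = q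
    · subst hwq
      rw [Function.update_self] at hw
      simp only [Option.some.injEq] at hw
      subst hw
      exact ⟨n, hq, hN.symm⟩
    · rw [Function.update_of_ne hwq] at hw
      exact ⟨m', hw, rfl⟩
  cases h with
  | emit S d => exact Or.inl ⟨m', hm, rfl⟩
  | upD S q d => exact Or.inl ⟨m', hm, rfl⟩
  | upN S q o d n ho hS hpf => exact Or.inl (upd S q n _ hS (by rfl) hm)
  | upP S q o d n ho hS hpf => exact Or.inl (upd S q n _ hS (by rfl) hm)
  | create S q d hS =>
    by_cases hwq : w = q
    · subst hwq
      right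
      replace hm : Function.update S w (some (fresh t)) w = some m' := hm
      rw [Function.update_self] at hm
      simp only [Option.some.injEq] at hm
      subst hm
      exact ⟨hS, rfl, rfl, rfl⟩
    · left
      replace hm : Function.update S q (some (fresh t)) w = some m' := hm
      rw [Function.update_of_ne hwq] at hm
      exact ⟨m', hm, rfl⟩
  | act S q d n hS hrm hPhi => exact Or.inl (upd S q n _ hS (by rfl) hm)
  | skip S q d n K hS hna hK hans => exact Or.inl (upd S q n _ hS (by rfl) hm)
  | own S q d n K b hS hna hK hans hpf hpM => exact Or.inl (upd S q n _ hS (by rfl) hm)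
  | go S q d n K b hS hna hK hans hno =>
    left
    replace hm : (if Kill (outc n.pf (xor n.pM b)) q w then none
            else Function.update S q (some (na t n b)) w) = some m' := hm
    split_ifs at hm
    exact upd S q n _ hS (by rfl) hm

theorem owner (A : ℕ → ACfg) (v : ℕ → List ℕ) (hT : Trace A v) (c : ℕ) (hc : Forever A c) :
    ∃ u, Owns A u c ∧ Vis A u c ∧ (A c).S u = none := by
  obtain ⟨u, n, hn, hnc⟩ := hc (c + 1) (Nat.lt_succ_self c)
  rcases owner_step (hT.step c) u n hn with ⟨m, hm, hmc⟩ | ⟨h1, h2, h3, h4⟩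
  · exfalso
    have := ((hT.base c).bnd u m hm).1
    omega
  · refine ⟨u, ?_, ⟨h4, h3⟩, h1⟩
    intro t ht
    induction t, ht using Nat.le_induction with
    | base => exact ⟨n, hn, hnc⟩
    | succ t ht ih =>
      obtain ⟨k, hk, hkc⟩ := ih
      obtain ⟨w, n', hn', hnc'⟩ := hc (t + 1) (by omega)
      rcases owner_step (hT.step t) w n' hn' with ⟨m, hm, hmc⟩ | ⟨g1, g2, g3, g4⟩
      · have hwu : w = u := (hT.base t).inj w m u k hm hk (by omega)
        subst hwu
        exact ⟨n', hn', hnc'⟩
      · exfalso; omega

end Pool.Agent.Helper158.FCD
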