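import Pool.Agent.Helper158.FCD.TraceDefs

set_option autoImplicit false
namespace Pool.Agent.Helper158.FCD

theorem stamps_aux1 (t : ℕ) (C C' : ACfg) (h : Step t C C') (w : Path) (n' : Node)
    (hn' : C'.S w = some n') (hw : n'.wait = true) (t₀ : ℕ) (ht : t₀ ≤ t)
    (hs : ∃ n, C.S w = some n)
    (IH : ∀ n, C.S w = some n → n.wait = true → t₀ ≤ n.s1) : t₀ ≤ n'.s1 := by
  obtain ⟨n0, hn0⟩ := hs
  cases h with
  | emit S d => exact IH n' hn' hw
  | upD S q d => exact IH n' hn' hw
  | upN S q o d n ho hS hpf =>
    simp only [Function.update_apply] at hn'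
    split_ifs at hn' with h1
    · subst h1
      simp only [Option.some.injEq] at hn'
      subst hn'
      exact IH n hS hw
    · exact IH n' hn' hw
  | upP S q o d n ho hS hpf =>
    simp only [Function.update_apply] at hn'
    split_ifs at hn' with h1
    · subst h1
      simp only [Option.some.injEq] at hn'
      subst hn'
      exact IH n hS hw
    · exact IH n' hn' hw
  | create S q d hS =>
    simp only [Function.update_apply] at hn'
    split_ifs at hn' with h1
    · subst h1
      simp only at hn0
      rw [hS] at hn0
      exact absurd hn0 (by simp)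
    · exact IH n' hn' hw
  | act S q d n hS hrm hPhi =>
    simp only [Function.update_apply] at hn'
    split_ifs at hn' with h1
    · subst h1
      simp only [Option.some.injEq] at hn'
      subst hn'
      exact IH n hS hw
    · exact IH n' hn' hw
  | skip S q d n K hS hna hK hans =>
    simp only [Function.update_apply] at hn'
    split_ifs at hn' with h1
    · subst h1
      simp only [Option.some.injEq] at hn'
      subst hn'
      show t₀ ≤ if n.wait then n.s1 else t
      split_ifs with h2
      · exact IH n hS h2
      · exact ht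
    · exact IH n' hn' hw
  | own S q d n K b hS hna hK hans hpf hpM =>
    simp only [Function.update_apply] at hn'
    split_ifs at hn' with h1
    · subst h1
      simp only [Option.some.injEq] at hn'
      subst hn'
      exact absurd hw (by simp)
    · exact IH n' hn' hw
  | go S q d n K b hS hna hK hans hno =>
    simp only [Function.update_apply] at hn'
    split_ifs at hn' with h0 h1
    · subst h1
      simp only [Option.some.injEq] at hn'
      subst hn'
      exact absurd hw (by simp [na])
    · exact IH n' hn' hw

theorem stamps_aux2 (t : ℕ) (C C' : ACfg) (h : Step t C C') (w : Path) (o : Fin 4) (ho : o ≠ 3)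
    (hup : C'.up = false) (hp : C'.p = o :: w) (n' : Node)
    (hn' : C'.S w = some n') (t₀ : ℕ) (ht : t₀ ≤ t)
    (IH : ∀ n, C.S w = some n → n.wait = true → t₀ ≤ n.s1) : t₀ ≤ n'.s0 := by
  cases h with
  | emit S d => exact absurd hp (by simp)
  | upD S q d => exact absurd hup (by simp)
  | upN S q o d n ho hS hpf => exact absurd hup (by simp)
  | upP S q o d n ho hS hpf => exact absurd hup (by simp)
  | create S q d hS => exact absurd hup (by simp)
  | act S q d n hS hrm hPhi => exact absurd hup (by simp)
  | skip S q d n K hS hna hK hans =>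
    simp only [List.cons.injEq] at hp
    exact absurd hp.1.symm ho
  | own S q d n K b hS hna hK hans hpf hpM => exact absurd hup (by simp)
  | go S q d n K b hS hna hK hans hno =>
    simp only [List.cons.injEq] at hp
    obtain ⟨_, rfl⟩ := hp
    simp only [Function.update_apply] at hn'
    split_ifs at hn' with h0
    simp only [if_true, Option.some.injEq] at hn'
    subst hn'
    show t₀ ≤ if n.wait then n.s1 else t
    split_ifs with h2
    · exact IH n hS h2
    · exact ht

theorem stamps (A : ℕ → ACfg) (v : ℕ → List ℕ) (hT : Trace A v) (w : Path) (o : Fin 4) (T : ℕ)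
    (ho : o ≠ 3) (hI : InfVis A (o :: w)) (hS : Stay A w T) :
    ∀ N, ∃ T', ∀ t, T' ≤ t → Vis A (o :: w) t → ∀ n, (A t).S w = some n → N ≤ n.s0 := by
  intro N
  obtain ⟨t₀, ht₀, hv⟩ := hI (max T N)
  have hT0 : T ≤ t₀ := le_trans (le_max_left _ _) ht₀
  have hN0 : N ≤ t₀ := le_trans (le_max_right _ _) ht₀
  have hcl : ∀ u, t₀ ≤ u → ∀ n, (A u).S w = some n → n.wait = true → t₀ ≤ n.s1 := by
    intro u hu
    induction u, hu using Nat.le_induction with
    | base =>
      intro n hn hw
      obtain ⟨n1, hn1, hc⟩ := (hT.base t₀).path o w (by rw [hv.2])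
      rw [hn1] at hn
      simp only [Option.some.injEq] at hn
      subst hn
      rcases hc with h | h | h | h
      · exact absurd hw (by rw [h.2.2.2]; simp)
      · exact absurd hw (by rw [h.2.2.2]; simp)
      · exact absurd hw (by rw [h.2.2.2]; simp)
      · exact absurd h.1 ho
    | succ u hu ih =>
      intro n hn hw
      exact stamps_aux1 u _ _ (hT.step u) w n hn hw t₀ hu (hS u (le_trans hT0 hu)) ih
  refine ⟨t₀ + 2, fun t ht hvis n hn => ?_⟩
  obtain ⟨u, rfl⟩ : ∃ u, t = u + 1 := ⟨t - 1, by omega⟩
  have hu : t₀ ≤ u := by omega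
  exact le_trans hN0 (stamps_aux2 u _ _ (hT.step u) w o ho hvis.1 hvis.2 n hn t₀ hu (hcl u hu))

end Pool.Agent.Helper158.FCD
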