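import Pool.Agent.Helper158.FCD.Small

set_option autoImplicit false
namespace Pool.Agent.Helper158.FCD

/-- value of a node in `sumN` -/
def sv (S : Path → Option Node) (q : Path) (c : ℕ) : Bool :=
  match S q with
  | some n => !n.pf && par n.dl c
  | none => false

lemma sv_some {S : Path → Option Node} {q : Path} {n : Node} (h : S q = some n) (c : ℕ) :
    sv S q c = (!n.pf && par n.dl c) := by
  unfold sv; rw [h]

lemma sv_none {S : Path → Option Node} {q : Path} (h : S q = none) (c : ℕ) :
    sv S q c = false := by
  unfold sv; rw [h]

lemma sumN_cons (S : Path → Option Node) (o : Fin 4) (q : Path) (c : ℕ) :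
    sumN S (o :: q) c = xor (sumN S q c) (if o = 0 then sv S q c else false) := rfl

lemma sumN_upd (S S' : Path → Option Node) (q : Path) (c : ℕ) : ∀ s : Path,
    (∀ q', q' ≠ q → (0 :: q') <:+ s → sv S' q' c = sv S q' c) →
    sumN S' s c = xor (sumN S s c) (if (0 :: q) <:+ s then xor (sv S' q c) (sv S q c) else false) := by
  intro s
  induction s with
  | nil =>
    intro _
    have : ¬ ((0 :: q) <:+ ([] : Path)) := by
      intro h; have := h.length_le; simp at this
    simp [sumN, this]
  | cons o s ih =>
    intro hq
    have ih' := ih (fun q' h1 h2 => hq q' h1 (h2.trans (List.suffix_cons o s)))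
    rw [sumN_cons, sumN_cons, ih']
    by_cases hqs : s = q
    · subst hqs
      have h1 : ¬ ((0 :: s) <:+ s) := not_cons_suffix
      by_cases ho : o = 0
      · subst ho
        have h2 : (0 :: s) <:+ (0 :: s) := List.suffix_refl _
        simp only [if_neg h1, if_pos h2]
        generalize sv S s c = a
        generalize sv S' s c = b
        generalize sumN S s c = d
        revert a b d; decide
      · have h2 : ¬ ((0 :: s) <:+ (o :: s)) := by
          intro h
          have := h.eq_of_length (by simp)
          simp only [List.cons.injEq, and_true] at this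
          exact ho this.symm
        simp only [if_neg h1, if_neg h2, if_neg ho]
    · have hiff : (0 :: q) <:+ (o :: s) ↔ (0 :: q) <:+ s := by
        constructor
        · intro h
          rcases suffix_cons_cases h with h | h
          · simp only [List.cons.injEq] at h
            exact absurd h.2.symm hqs
          · exact h
        · intro h; exact h.trans (List.suffix_cons o s)
      by_cases ho : o = 0
      · subst ho
        have h3 := hq s hqs (List.suffix_refl _)
        simp only [hiff, h3, if_true]
        generalize sv S s c = a
        generalize (if (0 :: q) <:+ s then xor (sv S' q c) (sv S q c) else false) = b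
        generalize sumN S s c = d
        revert a b d; decide
      · simp only [hiff, if_neg ho, Bool.xor_false]

lemma sumN_same (S S' : Path → Option Node) (c : ℕ) (s : Path)
    (h : ∀ q', (0 :: q') <:+ s → sv S' q' c = sv S q' c) : sumN S' s c = sumN S s c := by
  rw [sumN_upd S S' s c s (fun q' _ h2 => h q' h2), if_neg not_cons_suffix, Bool.xor_false]

lemma ansf_key {j t s0 s1 : ℕ} {r K : List ℕ} {b : Bool} (m : ℕ → ℕ → Bool)
    (hm : ∀ u x y c, ev j u x y = some c → c = (m x y).toNat)
    (h : ansf j t s0 s1 r K = some b) {c : ℕ} (hc : c ∈ K) (hlt : c < s0) :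
    m s1 c = xor (m s0 c) (b && par r c) := by
  unfold ansf at h
  have hbv : ∀ x, (ev j t x c).isSome = true → bv j t x c = m x c := by
    intro x hx
    obtain ⟨v, hv⟩ := Option.isSome_iff_exists.1 hx
    have h1 := hm t x c v hv
    unfold bv
    rw [hv, h1]
    cases m x c <;> simp
  have hn : ¬ (s0 ≤ c) := by omega
  split_ifs at h with h1 h2 h3
  · have e1 := List.all_eq_true.1 h1 c hc
    have e2 := List.all_eq_true.1 h2 c hc
    simp only [hn, decide_false, Bool.false_or, Bool.and_eq_true] at e1 e2
    rw [hbv _ e1.1, hbv _ e1.2] at e2
    simp only [Option.some.injEq] at h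
    subst h
    simpa using e2
  · have e1 := List.all_eq_true.1 h1 c hc
    have e2 := List.all_eq_true.1 h3 c hc
    simp only [hn, decide_false, Bool.false_or, Bool.and_eq_true] at e1 e2
    rw [hbv _ e1.1, hbv _ e1.2] at e2
    simp only [Option.some.injEq] at h
    subst h
    simpa using e2

def TT (C : ACfg) (s : Path) (n : Node) (c : ℕ) : Bool :=
  if n.wait = false ∧ ((0 :: s) <:+ C.p ∨ (1 :: s) <:+ C.p ∨ (2 :: s) <:+ C.p) then false
      else xor (C.up && par C.d c) (par n.r c)

lemma Yv0 (m : ℕ → ℕ → Bool) (f : ℕ → Bool) (C : ACfg) (s : Path) (n : Node) (c : ℕ) :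
    Yv m f C s n 0 c = xor (m n.s0 c) (n.pM && par n.dl c) := rfl

lemma Yv1 (m : ℕ → ℕ → Bool) (f : ℕ → Bool) (C : ACfg) (s : Path) (n : Node) (c : ℕ) :
    Yv m f C s n 1 c = xor (m n.s0 c) (xor (f c) (xor (sumN C.S s c) (TT C s n c))) := by
  unfold Yv TT
  rw [if_neg (by decide), if_neg (by decide)]

lemma Yv2 (m : ℕ → ℕ → Bool) (f : ℕ → Bool) (C : ACfg) (s : Path) (n : Node) (c : ℕ) :
    Yv m f C s n 2 c = m n.s0 c := by
  unfold Yv
  rw [if_neg (by decide), if_pos rfl]

/-- the cone condition -/
def Cone (s p : Path) : Prop := (0 :: s) <:+ p ∨ (1 :: s) <:+ p ∨ (2 :: s) <:+ p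

lemma cone_cons {s p : Path} {o : Fin 4} (h : s ≠ p ∨ o = 3) :
    ((0 :: s) <:+ (o :: p) ∨ (1 :: s) <:+ (o :: p) ∨ (2 :: s) <:+ (o :: p)) ↔
    ((0 :: s) <:+ p ∨ (1 :: s) <:+ p ∨ (2 :: s) <:+ p) := by
  have key : ∀ j : Fin 4, j ≠ 3 → ((j :: s) <:+ (o :: p) ↔ (j :: s) <:+ p) := by
    intro j hj
    constructor
    · intro h'
      rcases suffix_cons_cases h' with h' | h'
      · simp only [List.cons.injEq] at h'
        rcases h with h | h
        · exact absurd h'.2 h
        · exact absurd (h'.1.trans h) hj
      · exact h'
    · intro h'; exact h'.trans (List.suffix_cons o p)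
  rw [key 0 (by decide), key 1 (by decide), key 2 (by decide)]

lemma cone_self {s : Path} : ¬ ((0 :: s) <:+ s ∨ (1 :: s) <:+ s ∨ (2 :: s) <:+ s) := by
  rintro (h | h | h) <;> exact not_cons_suffix h

lemma cone_top {s : Path} {o : Fin 4} (ho : o ≠ 3) :
    ((0 :: s) <:+ (o :: s) ∨ (1 :: s) <:+ (o :: s) ∨ (2 :: s) <:+ (o :: s)) := by
  have : o = 0 ∨ o = 1 ∨ o = 2 := by revert ho; revert o; decide
  rcases this with h | h | h
  · left; rw [h]
  · right; left; rw [h]
  · right; right; rw [h]

/-- if `q` sees `w` through `0` and `s ≠ q` through `1` then `s` is above `q` or below `0 :: q`. -/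
lemma two_cones {q s w : Path} (h0 : (0 :: q) <:+ w) (h1 : (1 :: s) <:+ w) (_ : s ≠ q)
    (hn : ¬ ((0 :: q) <:+ s)) : (1 :: s) <:+ q := by
  have hs : s <:+ w := suffix_cons' h1
  rcases suffix_cmp h0 hs with h | h
  · exact absurd h hn
  · rcases suffix_cons_cases h with h | h
    · exact absurd (h ▸ List.suffix_refl _) hn
    · rcases suffix_cmp h0 h1 with h2 | h2
      · rcases suffix_cons_cases h2 with h3 | h3
        · simp at h3
        · exact absurd h3 hn
      · rcases suffix_cons_cases h2 with h3 | h3
        · simp at h3
        · exact h3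

lemma upd_c_yv {S : Path → Option Node} {q w : Path} {nq x k k' : Node} (hSq : S q = some nq)
    (hx : x.c = nq.c) (hk : S w = some k) (hk' : Function.update S q (some x) w = some k') :
    k'.c = k.c := by
  by_cases h : w = q
  · subst h
    rw [Function.update_self] at hk'
    simp only [Option.some.injEq] at hk'
    rw [hSq] at hk
    simp only [Option.some.injEq] at hk
    rw [← hk', ← hk, hx]
  · rw [Function.update_of_ne h, hk] at hk'
    simp only [Option.some.injEq] at hk'
    rw [hk']

lemma upd_ne {S : Path → Option Node} {q s : Path} {x n n' : Node} (h : s ≠ q)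
    (hn : S s = some n) (hn' : Function.update S q (some x) s = some n') : n' = n := by
  rw [Function.update_of_ne h, hn] at hn'
  simp only [Option.some.injEq] at hn'
  exact hn'.symm

lemma upd_self' {S : Path → Option Node} {q : Path} {x n' : Node}
    (hn' : Function.update S q (some x) q = some n') : n' = x := by
  rw [Function.update_self] at hn'
  simp only [Option.some.injEq] at hn'
  exact hn'.symm

lemma sumN_update (S : Path → Option Node) (q : Path) (x : Node) (s : Path) (c : ℕ) :
    sumN (Function.update S q (some x)) s c =
      xor (sumN S s c) (if (0 :: q) <:+ s then xor (!x.pf && par x.dl c) (sv S q c) else false) := by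
  rw [sumN_upd S (Function.update S q (some x)) q c s]
  · rw [sv_some (n := x) (by rw [Function.update_self])]
  · intro q' h1 _
    unfold sv
    rw [Function.update_of_ne h1]

lemma some_eq {S : Path → Option Node} {q : Path} {a b : Node} (h : S q = some a)
    (h' : S q = some b) : a = b := by
  rw [h] at h'
  simpa using h'

lemma TT_false {C : ACfg} {s : Path} {n : Node} {c : ℕ} (h1 : n.wait = false)
    (h2 : (0 :: s) <:+ C.p ∨ (1 :: s) <:+ C.p ∨ (2 :: s) <:+ C.p) : TT C s n c = false := by
  unfold TT
  rw [if_pos ⟨h1, h2⟩]

lemma TT_of_not {C : ACfg} {s : Path} {n : Node} {c : ℕ}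
    (h2 : ¬ ((0 :: s) <:+ C.p ∨ (1 :: s) <:+ C.p ∨ (2 :: s) <:+ C.p)) :
    TT C s n c = xor (C.up && par C.d c) (par n.r c) := by
  unfold TT
  rw [if_neg (fun h => h2 h.2)]

lemma not_cone_of_long {s p : Path} (h : p.length ≤ s.length) :
    ¬ ((0 :: s) <:+ p ∨ (1 :: s) <:+ p ∨ (2 :: s) <:+ p) := by
  rintro (h' | h' | h') <;> (have := h'.length_le; simp at this; omega)

/-- The conserved quantities are conserved. -/
theorem yv_step (t : ℕ) (C C' : ACfg) (f : ℕ → Bool) (m : ℕ → ℕ → Bool) (s : Path)
    (o : Fin 4) (n n' k k' : Node) (w : Path) (hB : Base t C) (hS : Supp C) (hR : RInv C)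
    (hF : FInv t C f) (h : Step t C C')
    (hm : ∀ u x y c, ev s.length u x y = some c → c = (m x y).toNat)
    (hn : C.S s = some n) (hn' : C'.S s = some n') (ho : o ≠ 3) (hw : (o :: s) <:+ w)
    (hk : C.S w = some k) (hk' : C'.S w = some k') (hc : k.c < n.s0) :
    k'.c = k.c ∧ k.c < n'.s0 ∧
    Yv m (fun c => xor (f c) (par (emis C) c)) C' s n' o k.c = Yv m f C s n o k.c := by
  have ho' : o = 0 ∨ o = 1 ∨ o = 2 := by
    have : ∀ o : Fin 4, o ≠ 3 → (o = 0 ∨ o = 1 ∨ o = 2) := by decide
    exact this o ho
  have hrel : Rel s w := by
    rcases ho' with h | h | h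
    · left; rw [← h]; exact hw
    · right; left; rw [← h]; exact hw
    · right; right; rw [← h]; exact hw
  have hws : w ≠ s := rel_ne hrel
  have hbn := hB.bnd s n hn
  cases h with
  | emit S d =>
    simp only at hn hn' hk hk'
    rw [hn] at hn'; rw [hk] at hk'
    simp only [Option.some.injEq] at hn' hk'
    subst hn'; subst hk'
    refine ⟨rfl, hc, ?_⟩
    rcases ho' with rfl | rfl | rfl
    · rw [Yv0, Yv0]
    · rw [Yv1, Yv1]
      have e : ¬ ((0 :: s) <:+ ([] : Path) ∨ (1 :: s) <:+ ([] : Path) ∨ (2 :: s) <:+ ([] : Path)) := by
        rintro (h | h | h) <;> (have := h.length_le; simp at this)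
      unfold TT
      simp only [e, and_false, if_false, emis, and_self, if_true, Bool.true_and, Bool.false_and,
        Bool.false_xor]
      generalize m n.s0 k.c = a
      generalize f k.c = b
      generalize par d k.c = c
      generalize sumN S s k.c = e
      generalize par n.r k.c = g
      revert a b c e g; decide
    · rw [Yv2, Yv2]
  | upD S q d =>
    simp only at hn hn' hk hk'
    rw [hn] at hn'; rw [hk] at hk'
    simp only [Option.some.injEq] at hn' hk'
    subst hn'; subst hk'
    refine ⟨rfl, hc, ?_⟩
    rcases ho' with rfl | rfl | rfl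
    · rw [Yv0, Yv0]
    · rw [Yv1, Yv1]
      unfold TT
      simp only [cone_cons (s := s) (p := q) (o := 3) (Or.inr rfl)]
      simp [emis]
    · rw [Yv2, Yv2]
  | upN S q o1 d nq ho1 hSq hpf =>
    simp only at hn hn' hk hk'
    have hkc : k'.c = k.c := upd_c_yv hSq (by rfl) hk hk'
    have hemis : emis ⟨S, o1 :: q, true, d⟩ = [] := by simp [emis]
    obtain ⟨n2, hn2, hcase⟩ := hB.path o1 q (List.suffix_refl _)
    have : nq = n2 := some_eq hSq hn2
    subst this
    by_cases hsq : s = q
    · subst hsq
      have := some_eq hn hSq
      subst this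
      have := upd_self' hn'
      subst this
      refine ⟨hkc, hc, ?_⟩
      have hpM : n.pM = false ∧ n.wait = false := by
        rcases hcase with h | h | h | h
        · exact ⟨h.2.2.1, h.2.2.2⟩
        · rw [hpf] at h; simp at h
        · rw [hpf] at h; simp at h
        · exact absurd h.1 ho1
      rcases ho' with rfl | rfl | rfl
      · rw [Yv0, Yv0]
        simp [hpM.1]
      · rw [Yv1, Yv1]
        rw [TT_false (C := ⟨S, o1 :: s, true, d⟩) hpM.2 (cone_top ho1), TT_of_not (by exact cone_self)]
        simp only [hemis, par_nil, Bool.xor_false, sumN_update, if_neg not_cons_suffix]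
        simp
      · rw [Yv2, Yv2]
    · have := upd_ne hsq hn hn'
      subst this
      refine ⟨hkc, hc, ?_⟩
      rcases ho' with rfl | rfl | rfl
      · rw [Yv0, Yv0]
      · rw [Yv1, Yv1]
        unfold TT
        simp only [cone_cons (s := s) (p := q) (o := o1) (Or.inl hsq)]
        simp [hemis, sumN_update, sv_some hSq, hpf]
      · rw [Yv2, Yv2]
  | upP S q o1 d nq ho1 hSq hpf =>
    simp only at hn hn' hk hk'
    have hkc : k'.c = k.c := upd_c_yv hSq (by rfl) hk hk'
    have hemis : emis ⟨S, o1 :: q, true, d⟩ = [] := by simp [emis]
    obtain ⟨n2, hn2, hcase⟩ := hB.path o1 q (List.suffix_refl _)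
    have : nq = n2 := some_eq hSq hn2
    subst this
    have ho10 : o1 ≠ 0 ∧ nq.wait = false := by
      rcases hcase with h | h | h | h
      · rw [hpf] at h; simp at h
      · exact ⟨by rw [h.1]; decide, h.2.2.2⟩
      · exact ⟨by rw [h.1]; decide, h.2.2.2⟩
      · exact absurd h.1 ho1
    by_cases hsq : s = q
    · subst hsq
      have := some_eq hn hSq
      subst this
      have := upd_self' hn'
      subst this
      refine ⟨hkc, hc, ?_⟩
      rcases ho' with rfl | rfl | rfl
      · rw [Yv0, Yv0]
      · rw [Yv1, Yv1]
        rw [TT_false (C := ⟨S, o1 :: s, true, d⟩) ho10.2 (cone_top ho1), TT_of_not (by exact cone_self)]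
        simp only [hemis, par_nil, Bool.xor_false, sumN_update, if_neg not_cons_suffix]
        simp
      · rw [Yv2, Yv2]
    · have := upd_ne hsq hn hn'
      subst this
      refine ⟨hkc, hc, ?_⟩
      rcases ho' with rfl | rfl | rfl
      · rw [Yv0, Yv0]
      · rw [Yv1, Yv1]
        have hsv : sv S q k.c = par nq.dl k.c := by rw [sv_some hSq, hpf]; simp
        by_cases h0 : (0 :: q) <:+ s
        · have hlen : (o1 :: q).length ≤ s.length := by
            have := h0.length_le; simpa using this
          have hlen2 : q.length ≤ s.length := by simp at hlen; omega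
          rw [TT_of_not (C := ⟨S, o1 :: q, true, d⟩) (not_cone_of_long hlen),
            TT_of_not (by exact not_cone_of_long hlen2)]
          simp only [hemis, par_nil, Bool.xor_false, sumN_update, if_pos h0, hsv, par_append]
          generalize m n'.s0 k.c = a
          generalize f k.c = b
          generalize par d k.c = c
          generalize sumN S s k.c = e
          generalize par n'.r k.c = g
          generalize par nq.dl k.c = i
          revert a b c e g i; decide
        · simp only [hemis, par_nil, Bool.xor_false, sumN_update, if_neg h0]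
          by_cases h0w : (0 :: q) <:+ w
          · have h1q := two_cones h0w hw hsq h0
            obtain ⟨n3, hn3, hc3⟩ := hB.path 1 s (h1q.trans (List.suffix_cons o1 q))
            have := some_eq hn hn3
            subst this
            have hwait : n'.wait = false := by
              rcases hc3 with h | h | h | h
              · exact h.2.2.2
              · exact h.2.2.2
              · exact h.2.2.2
              · exact absurd h.1 (by decide)
            rw [TT_false (C := ⟨S, o1 :: q, true, d⟩) hwait
              (Or.inr (Or.inl (h1q.trans (List.suffix_cons o1 q)))),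
              TT_false hwait (Or.inr (Or.inl h1q))]
          · have hz : par nq.dl k.c = false := hS.j2 q nq hSq w k hk h0w
            unfold TT
            simp only [cone_cons (s := s) (p := q) (o := o1) (Or.inl hsq)]
            simp [hz]
      · rw [Yv2, Yv2]
  | create S q d hSq =>
    simp only at hn hn' hk hk'
    have hsq : s ≠ q := by rintro rfl; rw [hSq] at hn; exact absurd hn (by simp)
    have hwq : w ≠ q := by rintro rfl; rw [hSq] at hk; exact absurd hk (by simp)
    have := upd_ne hsq hn hn'
    subst this
    have := upd_ne hwq hk hk'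
    subst this
    refine ⟨rfl, hc, ?_⟩
    have hemis : emis ⟨S, q, false, d⟩ = [] := by simp [emis]
    rcases ho' with rfl | rfl | rfl
    · rw [Yv0, Yv0]
    · rw [Yv1, Yv1]
      unfold TT
      simp [hemis, sumN_update, sv_none hSq, fresh]
    · rw [Yv2, Yv2]
  | act S q d nq hSq hrm hPhi =>
    simp only at hn hn' hk hk'
    have hkc : k'.c = k.c := upd_c_yv hSq (by rfl) hk hk'
    have hemis : emis ⟨S, q, false, d⟩ = [] := by simp [emis]
    by_cases hsq : s = q
    · subst hsq
      have := some_eq hn hSq
      subst this
      have := upd_self' hn'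
      subst this
      refine ⟨hkc, hc, ?_⟩
      rcases ho' with rfl | rfl | rfl
      · rw [Yv0, Yv0]
      · rw [Yv1, Yv1]
        have hne : n.c ≠ k.c := fun h => hws (hB.inj s n w k hn hk h).symm
        rw [TT_of_not (C := ⟨S, s, false, d⟩) (by exact cone_self), TT_of_not (by exact cone_self)]
        simp [hemis, sumN_update, if_neg not_cons_suffix, hne]
      · rw [Yv2, Yv2]
    · have := upd_ne hsq hn hn'
      subst this
      refine ⟨hkc, hc, ?_⟩
      rcases ho' with rfl | rfl | rfl
      · rw [Yv0, Yv0]
      · rw [Yv1, Yv1]
        have hsum : sumN (Function.update S q (some ⟨nq.c, 1, nq.wait, nq.dl, nq.pf, nq.pM, nq.s0,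
          nq.s1, nq.r⟩)) s k.c = sumN S s k.c := by
          rw [sumN_update, sv_some hSq]; simp
        simp only [hemis, par_nil, Bool.xor_false, hsum]
        by_cases hwq : w = q
        · obtain ⟨n3, hn3, hc3⟩ := hB.path 1 s (hwq ▸ hw)
          have := some_eq hn hn3
          subst this
          have hwait : n'.wait = false := by
            rcases hc3 with h | h | h | h
            · exact h.2.2.2
            · exact h.2.2.2
            · exact h.2.2.2
            · exact absurd h.1 (by decide)
          rw [TT_false (C := ⟨S, q, false, d⟩) hwait (Or.inr (Or.inl (hwq ▸ hw))),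
            TT_false hwait (Or.inr (Or.inl (hwq ▸ hw)))]
        · have hne : nq.c ≠ k.c := fun h => hwq (hB.inj q nq w k hSq hk h).symm
          unfold TT
          simp [hne]
      · rw [Yv2, Yv2]
  | skip S q d nq K hSq hna hK hans =>
    simp only at hn hn' hk hk'
    have hkc : k'.c = k.c := upd_c_yv hSq (by rfl) hk hk'
    have hemis : emis ⟨S, q, false, d⟩ = [] := by simp [emis]
    have hsum : sumN (Function.update S q (some (nw t nq))) s k.c = sumN S s k.c := by
      rw [sumN_update, sv_some hSq]; simp [nw]
    by_cases hsq : s = q
    · subst hsq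
      have := some_eq hn hSq
      subst this
      have := upd_self' hn'
      subst this
      refine ⟨hkc, hc, ?_⟩
      rcases ho' with rfl | rfl | rfl
      · rw [Yv0, Yv0]; rfl
      · rw [Yv1, Yv1]
        rw [TT_of_not (C := ⟨S, s, false, d⟩) (by exact cone_self)]
        simp only [hemis, par_nil, Bool.xor_false, hsum]
        unfold TT
        simp [nw]
      · rw [Yv2, Yv2]; rfl
    · have := upd_ne hsq hn hn'
      subst this
      refine ⟨hkc, hc, ?_⟩
      rcases ho' with rfl | rfl | rfl
      · rw [Yv0, Yv0]
      · rw [Yv1, Yv1]
        unfold TT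
        simp only [cone_cons (s := s) (p := q) (o := 3) (Or.inr rfl)]
        simp [hemis, hsum]
      · rw [Yv2, Yv2]
  | own S q d nq K b hSq hna hK hans hpf hpM =>
    simp only at hn hn' hk hk'
    have hkc : k'.c = k.c := upd_c_yv hSq (by rfl) hk hk'
    have hemis : emis ⟨S, q, false, d⟩ = [] := by simp [emis]
    by_cases hsq : s = q
    · subst hsq
      have := some_eq hn hSq
      subst this
      have := upd_self' hn'
      subst this
      have hkK : k.c ∈ K := (hK k.c).2 ⟨w, k, hrel, hk, rfl⟩
      have hkey := ansf_key m hm hans hkK hc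
      have hs01 : n.s0 ≤ (if n.wait then n.s1 else t) := by
        split_ifs
        · exact hbn.2.2.2.1
        · exact hbn.2.2.2.1.trans hbn.2.2.2.2
      have hRI := hR s n hn w k hk
      refine ⟨hkc, lt_of_lt_of_le hc hs01, ?_⟩
      rcases ho' with rfl | rfl | rfl
      · rw [Yv0, Yv0]
        have h1 := hRI.1 hw
        show xor (m (if n.wait then n.s1 else t) k.c) (xor n.pM b && par n.dl k.c) = _
        rw [hkey, h1]
        have key : ∀ a b e g : Bool, (xor (xor a (b && e)) (xor g b && e)) = xor a (g && e) := by
          decide
        exact key _ _ _ _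
      · rw [Yv1, Yv1]
        have h1 := hRI.2.1 hw
        rw [TT_of_not (C := ⟨S, s, false, d⟩) (by exact cone_self), TT_of_not (by exact cone_self)]
        simp only [hemis, par_nil, Bool.xor_false, sumN_update, if_neg not_cons_suffix]
        show xor (m (if n.wait then n.s1 else t) k.c) _ = _
        rw [hkey]
        have h6 : (b && par n.r k.c) = par n.r k.c := by
          cases hr : par n.r k.c with
          | false => simp
          | true =>
            have h7 := (h1 hr).2
            rw [h7] at hpM
            simpa using hpM
        rw [h6]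
        simp only [Bool.true_and, Bool.false_and, Bool.xor_self, Bool.xor_false, Bool.false_xor]
        have key : ∀ a b c d : Bool, xor (xor a b) (xor c d) = xor a (xor c (xor d b)) := by
          decide
        exact key _ _ _ _
      · rw [Yv2, Yv2]
        have h1 := hRI.2.2 hw
        show m (if n.wait then n.s1 else t) k.c = _
        rw [hkey]
        have h6 : (b && par n.r k.c) = false := by
          cases hr : par n.r k.c with
          | false => simp
          | true =>
            have h7 := (h1 hr).2
            rw [h7] at hpM
            simpa using hpM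
        rw [h6, Bool.xor_false]
    · have := upd_ne hsq hn hn'
      subst this
      refine ⟨hkc, hc, ?_⟩
      rcases ho' with rfl | rfl | rfl
      · rw [Yv0, Yv0]
      · rw [Yv1, Yv1]
        have hsv : sv S q k.c = false := by rw [sv_some hSq, hpf]; simp
        by_cases h0 : (0 :: q) <:+ s
        · have hlen2 : q.length ≤ s.length := by
            have := h0.length_le; simp at this; omega
          rw [TT_of_not (C := ⟨S, q, false, d⟩) (not_cone_of_long hlen2),
            TT_of_not (by exact not_cone_of_long hlen2)]
          simp only [hemis, par_nil, Bool.xor_false, sumN_update, if_pos h0, hsv]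
          simp only [Bool.not_false, Bool.true_and, Bool.false_and]
          generalize m n'.s0 k.c = a
          generalize f k.c = b
          generalize sumN S s k.c = e
          generalize par n'.r k.c = g
          generalize par nq.dl k.c = i
          revert a b e g i; decide
        · simp only [hemis, par_nil, Bool.xor_false, sumN_update, if_neg h0]
          by_cases h0w : (0 :: q) <:+ w
          · have h1q := two_cones h0w hw hsq h0
            obtain ⟨n3, hn3, hc3⟩ := hB.path 1 s h1q
            have := some_eq hn hn3
            subst this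
            have hwait : n'.wait = false := by
              rcases hc3 with h | h | h | h
              · exact h.2.2.2
              · exact h.2.2.2
              · exact h.2.2.2
              · exact absurd h.1 (by decide)
            rw [TT_false (C := ⟨S, q, false, d⟩) hwait (Or.inr (Or.inl h1q)),
              TT_false hwait (Or.inr (Or.inl h1q))]
          · have hz : par nq.dl k.c = false := hS.j2 q nq hSq w k hk h0w
            unfold TT
            simp [hz]
      · rw [Yv2, Yv2]
  | go S q d nq K b hSq hna hK hans hno =>
    simp only at hn hn' hk hk'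
    have hemis : emis ⟨S, q, false, d⟩ = [] := by simp [emis]
    have hnk : ¬ Kill (outc nq.pf (xor nq.pM b)) q w := by
      intro h; rw [if_pos h] at hk'; exact absurd hk' (by simp)
    have hnk2 : ¬ Kill (outc nq.pf (xor nq.pM b)) q s := by
      intro h; rw [if_pos h] at hn'; exact absurd hn' (by simp)
    rw [if_neg hnk] at hk'
    rw [if_neg hnk2] at hn'
    have hkc : k'.c = k.c := upd_c_yv hSq (by rfl) hk hk'
    have hsum : sumN (fun w => if Kill (outc nq.pf (xor nq.pM b)) q w then none
            else Function.update S q (some (na t nq b)) w) s k.c = sumN S s k.c := by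
      apply sumN_same
      intro q' hq'
      have hnk3 : ¬ Kill (outc nq.pf (xor nq.pM b)) q q' := by
        intro h
        apply hnk2
        have hs' : q' <:+ s := suffix_cons' hq'
        rcases h with h | h | h
        · exact Or.inl ⟨h.1, h.2.trans hs'⟩
        · exact Or.inr (Or.inl ⟨h.1, h.2.trans hs'⟩)
        · exact Or.inr (Or.inr ⟨h.1, h.2.trans hs'⟩)
      by_cases hqq : q' = q
      · subst hqq
        rw [sv_some hSq, sv_some (n := na t nq b) (by rw [if_neg hnk3, Function.update_self])]
        rfl
      · unfold sv
        simp only [if_neg hnk3, Function.update_of_ne hqq]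
    by_cases hsq : s = q
    · subst hsq
      have := some_eq hn hSq
      subst this
      have := upd_self' hn'
      subst this
      have hkK : k.c ∈ K := (hK k.c).2 ⟨w, k, hrel, hk, rfl⟩
      have hkey := ansf_key m hm hans hkK hc
      have hs01 : n.s0 ≤ (if n.wait then n.s1 else t) := by
        split_ifs
        · exact hbn.2.2.2.1
        · exact hbn.2.2.2.1.trans hbn.2.2.2.2
      have hRI := hR s n hn w k hk
      refine ⟨hkc, lt_of_lt_of_le hc hs01, ?_⟩
      rcases ho' with rfl | rfl | rfl
      · rw [Yv0, Yv0]
        have h1 := hRI.1 hw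
        show xor (m (if n.wait then n.s1 else t) k.c) (xor n.pM b && par n.dl k.c) = _
        rw [hkey, h1]
        have key : ∀ a b e g : Bool, (xor (xor a (b && e)) (xor g b && e)) = xor a (g && e) := by
          decide
        exact key _ _ _ _
      · rw [Yv1, Yv1]
        have h1 := hRI.2.1 hw
        have h2 : ¬ (outc n.pf (xor n.pM b) = 0) := by
          intro h; apply hnk; rw [h]
          exact Or.inl ⟨by decide, hw⟩
        have h3 : outc n.pf (xor n.pM b) ≠ 3 := by
          unfold outc; split_ifs <;> decide
        have h4 : n.pf = false := by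
          by_contra h
          apply h2
          simp only [Bool.not_eq_false] at h
          unfold outc; rw [if_pos h]
        rw [TT_of_not (C := ⟨S, s, false, d⟩) (by exact cone_self), TT_false rfl (cone_top h3)]
        have h5 : par n.r k.c = false := by
          by_contra h
          simp only [Bool.not_eq_false] at h
          have := (h1 h).1
          rw [h4] at this
          exact absurd this (by simp)
        simp only [hemis, par_nil, Bool.xor_false, hsum]
        show xor (m (if n.wait then n.s1 else t) k.c) _ = _
        rw [hkey, h5]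
        simp
      · rw [Yv2, Yv2]
        have h1 := hRI.2.2 hw
        have h2 : ¬ (outc n.pf (xor n.pM b) = 0) := by
          intro h; apply hnk; rw [h]
          exact Or.inr (Or.inl ⟨by decide, hw⟩)
        have h4 : n.pf = false := by
          by_contra h
          apply h2
          simp only [Bool.not_eq_false] at h
          unfold outc; rw [if_pos h]
        have h5 : par n.r k.c = false := by
          by_contra h
          simp only [Bool.not_eq_false] at h
          have := (h1 h).1
          rw [h4] at this
          exact absurd this (by simp)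
        show m (if n.wait then n.s1 else t) k.c = _
        rw [hkey, h5]
        simp
    · have := upd_ne hsq hn hn'
      subst this
      refine ⟨hkc, hc, ?_⟩
      rcases ho' with rfl | rfl | rfl
      · rw [Yv0, Yv0]
      · rw [Yv1, Yv1]
        unfold TT
        simp only [cone_cons (s := s) (p := q) (o := outc nq.pf (xor nq.pM b)) (Or.inl hsq)]
        simp only [hemis, hsum, par_nil, Bool.xor_false, Bool.false_and]
      · rw [Yv2, Yv2]

end Pool.Agent.Helper158.FCD
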