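import Pool.Agent.Helper158.FCD.TraceDefs

set_option autoImplicit false
namespace Pool.Agent.Helper158.FCD

theorem yv_sumN_zero (S : Path → Option Node) (c : ℕ) (w : Path)
    (h : ∀ q n, (0 :: q) <:+ w → S q = some n → n.pf = true) : sumN S w c = false := by
  induction w with
  | nil => rfl
  | cons o q ih =>
    have h1 : sumN S q c = false := ih fun q' n hq hn =>
      h q' n (hq.trans (List.suffix_cons o q)) hn
    show xor (sumN S q c) (if o = 0 then (match S q with
        | some n => !n.pf && par n.dl c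
        | none => false) else false) = false
    rw [h1]
    by_cases ho : o = 0
    · rw [if_pos ho]
      rcases hS : S q with _ | n
      · rfl
      · have h2 : n.pf = true := h q n (by rw [ho]) hS
        simp [h2]
    · rw [if_neg ho]
      rfl

theorem yv_val (A : ℕ → ACfg) (v : ℕ → List ℕ) (hT : Trace A v) (m : ℕ → ℕ → Bool)
    (w : Path) (o : Fin 4) (t : ℕ) (n : Node) (f : ℕ → Bool) (c : ℕ) (ho : o ≠ 3)
    (hV : Vis A (o :: w) t) (hn : (A t).S w = some n) :
    Yv m f (A t) w n o c = xor (m n.s0 c) (decide (o = 1) && f c) := by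
  obtain ⟨hup, hp⟩ := hV
  obtain ⟨k, hk, hd⟩ := (hT.base t).path o w (by rw [hp])
  have hkn : k = n := by
    rw [hn] at hk
    exact (Option.some.inj hk).symm
  rw [hkn] at hd
  rcases hd with ⟨h0, h1, h2, h3⟩ | ⟨h0, h1, h2, h3⟩ | ⟨h0, h1, h2, h3⟩ | ⟨h0, h3⟩
  · unfold Yv
    rw [if_pos h0, h2, h0]
    simp
  · unfold Yv
    have hs : sumN (A t).S w c = false := by
      apply yv_sumN_zero
      intro q n' hq hn'
      have hq' : (0 :: q) <:+ (A t).p := by
        rw [hp]
        exact hq.trans (List.suffix_cons o w)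
      obtain ⟨k', hk', hd'⟩ := (hT.base t).path 0 q hq'
      have hkn' : k' = n' := by
        rw [hn'] at hk'
        exact (Option.some.inj hk').symm
      rw [hkn'] at hd'
      rcases hd' with ⟨-, h, -⟩ | ⟨h, -⟩ | ⟨h, -⟩ | ⟨h, -⟩
      · exact h
      · exact absurd h (by decide)
      · exact absurd h (by decide)
      · exact absurd h (by decide)
    have hsuf : (1 :: w) <:+ (A t).p := by rw [hp, h0]
    rw [h0, if_neg (by decide), if_neg (by decide), hs,
      if_pos ⟨h3, Or.inr (Or.inl hsuf)⟩]
    simp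
  · unfold Yv
    rw [h0, if_neg (by decide), if_pos rfl]
    simp
  · exact absurd h0 ho

end Pool.Agent.Helper158.FCD
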