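import Pool.Agent.Helper158.FCD.NonIso
import Pool.Agent.Helper158.FCD.StepOwner
import Pool.Agent.Helper158.FCD.StepCone
import Pool.Agent.Helper158.FCD.StepStamps
import Pool.Agent.Helper158.FCD.StepYvStep
import Pool.Agent.Helper158.FCD.StepDcase1
import Pool.Agent.Helper158.FCD.StepDcase2
import Pool.Agent.Helper158.FCD.StepConserve
import Pool.Agent.Helper158.FCD.StepYvVal
import Pool.Agent.Helper158.FCD.StepAsm

/-! The dichotomy for coherent sequences. -/

set_option autoImplicit false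

namespace Pool.Agent.Helper158.FCD

open Nat.Partrec (Code)

/-- every computable matrix has an index -/
lemma index (m : ℕ → ℕ → Bool) (hm : Computable₂ m) :
    ∃ j, (∀ u x y c, ev j u x y = some c → c = (m x y).toNat) ∧
      ∀ x y, ∃ u₀, ∀ u, u₀ ≤ u → (ev j u x y).isSome = true := by
  have h1 : Computable (fun z : ℕ => (m z.unpair.1 z.unpair.2).toNat) := by
    have h2 : Computable (fun z : ℕ => m z.unpair.1 z.unpair.2) :=
      hm.comp (Computable.fst.comp Computable.unpair) (Computable.snd.comp Computable.unpair)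
    have h3 : Primrec (fun b : Bool => b.toNat) := Primrec.dom_finite _
    exact h3.to_comp.comp h2
  have h4 : Nat.Partrec (fun z : ℕ => Part.some ((m z.unpair.1 z.unpair.2).toNat)) := by
    have := Partrec.nat_iff.1 (h1.partrec)
    exact this
  obtain ⟨code, hcode⟩ := Code.exists_code.1 h4
  refine ⟨Encodable.encode code, fun u x y c h => ?_, fun x y => ?_⟩
  · unfold ev at h
    rw [Denumerable.ofNat_encode] at h
    have h5 : c ∈ Code.eval code (Nat.pair x y) := Code.evaln_sound h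
    rw [hcode] at h5
    simpa using h5
  · have h5 : (m x y).toNat ∈ Code.eval code (Nat.pair x y) := by
      rw [hcode]; simp
    obtain ⟨k, hk⟩ := Code.evaln_complete.1 h5
    refine ⟨k, fun u hu => ?_⟩
    unfold ev
    rw [Denumerable.ofNat_encode, Option.isSome_iff_exists]
    exact ⟨_, Code.evaln_mono hu hk⟩

lemma hlt3 : ∀ o : Fin 4, o ≠ 3 → o < 3 := by decide

/-- an outcome other than waiting -/
lemma ex_outcome (m : ℕ → ℕ → Bool) (w : Path) (T : ℕ)
    (hval : ∀ u x y c, ev w.length u x y = some c → c = (m x y).toNat)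
    (htot : ∀ x y, ∃ u₀, ∀ u, u₀ ≤ u → (ev w.length u x y).isSome = true)
    (hcoh : ∀ k ℓ, k ≤ ℓ → InU mv dead k (fun c => xor (m ℓ c) (m k c)))
    (hI : InfVis arun w) (hS : Stay arun w T) :
    ∃ (o : Fin 4) (T' : ℕ), o ≠ 3 ∧ InfVis arun (o :: w) ∧ Stay arun (o :: w) T' := by
  have hT := trace_run
  obtain ⟨o, T', hI', hS'⟩ := ex_child arun mv hT w T hI hS
  by_cases ho : o = 3
  · exfalso
    subst ho
    have henter : ∀ (o : Fin 4) (q : Path) (t₁ t₂ : ℕ), t₁ ≤ t₂ →
        ¬ ((o :: q) <:+ (arun t₁).p) → (o :: q) <:+ (arun t₂).p →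
        ∃ t, t₁ ≤ t ∧ t < t₂ ∧ Vis arun q t ∧ Vis arun (o :: q) (t + 1) :=
      fun o q t₁ t₂ h h1 h2 => enter arun mv hT o q t₁ t₂ h h1 h2
    obtain ⟨t₁, ht₁, hv₁⟩ := hI' T'
    have hno : ∃ T', ∀ o : Fin 4, o ≠ 3 → ∀ t, T' ≤ t → ¬ Vis arun (o :: w) t := by
      refine ⟨t₁, fun o ho t ht hv => ?_⟩
      have h1 : ¬ ((o :: w) <:+ (arun t₁).p) := by
        rw [hv₁.2]
        intro h
        exact ho (suffix_head h List.suffix_rfl)
      obtain ⟨u, hu1, _, hu3, hu4⟩ := henter o w t₁ t ht h1 (by rw [hv.2])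
      have h2 := kill_step (hT.step u) hu3.1 hu3.2 hu4.1 hu4.2
        (o' := 3) (w := 3 :: w) (hlt3 o ho) List.suffix_rfl
      obtain ⟨n, hn⟩ := hS' (u + 1) (by omega)
      rw [h2] at hn
      simp at hn
    obtain ⟨T₃, k, h1, h2, h3⟩ := dcase1 arun mv hT w T hI hS hno henter
    exact dcase2 arun mv dead hT dead_iff dead_mono m w hI hval htot hcoh T₃ k h1 h2 h3
  · exact ⟨o, T', ho, hI', hS'⟩

/-- **Core theorem, second half.** -/
theorem core_dich
    (hcv : ∀ w : Path, Computable (fun t : ℕ => decide ((run t).up = false ∧ (run t).p = w)))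
    (hcs : ∀ w : Path, Computable (fun t : ℕ => ((get (run t).L w).getD (fresh 0)).s0))
    (hff : Computable₂ (ff mv)) : CoreDich mv dead := by
  classical
  intro m hm hcoh
  have hT := trace_run
  obtain ⟨j, hval, htot⟩ := index m hm
  obtain ⟨w, T, hl, hI, hS⟩ := tp arun mv hT j
  subst hl
  obtain ⟨o, T', ho, hI', hS'⟩ := ex_outcome m w T hval htot hcoh hI hS
  have henter : ∀ (o : Fin 4) (q : Path) (t₁ t₂ : ℕ), t₁ ≤ t₂ →
      ¬ ((o :: q) <:+ (arun t₁).p) → (o :: q) <:+ (arun t₂).p →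
      ∃ t, t₁ ≤ t ∧ t < t₂ ∧ Vis arun q t ∧ Vis arun (o :: q) (t + 1) :=
    fun o q t₁ t₂ h h1 h2 => enter arun mv hT o q t₁ t₂ h h1 h2
  obtain ⟨T₁, hT₁, hcone⟩ := cone arun mv hT (o :: w) T' hI' hS'
    (fun c hc => owner arun mv hT c hc) henter
  set T₂ := max T T₁ with hT₂
  -- the nodes at `w`
  have hnode : ∀ t, T₂ ≤ t → ∃ n, (arun t).S w = some n ∧
      ((get (run t).L w).getD (fresh 0)) = n := by
    intro t ht
    obtain ⟨n, hn⟩ := hS t (by omega)
    refine ⟨n, hn, ?_⟩
    have : get (run t).L w = some n := hn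
    rw [this]; rfl
  set g : ℕ → Bool := fun t => decide (T₂ ≤ t) && decide ((run t).up = false ∧ (run t).p = o :: w)
    with hg
  set s : ℕ → ℕ := fun t => ((get (run t).L w).getD (fresh 0)).s0 with hs
  have hgc : Computable g := by
    have h1 : Computable (fun t : ℕ => decide (T₂ ≤ t)) := by
      have : PrimrecPred (fun t : ℕ => T₂ ≤ t) :=
        Primrec.nat_le.comp (Primrec.const T₂) Primrec.id
      exact this.decide.to_comp
    exact (Primrec.and.to_comp).comp h1 (hcv (o :: w))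
  have hgv : ∀ t, g t = true → T₂ ≤ t ∧ Vis arun (o :: w) t := by
    intro t ht
    simp only [hg, Bool.and_eq_true, decide_eq_true_eq] at ht
    exact ht
  have hinf : ∀ N, ∃ t, N ≤ t ∧ g t = true ∧ N ≤ s t := by
    intro N
    obtain ⟨T₃, h3⟩ := stamps arun mv hT w o T ho hI' hS N
    obtain ⟨t, ht, hv⟩ := hI' (max N (max T₂ T₃))
    have h4 : T₂ ≤ t := by omega
    obtain ⟨n, hn, hn'⟩ := hnode t h4
    refine ⟨t, by omega, ?_, ?_⟩
    · simp only [hg, Bool.and_eq_true, decide_eq_true_eq]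
      exact ⟨h4, hv⟩
    · have h5 := h3 t (by omega) hv n hn
      simp only [hs, hn']
      exact h5
  have hst : ∀ t, g t = true → s t ≤ t := by
    intro t ht
    obtain ⟨h4, hv⟩ := hgv t ht
    obtain ⟨n, hn, hn'⟩ := hnode t h4
    have := ((base_run t).bnd w n hn).2.2.2
    simp only [hs, hn']
    omega
  -- values are constant
  have hc1 : ∀ c, T₂ ≤ c → (∀ t, dead t c = false) → ∀ t t', t ≤ t' → g t = true → g t' = true →
      c < s t → xor (m (s t) c) (decide (o = 1) && ff mv t c) =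
        xor (m (s t') c) (decide (o = 1) && ff mv t' c) := by
    intro c hc hdc t t' htt hgt hgt' hcs'
    have hF : Forever arun c := by
      intro u hu
      rcases (dead_iff u c).1 (hdc u) with h | h
      · omega
      · exact h
    obtain ⟨u, hu, hO⟩ := hcone c (by omega) hF
    obtain ⟨h4, hv⟩ := hgv t hgt
    obtain ⟨h4', hv'⟩ := hgv t' hgt'
    obtain ⟨n, hn, hn'⟩ := hnode t h4
    obtain ⟨k, hk, hk'⟩ := hnode t' h4'
    have hsn : s t = n.s0 := by simp only [hs, hn']
    have hsk : s t' = k.s0 := by simp only [hs, hk']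
    have hst' := hst t hgt
    have h5 := conserve arun mv hT m w u o c T ho hu hO hS
      (fun t C C' f n n' k k' a1 a2 a3 a4 a5 a6 a7 a8 a9 a10 =>
        yv_step t C C' f m w o n n' k k' u a1 a2 a3 a4 a5 hval a6 a7 ho hu a8 a9 a10)
      t t' htt (by omega) (by omega) n k hn hk (by omega)
    have h6 := yv_val arun mv hT m w o t n (ff mv t) c ho hv hn
    have h7 := yv_val arun mv hT m w o t' k (ff mv t') c ho hv' hk
    rw [hsn, hsk, ← h6, ← h7]
    exact h5.2.symm
  obtain ⟨a, ha, hA, hB⟩ := asm mv dead m hm hff g s (decide (o = 1)) T₂ hgc (hcs w) hinf hst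
    (by
      intro c hc hdc t t' hgt hgt' h1 h2
      rcases le_total t t' with h | h
      · exact hc1 c hc hdc t t' h hgt hgt' h1
      · exact (hc1 c hc hdc t' t h hgt' hgt h2).symm) hcoh
  refine ⟨a, ha, ?_⟩
  by_cases ho1 : o = 1
  · right
    exact hB (by simp [ho1])
  · left
    exact hA (by simp [ho1])

end Pool.Agent.Helper158.FCD
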