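import Pool.Agent.Helper158.FCD.Defs

/-! Invariants of the abstract machine: definitions. -/

set_option autoImplicit false

namespace Pool.Agent.Helper158.FCD

/-- what is emitted from a configuration -/
def emis (C : ACfg) : List ℕ := if C.up = true ∧ C.p = [] then C.d else []

/-- basic invariants -/
structure Base (t : ℕ) (C : ACfg) : Prop where
  bnd : ∀ w n, C.S w = some n → n.c < t ∧ (∀ x ∈ n.dl, x < t) ∧ (∀ x ∈ n.r, x < t) ∧
    n.s0 ≤ n.s1 ∧ n.s1 ≤ t
  bd : ∀ x ∈ C.d, x < t
  inj : ∀ w n w' n', C.S w = some n → C.S w' = some n' → n.c = n'.c → w = w'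
  pre : ∀ w n, C.S w = some n → ∀ q, q <:+ w → ∃ k, C.S q = some k
  path : ∀ o q, (o :: q) <:+ C.p → ∃ n, C.S q = some n ∧
    ((o = 0 ∧ n.pf = true ∧ n.pM = false ∧ n.wait = false) ∨
     (o = 1 ∧ n.pf = false ∧ n.pM = false ∧ n.wait = false) ∨
     (o = 2 ∧ n.pf = false ∧ n.pM = true ∧ n.wait = false) ∨ (o = 3 ∧ n.wait = true))
  upp : C.up = true → ∃ k, C.S C.p = some k

/-- supports of the vectors -/
structure Supp (C : ACfg) : Prop where
  j2 : ∀ q n, C.S q = some n → ∀ w m, C.S w = some m → ¬ ((0 :: q) <:+ w) →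
    par n.dl m.c = false
  j4 : C.up = true → ∀ w m, C.S w = some m → ¬ (C.p <:+ w) → par C.d m.c = false

def ZeroOn (S : Path → Option Node) (s : Path) (x : List ℕ) : Prop :=
  ∀ w m, Rel s w → S w = some m → par x m.c = false

def SameOn (S : Path → Option Node) (s : Path) (x y : List ℕ) : Prop :=
  ∀ w m, Rel s w → S w = some m → par x m.c = par y m.c

def Good (S : Path → Option Node) (s : Path) (k : Node) (x : List ℕ) : Prop :=
  (ZeroOn S s x ∨ (k.wait = false ∧ SameOn S s x k.r)) ∧ (par x k.c = true → k.rm = 1)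

/-- how requests look from below -/
structure Flow (C : ACfg) : Prop where
  j1 : ∀ q n s k, C.S q = some n → C.S s = some k → (0 :: q) <:+ s →
    ¬ ((0 :: q) <:+ C.p) → Good C.S s k n.dl
  j3 : C.up = true → ∀ s k, C.S s = some k → C.p <:+ s → Good C.S s k C.d

/-- the correction terms along a path -/
def sumN (S : Path → Option Node) : Path → ℕ → Bool
  | [], _ => false
  | o :: q, c => xor (sumN S q c)
      (if o = 0 then (match S q with
        | some n => !n.pf && par n.dl c
        | none => false) else false)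

/-- the formula for `f` -/
def FInv (t : ℕ) (C : ACfg) (f : ℕ → Bool) : Prop :=
  (∀ c, t ≤ c → f c = false) ∧
  ∀ w m, C.S w = some m →
    xor (f m.c) (C.up && par C.d m.c) = xor (decide (m.rm ≠ 0)) (sumN C.S w m.c)

/-- the vectors `r` -/
def RInv (C : ACfg) : Prop :=
  ∀ q n, C.S q = some n → ∀ w m, C.S w = some m →
    ((0 :: q) <:+ w → par n.r m.c = par n.dl m.c) ∧
    ((1 :: q) <:+ w → par n.r m.c = true → n.pf = true ∧ n.pM = false) ∧
    ((2 :: q) <:+ w → par n.r m.c = true → n.pf = true ∧ n.pM = true)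

/-- the history of the moves as seen by a node -/
def Hist (t : ℕ) (C : ACfg) (v : ℕ → List ℕ) : Prop :=
  ∀ s k, C.S s = some k →
    (k.wait = true → ∀ x, k.s1 ≤ x → x < t → ZeroOn C.S s (v x)) ∧
    (∀ x, k.s0 ≤ x → x < t → ZeroOn C.S s (v x) ∨ SameOn C.S s (v x) k.r) ∧
    (k.wait = false → (∃ o, (o :: s) <:+ C.p) → ∀ x, k.s0 ≤ x → x < t → ZeroOn C.S s (v x))

/-- the conserved quantities -/
def Yv (m : ℕ → ℕ → Bool) (f : ℕ → Bool) (C : ACfg) (s : Path) (n : Node) (o : Fin 4) (c : ℕ) :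
    Bool :=
  if o = 0 then xor (m n.s0 c) (n.pM && par n.dl c)
  else if o = 2 then m n.s0 c
  else xor (m n.s0 c) (xor (f c) (xor (sumN C.S s c)
    (if n.wait = false ∧ ((0 :: s) <:+ C.p ∨ (1 :: s) <:+ C.p ∨ (2 :: s) <:+ C.p) then false
      else xor (C.up && par C.d c) (par n.r c))))

end Pool.Agent.Helper158.FCD
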