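import Pool.Agent.Helper158.FCD.TraceDefs

set_option autoImplicit false
namespace Pool.Agent.Helper158.FCD

theorem child_upd (S : Path → Option Node) (q : Path) (m : Node) (x : Path) (n : Node)
    (hx : S x = some n) : ∃ n', Function.update S q (some m) x = some n' := by
  by_cases h : x = q
  · subst h
    exact ⟨m, Function.update_self _ _ _⟩
  · exact ⟨n, by rw [Function.update_of_ne h, hx]⟩

theorem child_keep {t : ℕ} {C C' : ACfg} (h : Step t C C') (x : Path) (n : Node)
    (hx : C.S x = some n) : (∃ n', C'.S x = some n') ∨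
      ∃ (o₁ o₂ : Fin 4) (q : Path), C'.up = false ∧ C'.p = o₁ :: q ∧ o₁ < o₂ ∧
        (o₂ :: q) <:+ x ∧ ∀ y, (o₂ :: q) <:+ y → C'.S y = none := by
  cases h with
  | emit S d => exact Or.inl ⟨n, hx⟩
  | upD S q d => exact Or.inl ⟨n, hx⟩
  | upN S q o d m ho hS hpf => exact Or.inl (child_upd S q _ x n hx)
  | upP S q o d m ho hS hpf => exact Or.inl (child_upd S q _ x n hx)
  | create S q d hS => exact Or.inl (child_upd S q _ x n hx)
  | act S q d m hS hrm hPhi => exact Or.inl (child_upd S q _ x n hx)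
  | skip S q d m K hS hna hK hans => exact Or.inl (child_upd S q _ x n hx)
  | own S q d m K b hS hna hK hans hpf hpM => exact Or.inl (child_upd S q _ x n hx)
  | go S q d m K b hS hna hK hans hno =>
    by_cases hk : Kill (outc m.pf (xor m.pM b)) q x
    · right
      have key : ∃ o₂ : Fin 4, outc m.pf (xor m.pM b) < o₂ ∧ (o₂ :: q) <:+ x ∧
          ∀ y, (o₂ :: q) <:+ y → Kill (outc m.pf (xor m.pM b)) q y := by
        rcases hk with ⟨h1, h2⟩ | ⟨h1, h2⟩ | ⟨h1, h2⟩
        · exact ⟨1, h1, h2, fun y hy => Or.inl ⟨h1, hy⟩⟩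
        · exact ⟨2, h1, h2, fun y hy => Or.inr (Or.inl ⟨h1, hy⟩)⟩
        · exact ⟨3, h1, h2, fun y hy => Or.inr (Or.inr ⟨h1, hy⟩)⟩
      obtain ⟨o₂, h1, h2, h3⟩ := key
      exact ⟨_, o₂, q, rfl, rfl, h1, h2, fun y hy => if_pos (h3 y hy)⟩
    · left
      obtain ⟨n', hn'⟩ := child_upd S q (na t m b) x n hx
      exact ⟨n', by
        show (if Kill (outc m.pf (xor m.pM b)) q x then none
          else Function.update S q (some (na t m b)) x) = some n'
        rw [if_neg hk]
        exact hn'⟩

theorem child_vis_aux {t : ℕ} {C C' : ACfg} (h : Step t C C') (hup : C.up = false) :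
    ∃ n', C'.S C.p = some n' := by
  cases h with
  | emit S d => exact absurd hup (by simp)
  | upD S q d => exact absurd hup (by simp)
  | upN S q o d m ho hS hpf => exact absurd hup (by simp)
  | upP S q o d m ho hS hpf => exact absurd hup (by simp)
  | create S q d hS => exact ⟨_, Function.update_self _ _ _⟩
  | act S q d m hS hrm hPhi => exact ⟨_, Function.update_self _ _ _⟩
  | skip S q d m K hS hna hK hans => exact ⟨_, Function.update_self _ _ _⟩
  | own S q d m K b hS hna hK hans hpf hpM => exact ⟨_, Function.update_self _ _ _⟩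
  | go S q d m K b hS hna hK hans hno =>
    refine ⟨na t m b, ?_⟩
    show (if Kill (outc m.pf (xor m.pM b)) q q then none
          else Function.update S q (some (na t m b)) q) = some (na t m b)
    rw [if_neg, Function.update_self]
    rintro (⟨-, h2⟩ | ⟨-, h2⟩ | ⟨-, h2⟩) <;> exact not_cons_suffix h2

theorem child (A : ℕ → ACfg) (v : ℕ → List ℕ) (hT : Trace A v) (w : Path) (T : ℕ)
    (hI : InfVis A w) (hS : Stay A w T)
    (hc : ∀ T₀, ∃ t, T₀ ≤ t ∧ ∃ o, Vis A (o :: w) t) :
    ∃ o T', InfVis A (o :: w) ∧ Stay A (o :: w) T' := by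
  classical
  have hex : ∃ o : Fin 4, InfVis A (o :: w) := by
    by_contra hno
    push Not at hno
    have h1 : ∀ o : Fin 4, ∃ T₀, ∀ t, T₀ ≤ t → ¬ Vis A (o :: w) t := by
      intro o
      have := hno o
      unfold InfVis at this
      push Not at this
      exact this
    choose B hB using h1
    obtain ⟨t, ht, o, ho⟩ := hc (Finset.univ.sup B)
    exact hB o t ((Finset.le_sup (Finset.mem_univ o)).trans ht) ho
  obtain ⟨o, ho, hmin⟩ := WellFounded.has_min (wellFounded_lt (α := Fin 4))
    {o : Fin 4 | InfVis A (o :: w)} hex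
  have h1 : ∀ o' : Fin 4, ∃ T₀, o' < o → ∀ t, T₀ ≤ t → ¬ Vis A (o' :: w) t := by
    intro o'
    by_cases hlt : o' < o
    · have : ¬ InfVis A (o' :: w) := fun h => hmin o' h hlt
      unfold InfVis at this
      push Not at this
      obtain ⟨T₀, h⟩ := this
      exact ⟨T₀, fun _ => h⟩
    · exact ⟨0, fun h => absurd h hlt⟩
  choose B hB using h1
  set T₁ : ℕ := max T (Finset.univ.sup B) with hT₁
  have hkeep : ∀ t, T₁ ≤ t → (∃ n, (A t).S (o :: w) = some n) →
      ∃ n, (A (t + 1)).S (o :: w) = some n := by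
    rintro t ht ⟨n, hn⟩
    rcases child_keep (hT.step t) (o :: w) n hn with h | ⟨o₁, o₂, q, hup, hp, hlt, hsuf, hnone⟩
    · exact h
    · exfalso
      have hT' : T ≤ t + 1 := ((le_max_left _ _).trans ht).trans (Nat.le_succ t)
      rcases suffix_cons_cases hsuf with h | h
      · injection h with h2 h3
        subst h2
        subst h3
        refine hB o₁ hlt (t + 1) ?_ ⟨hup, hp⟩
        exact ((Finset.le_sup (Finset.mem_univ o₁)).trans ((le_max_right _ _).trans ht)).trans
          (Nat.le_succ t)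
      · obtain ⟨k, hk⟩ := hS (t + 1) hT'
        rw [hnone w h] at hk
        exact absurd hk (by simp)
  obtain ⟨t, ht, hv⟩ := ho T₁
  refine ⟨o, t + 1, ho, ?_⟩
  intro t' ht'
  induction t', ht' using Nat.le_induction with
  | base =>
    have := child_vis_aux (hT.step t) hv.1
    rwa [hv.2] at this
  | succ t' ht' ih =>
    exact hkeep t' (by omega) ih

end Pool.Agent.Helper158.FCD
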