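import Pool.Agent.Helper158.FCD.TraceDefs

set_option autoImplicit false
namespace Pool.Agent.Helper158.FCD

/-- potential of a node -/
def phiN (n : Node) : ℕ := (if n.rm = 0 then 1 else 0) + (if n.pf = true then 1 else 0)

theorem child_vis (A : ℕ → ACfg) (v : ℕ → List ℕ) (hT : Trace A v) (w : Path) (T : ℕ)
    (hI : InfVis A w) (hS : Stay A w T)
    (same : ∀ t t', t ≤ t' → ¬ Strict w (A t).p → (∀ u, t ≤ u → u < t' → ¬ Vis A w u) →
      (∀ u, t ≤ u → u ≤ t' → ∃ n, (A u).S w = some n) →
      ¬ Strict w (A t').p ∧ (A t').S w = (A t).S w) :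
    ∀ T₀, ∃ t, T₀ ≤ t ∧ ∃ o, Vis A (o :: w) t := by
  intro T₀
  by_contra hcon
  push Not at hcon
  have key : ∀ k : ℕ, ∀ t, T ≤ t → T₀ ≤ t → ¬ Strict w (A t).p → ∀ n, (A t).S w = some n →
      phiN n < k → False := by
    intro k
    induction k with
    | zero => intro t _ _ _ n _ h; exact absurd h (Nat.not_lt_zero _)
    | succ k ih =>
      intro t h1 h2 h3 n hn hk
      have hex : ∃ u, t ≤ u ∧ Vis A w u := hI t
      classical
      obtain ⟨hu1, hu2⟩ := Nat.find_spec hex
      have hmin : ∀ u, t ≤ u → u < Nat.find hex → ¬ Vis A w u := fun u hu hlt hv =>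
        Nat.find_min hex hlt ⟨hu, hv⟩
      obtain ⟨g1, g2⟩ := same t (Nat.find hex) hu1 h3 hmin (fun u hu _ => hS u (h1.trans hu))
      generalize Nat.find hex = s at hu1 hu2 hmin g1 g2
      have hn' : (A s).S w = some n := g2.trans hn
      have hstep := hT.step s
      obtain ⟨hup, hp⟩ := hu2
      have hno := hcon (s + 1) (by omega)
      unfold Vis at hno
      have ih' := ih (s + 1) (by omega) (by omega)
      generalize A s = C at hstep hup hp hn'
      generalize A (s + 1) = C' at hstep hno ih'
      cases hstep with
      | emit S d => simp at hup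
      | upD S q d => simp at hup
      | upN S q o d n ho hS hpf => simp at hup
      | upP S q o d n ho hS hpf => simp at hup
      | create S q d hSq =>
        simp only at hp hn'
        subst hp
        rw [hSq] at hn'
        exact absurd hn' (by simp)
      | act S q d m hSq hrm hPhi =>
        simp only at hp hn'
        subst hp
        rw [hSq] at hn'
        obtain rfl : m = n := Option.some.inj hn'
        refine ih' (fun ⟨o, ho⟩ => not_cons_suffix ho) _ (by simp only [Function.update_self]; rfl) ?_
        unfold phiN at hk ⊢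
        simp only [hrm] at hk ⊢
        simp at hk ⊢
        omega
      | skip S q d m K hSq hna hK hans =>
        simp only at hp
        subst hp
        exact hno 3 ⟨rfl, rfl⟩
      | own S q d m K b hSq hna hK hans hpf hpM =>
        simp only at hp hn'
        subst hp
        rw [hSq] at hn'
        obtain rfl : m = n := Option.some.inj hn'
        refine ih' (fun ⟨o, ho⟩ => not_cons_suffix ho) _ (by simp only [Function.update_self]; rfl) ?_
        unfold phiN at hk ⊢
        simp only [hpf, na] at hk ⊢
        by_cases h0 : m.rm = 0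
        · simp [h0] at hk ⊢
          omega
        · simp [h0] at hk ⊢
          omega
      | go S q d m K b hSq hna hK hans hno' =>
        simp only at hp
        subst hp
        exact hno _ ⟨rfl, rfl⟩
  obtain ⟨t, ht, hv⟩ := hI (max T T₀)
  obtain ⟨n, hn⟩ := hS t ((le_max_left _ _).trans ht)
  refine key (phiN n + 1) t ((le_max_left _ _).trans ht) ((le_max_right _ _).trans ht) ?_ n hn
    (Nat.lt_succ_self _)
  rw [hv.2]
  exact fun ⟨o, ho⟩ => not_cons_suffix ho

end Pool.Agent.Helper158.FCD
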