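import Pool.Agent.Helper158.FCD.TraceDefs

set_option autoImplicit false
namespace Pool.Agent.Helper158.FCD

theorem enter (A : ℕ → ACfg) (v : ℕ → List ℕ) (hT : Trace A v) (o : Fin 4) (q : Path) (t₁ t₂ : ℕ)
    (h : t₁ ≤ t₂) (h1 : ¬ ((o :: q) <:+ (A t₁).p)) (h2 : (o :: q) <:+ (A t₂).p) :
    ∃ t, t₁ ≤ t ∧ t < t₂ ∧ Vis A q t ∧ Vis A (o :: q) (t + 1) := by
  induction t₂, h using Nat.le_induction with
  | base => exact absurd h2 h1
  | succ n hn ih =>
    by_cases hc : (o :: q) <:+ (A n).p
    · obtain ⟨t, ht1, ht2, ht3, ht4⟩ := ih hc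
      exact ⟨t, ht1, by omega, ht3, ht4⟩
    · have hs := hT.step n
      have key : (A n).up = false ∧ (A n).p = q ∧ (A (n + 1)).up = false ∧
          (A (n + 1)).p = o :: q := by
        generalize A n = X at hs hc
        generalize A (n + 1) = Y at hs h2
        cases hs with
        | emit S d => exact absurd h2 hc
        | upD S q' d => exact absurd (h2.trans (List.suffix_cons _ _)) hc
        | upN S q' o' d k ho hS hpf => exact absurd (h2.trans (List.suffix_cons _ _)) hc
        | upP S q' o' d k ho hS hpf => exact absurd (h2.trans (List.suffix_cons _ _)) hc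
        | create S q' d hS => exact absurd h2 hc
        | act S q' d k hS hrm hPhi => exact absurd h2 hc
        | skip S q' d k K hS hna hK hans =>
          rcases suffix_cons_cases h2 with h3 | h3
          · simp only [List.cons.injEq] at h3
            obtain ⟨rfl, rfl⟩ := h3
            exact ⟨rfl, rfl, rfl, rfl⟩
          · exact absurd h3 hc
        | own S q' d k K b hS hna hK hans hpf hpM => exact absurd h2 hc
        | go S q' d k K b hS hna hK hans hno =>
          rcases suffix_cons_cases h2 with h3 | h3
          · simp only [List.cons.injEq] at h3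
            obtain ⟨h4, rfl⟩ := h3
            refine ⟨rfl, rfl, rfl, ?_⟩
            rw [h4]
          · exact absurd h3 hc
      exact ⟨n, hn, by omega, ⟨key.1, key.2.1⟩, ⟨key.2.2.1, key.2.2.2⟩⟩

end Pool.Agent.Helper158.FCD
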