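import Pool.Agent.Helper158.FCD.TraceDefs

set_option autoImplicit false
namespace Pool.Agent.Helper158.FCD

theorem infvis_root_up_step {t : ℕ} {C C' : ACfg} (hs : Step t C C') (hup : C.up = true) :
    (C'.p = [] ∧ C'.up = false) ∨ (∃ o, C.p = o :: C'.p ∧ C'.up = true) := by
  cases hs with
  | emit S d => exact Or.inl ⟨rfl, rfl⟩
  | upD S q d => exact Or.inr ⟨_, rfl, rfl⟩
  | upN S q o d n ho hS hpf => exact Or.inr ⟨_, rfl, rfl⟩
  | upP S q o d n ho hS hpf => exact Or.inr ⟨_, rfl, rfl⟩
  | create S q d hS => simp at hup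
  | act S q d n hS hrm hPhi => simp at hup
  | skip S q d n K hS hna hK hans => simp at hup
  | own S q d n K b hS hna hK hans hpf hpM => simp at hup
  | go S q d n K b hS hna hK hans hno => simp at hup

theorem infvis_root_down_step {t : ℕ} {C C' : ACfg} (hs : Step t C C') (hup : C.up = false) :
    C'.up = true ∨ ((∃ o, C'.p = o :: C.p) ∧ (∃ n, C.S C.p = some n) ∧
      ∀ w m, C'.S w = some m → ∃ m', C.S w = some m') := by
  cases hs with
  | emit S d => simp at hup
  | upD S q d => simp at hup
  | upN S q o d n ho hS hpf => simp at hup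
  | upP S q o d n ho hS hpf => simp at hup
  | create S q d hS => exact Or.inl rfl
  | act S q d n hS hrm hPhi => exact Or.inl rfl
  | skip S q d n K hS hna hK hans =>
    refine Or.inr ⟨⟨_, rfl⟩, ⟨n, hS⟩, ?_⟩
    intro w m hw
    have hw' : Function.update S q (some (nw t n)) w = some m := hw
    by_cases h : w = q
    · subst h
      exact ⟨n, hS⟩
    · rw [Function.update_of_ne h] at hw'
      exact ⟨m, hw'⟩
  | own S q d n K b hS hna hK hans hpf hpM => exact Or.inl rfl
  | go S q d n K b hS hna hK hans hno =>
    refine Or.inr ⟨⟨_, rfl⟩, ⟨n, hS⟩, ?_⟩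
    intro w m hw
    have hw' : (if Kill (outc n.pf (xor n.pM b)) q w then none
            else Function.update S q (some (na t n b)) w) = some m := hw
    split_ifs at hw' with hk
    by_cases h : w = q
    · subst h
      exact ⟨n, hS⟩
    · rw [Function.update_of_ne h] at hw'
      exact ⟨m, hw'⟩

theorem infvis_root_up {A : ℕ → ACfg} {v : ℕ → List ℕ} (hT : Trace A v) :
    ∀ (k t : ℕ), (A t).up = true → (A t).p.length = k → ∃ t', t ≤ t' ∧ Vis A [] t' := by
  intro k
  induction k with
  | zero =>
    intro t hup hl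
    rcases infvis_root_up_step (hT.step t) hup with ⟨h1, h2⟩ | ⟨o, h1, h2⟩
    · exact ⟨t + 1, Nat.le_succ t, h2, h1⟩
    · rw [h1] at hl
      simp at hl
  | succ k ih =>
    intro t hup hl
    rcases infvis_root_up_step (hT.step t) hup with ⟨h1, h2⟩ | ⟨o, h1, h2⟩
    · exact ⟨t + 1, Nat.le_succ t, h2, h1⟩
    · rw [h1] at hl
      simp only [List.length_cons, Nat.add_right_cancel_iff] at hl
      obtain ⟨t', ht', hv⟩ := ih (t + 1) h2 hl
      exact ⟨t', by omega, hv⟩

theorem infvis_root (A : ℕ → ACfg) (v : ℕ → List ℕ) (hT : Trace A v) : InfVis A [] := by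
  intro T
  have hup : ∃ t, T ≤ t ∧ (A t).up = true := by
    by_contra hcon
    push Not at hcon
    have hcon' : ∀ t, T ≤ t → (A t).up = false := fun t ht => by
      have := hcon t ht
      simpa using this
    obtain ⟨N, hN⟩ := hT.fin T
    have key : ∀ k, (A (T + k)).p.length = (A T).p.length + k ∧
        ∀ w m, (A (T + k)).S w = some m → ∃ m', (A T).S w = some m' := by
      intro k
      induction k with
      | zero => exact ⟨rfl, fun w m h => ⟨m, h⟩⟩
      | succ k ih =>
        rcases infvis_root_down_step (hT.step (T + k)) (hcon' (T + k) (by omega)) with h | h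
        · have := hcon' (T + k + 1) (by omega)
          rw [this] at h
          exact absurd h (by simp)
        · obtain ⟨⟨o, h1⟩, _, h3⟩ := h
          refine ⟨?_, ?_⟩
          · show (A (T + k + 1)).p.length = (A T).p.length + (k + 1)
            rw [h1, List.length_cons, ih.1]
            omega
          · intro w m hw
            obtain ⟨m', hm'⟩ := h3 w m hw
            exact ih.2 w m' hm'
    rcases infvis_root_down_step (hT.step (T + (N + 1))) (hcon' (T + (N + 1)) (by omega)) with h | h
    · have := hcon' (T + (N + 1) + 1) (by omega)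
      rw [this] at h
      exact absurd h (by simp)
    · obtain ⟨_, ⟨n, hn⟩, _⟩ := h
      obtain ⟨m', hm'⟩ := (key (N + 1)).2 _ _ hn
      have h4 := hN _ _ hm'
      have h5 := (key (N + 1)).1
      omega
  obtain ⟨t, ht, h⟩ := hup
  obtain ⟨t', ht', hv⟩ := infvis_root_up hT _ t h rfl
  exact ⟨t', by omega, hv⟩

end Pool.Agent.Helper158.FCD
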