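import Pool.Agent.Helper158.FCD.TraceDefs

set_option autoImplicit false
namespace Pool.Agent.Helper158.FCD

lemma par_flatMap (v : ℕ → List ℕ) (c t : ℕ) (h : ∀ s, t ≤ s → par (v s) c = false) (S : List ℕ)
    (hS : ∀ s ∈ S, t ≤ s) : par (S.flatMap v) c = false := by
  induction S with
  | nil => rfl
  | cons x S ih =>
    rw [List.flatMap_cons, par_append, ih fun s hs => hS s (by simp [hs]), h x (hS x (by simp))]
    rfl

lemma sumN_false {S : Path → Option Node} {w : Path} (c : ℕ)
    (h : ∀ q n, (0 :: q) <:+ w → S q = some n → n.pf = true) : sumN S w c = false := by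
  induction w with
  | nil => rfl
  | cons o q ih =>
    have h1 : sumN S q c = false := ih fun q' n hq hn => h q' n (hq.trans (List.suffix_cons o q)) hn
    simp only [sumN, h1, Bool.false_xor]
    by_cases ho : o = 0
    · subst ho
      rw [if_pos rfl]
      cases hq : S q with
      | none => rfl
      | some n => simp [h q n List.suffix_rfl hq]
    · rw [if_neg ho]

lemma step_rm {t : ℕ} {B C : ACfg} (h : Step t B C) {w : Path} (hup : B.up = false) (hp : B.p = w)
    {n : Node} (hn : B.S w = some n) :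
    (n.rm = 0 → Phi w.length t n.c → ∃ n', C.S w = some n' ∧ n'.rm = 1) ∧
    (n.rm ≠ 0 → ∃ n', C.S w = some n' ∧ n'.rm = 2) := by
  cases h with
  | emit S d => simp at hup
  | upD S q d => simp at hup
  | upN S q o d m ho hS hpf => simp at hup
  | upP S q o d m ho hS hpf => simp at hup
  | create S q d hS =>
    simp only at hp hn
    subst hp
    rw [hS] at hn
    exact absurd hn (by simp)
  | act S q d m hS hrm hPhi =>
    simp only at hp hn
    subst hp
    rw [hS] at hn
    simp only [Option.some.injEq] at hn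
    subst hn
    refine ⟨fun _ _ => ⟨_, Function.update_self .., rfl⟩, fun h => absurd hrm h⟩
  | skip S q d m K hS hna hK hans =>
    simp only at hp hn
    subst hp
    rw [hS] at hn
    simp only [Option.some.injEq] at hn
    subst hn
    refine ⟨fun h h' => absurd ⟨h, h'⟩ hna, fun h => ⟨_, Function.update_self .., ?_⟩⟩
    simp [nw, h]
  | own S q d m K b hS hna hK hans hpf hpM =>
    simp only at hp hn
    subst hp
    rw [hS] at hn
    simp only [Option.some.injEq] at hn
    subst hn
    refine ⟨fun h h' => absurd ⟨h, h'⟩ hna, fun h => ⟨_, Function.update_self .., ?_⟩⟩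
    simp [na, h]
  | go S q d m K b hS hna hK hans hno =>
    simp only at hp hn
    subst hp
    rw [hS] at hn
    simp only [Option.some.injEq] at hn
    subst hn
    refine ⟨fun h h' => absurd ⟨h, h'⟩ hna, fun h => ⟨na t m b, ?_, ?_⟩⟩
    · have hk : ¬ Kill (outc m.pf (xor m.pM b)) q q := by
        rintro (⟨_, h⟩ | ⟨_, h⟩ | ⟨_, h⟩) <;> exact not_cons_suffix h
      simp [hk]
    · simp [na, h]

theorem noniso_trace (A : ℕ → ACfg) (v : ℕ → List ℕ) (dead : ℕ → ℕ → Bool) (hT : Trace A v)
    (hd : ∀ t c, dead t c = false ↔ (t ≤ c ∨ ∃ w n, (A t).S w = some n ∧ n.c = c))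
    (hdm : DeadMono dead)
    (tp : ∀ k, ∃ w T, w.length = k ∧ InfVis A w ∧ Stay A w T)
    (s0mono : ∀ (w : Path) (t t' : ℕ), t ≤ t' →
      (∀ u, t ≤ u → u ≤ t' → ∃ n, (A u).S w = some n) → ∀ n n' : Node,
      (A t).S w = some n → (A t').S w = some n' →
      n'.c = n.c ∧ n.s0 ≤ n'.s0 ∧ (n.rm ≠ 0 → n'.rm ≠ 0) ∧ (n.rm = 2 → n'.rm = 2)) :
    CoreNon v dead := by
  rintro ⟨a, ha, hU⟩
  have h1 : Computable (fun n => Encodable.encode (a n)) := Computable.encode.comp ha
  have h2 : Nat.Partrec (fun n => Part.some (Encodable.encode (a n))) := Partrec.nat_iff.1 h1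
  obtain ⟨j, hj⟩ := Nat.Partrec.Code.exists_code.1 h2
  obtain ⟨w, T, hw, hI, hS⟩ := tp (Encodable.encode j)
  have hcode : Denumerable.ofNat Nat.Partrec.Code w.length = j := by
    rw [hw, Denumerable.ofNat_encode]
  have hev : ∀ c, Nat.Partrec.Code.eval j c = Part.some (Encodable.encode (a c)) := fun c => by
    rw [hj]
  obtain ⟨nT, hnT⟩ := hS T le_rfl
  obtain ⟨c, hc⟩ : ∃ c, c = nT.c := ⟨_, rfl⟩
  have mono : ∀ t t', T ≤ t → t ≤ t' → ∀ n n' : Node, (A t).S w = some n → (A t').S w = some n' →
      n'.c = n.c ∧ n.s0 ≤ n'.s0 ∧ (n.rm ≠ 0 → n'.rm ≠ 0) ∧ (n.rm = 2 → n'.rm = 2) :=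
    fun t t' ht htt n n' hn hn' => s0mono w t t' htt (fun u hu _ => hS u (ht.trans hu)) n n' hn hn'
  have hcc : ∀ t, T ≤ t → ∀ n, (A t).S w = some n → n.c = c := fun t ht n hn => by
    rw [hc]; exact (mono T t le_rfl ht nT n hnT hn).1
  have alive1 : ∀ t, T ≤ t → dead t c = false := fun t ht => by
    rw [hd]
    obtain ⟨n, hn⟩ := hS t ht
    exact Or.inr ⟨w, n, hn, hcc t ht n hn⟩
  have deadmono : ∀ k t, dead t c = true → dead (t + k) c = true := by
    intro k
    induction k with
    | zero => exact fun t h => h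
    | succ k ih => exact fun t h => hdm _ _ (ih t h)
  have alive : ∀ t, dead t c = false := by
    intro t
    by_contra hcon
    have h3 : dead t c = true := by simpa using hcon
    have h4 := deadmono T t h3
    rw [alive1 (t + T) (by omega)] at h4
    exact absurd h4 (by simp)
  -- the value of f at a visit
  have hff : ∀ t, T ≤ t → Vis A w t → ∀ n, (A t).S w = some n →
      ff v t c = decide (n.rm ≠ 0) := by
    intro t ht hv n hn
    have h3 := (hT.finv t).2 w n hn
    have h4 : sumN (A t).S w n.c = false := by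
      apply sumN_false
      intro q m hq hm
      obtain ⟨k, hk, h5⟩ := (hT.base t).path 0 q (by rw [hv.2]; exact hq)
      rw [hm] at hk
      simp only [Option.some.injEq] at hk
      subst hk
      rcases h5 with h5 | h5 | h5 | h5
      · exact h5.2.1
      · exact absurd h5.1 (by decide)
      · exact absurd h5.1 (by decide)
      · exact absurd h5.1 (by decide)
    rw [hv.1, h4, hcc t ht n hn] at h3
    simpa using h3
  -- moves touching c
  have hpar : ∀ t, T ≤ t → ∀ n, (A t).S w = some n → par (v t) c = true → n.rm = 1 := by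
    intro t ht n hn h
    rw [hT.vmv t] at h
    unfold emis at h
    split_ifs at h with h5
    · have h6 := ((hT.flow t).j3 h5.1 w n hn (by rw [h5.2]; exact List.nil_suffix)).2
      rw [hcc t ht n hn] at h6
      exact h6 h
    · exact absurd h (by simp)
  -- what InU says at a visit after which no move touches c
  have hInU : ∀ t, T ≤ t → c < t → Vis A w t → (∀ s, t ≤ s → par (v s) c = false) →
      ∀ n, (A t).S w = some n → a c = decide (n.rm ≠ 0) := by
    intro t ht hct hv hno n hn
    obtain ⟨S, hS1, hS2⟩ := hU t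
    have h3 : xor (a c) (ff v t c) = par (S.flatMap v) c := hS2 c hct alive
    rw [par_flatMap v c t hno S hS1, hff t ht hv n hn] at h3
    revert h3
    cases a c <;> cases decide (n.rm ≠ 0) <;> simp
  by_cases hA : ∀ t, T ≤ t → ∀ n, (A t).S w = some n → n.rm = 0
  · have hno : ∀ s, T ≤ s → par (v s) c = false := by
      intro s hs
      obtain ⟨n, hn⟩ := hS s hs
      by_contra hcon
      have h3 := hpar s hs n hn (by simpa using hcon)
      rw [hA s hs n hn] at h3
      exact absurd h3 (by decide)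
    obtain ⟨t, ht, hv⟩ := hI (T + c + 1)
    obtain ⟨n, hn⟩ := hS t (by omega)
    have hac : a c = false := by
      rw [hInU t (by omega) (by omega) hv (fun s hs => hno s (by omega)) n hn,
        hA t (by omega) n hn]
      rfl
    have h4 : (0 : ℕ) ∈ Nat.Partrec.Code.eval j c := by
      rw [hev c, hac]
      exact Part.mem_some_iff.2 rfl
    obtain ⟨k, hk⟩ := Nat.Partrec.Code.evaln_complete.1 h4
    obtain ⟨t', ht', hv'⟩ := hI (T + k)
    obtain ⟨n', hn'⟩ := hS t' (by omega)
    have hphi : Phi w.length t' n'.c := by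
      unfold Phi
      rw [hcode, hcc t' (by omega) n' hn']
      exact Nat.Partrec.Code.evaln_mono (by omega : k ≤ t') hk
    obtain ⟨m, hm, hm1⟩ := (step_rm (hT.step t') hv'.1 hv'.2 hn').1 (hA t' (by omega) n' hn') hphi
    rw [hA (t' + 1) (by omega) m hm] at hm1
    exact absurd hm1 (by decide)
  · push Not at hA
    obtain ⟨t0, ht0, n0, hn0, hrm0⟩ := hA
    obtain ⟨u, hu⟩ := hT.phi t0 w n0 hn0 hrm0
    have hac : a c = false := by
      unfold Phi at hu
      rw [hcode, hcc t0 ht0 n0 hn0] at hu
      have h3 : (0 : ℕ) ∈ Nat.Partrec.Code.eval j c := Nat.Partrec.Code.evaln_sound hu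
      rw [hev c, Part.mem_some_iff] at h3
      cases hac : a c with
      | false => rfl
      | true => rw [hac] at h3; exact absurd h3 (by decide)
    obtain ⟨t1, ht1, hv1⟩ := hI t0
    obtain ⟨n1, hn1⟩ := hS t1 (by omega)
    have hrm1 : n1.rm ≠ 0 := (mono t0 t1 ht0 ht1 n0 n1 hn0 hn1).2.2.1 hrm0
    obtain ⟨m, hm, hm2⟩ := (step_rm (hT.step t1) hv1.1 hv1.2 hn1).2 hrm1
    have hrm : ∀ t, t1 + 1 ≤ t → ∀ n, (A t).S w = some n → n.rm = 2 := fun t ht n hn =>
      (mono (t1 + 1) t (by omega) ht m n hm hn).2.2.2 hm2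
    obtain ⟨t, ht, hv⟩ := hI (t1 + 1 + c + 1)
    obtain ⟨n, hn⟩ := hS t (by omega)
    have h3 := hInU t (by omega) (by omega) hv (fun s hs => by
      obtain ⟨n', hn'⟩ := hS s (by omega)
      by_contra hcon
      have h3 := hpar s (by omega) n' hn' (by simpa using hcon)
      rw [hrm s (by omega) n' hn'] at h3
      exact absurd h3 (by decide)) n hn
    rw [hac, hrm t (by omega) n hn] at h3
    exact absurd h3 (by decide)

end Pool.Agent.Helper158.FCD
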