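import Pool.Agent.Helper158.FCD.TraceDefs

set_option autoImplicit false
namespace Pool.Agent.Helper158.FCD

private theorem s0mono_step {t : ℕ} {C C' : ACfg} (hst : Step t C C') (hB : Base t C) (w : Path)
    (n n' : Node) (hn : C.S w = some n) (hn' : C'.S w = some n') :
    n'.c = n.c ∧ n.s0 ≤ n'.s0 ∧ (n.rm ≠ 0 → n'.rm ≠ 0) ∧ (n.rm = 2 → n'.rm = 2) := by
  obtain ⟨-, -, -, b1, b2⟩ := hB.bnd w n hn
  have same : n' = n → n'.c = n.c ∧ n.s0 ≤ n'.s0 ∧ (n.rm ≠ 0 → n'.rm ≠ 0) ∧
      (n.rm = 2 → n'.rm = 2) := by
    rintro rfl
    exact ⟨rfl, le_rfl, id, id⟩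
  have hs0 : n.s0 ≤ (if n.wait then n.s1 else t) := by
    split_ifs
    · exact b1
    · exact b1.trans b2
  cases hst with
  | emit S d =>
    simp only at hn hn'
    exact same (by rw [hn] at hn'; exact (Option.some.inj hn').symm)
  | upD S q d =>
    simp only at hn hn'
    exact same (by rw [hn] at hn'; exact (Option.some.inj hn').symm)
  | upN S q o d m ho hS hpf =>
    simp only at hn hn'
    by_cases hw : w = q
    · subst hw
      rw [Function.update_self] at hn'
      rw [hS] at hn
      obtain rfl := Option.some.inj hn
      obtain rfl := Option.some.inj hn'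
      exact ⟨rfl, le_rfl, id, id⟩
    · rw [Function.update_of_ne hw] at hn'
      exact same (by rw [hn] at hn'; exact (Option.some.inj hn').symm)
  | upP S q o d m ho hS hpf =>
    simp only at hn hn'
    by_cases hw : w = q
    · subst hw
      rw [Function.update_self] at hn'
      rw [hS] at hn
      obtain rfl := Option.some.inj hn
      obtain rfl := Option.some.inj hn'
      exact ⟨rfl, le_rfl, id, id⟩
    · rw [Function.update_of_ne hw] at hn'
      exact same (by rw [hn] at hn'; exact (Option.some.inj hn').symm)
  | create S q d hS =>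
    simp only at hn hn'
    by_cases hw : w = q
    · subst hw
      rw [hS] at hn
      exact absurd hn (by simp)
    · rw [Function.update_of_ne hw] at hn'
      exact same (by rw [hn] at hn'; exact (Option.some.inj hn').symm)
  | act S q d m hS hrm hPhi =>
    simp only at hn hn'
    by_cases hw : w = q
    · subst hw
      rw [Function.update_self] at hn'
      rw [hS] at hn
      obtain rfl := Option.some.inj hn
      obtain rfl := Option.some.inj hn'
      refine ⟨rfl, le_rfl, fun _ => by simp, fun h => ?_⟩
      omega
    · rw [Function.update_of_ne hw] at hn'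
      exact same (by rw [hn] at hn'; exact (Option.some.inj hn').symm)
  | skip S q d m K hS hna hK hans =>
    simp only at hn hn'
    by_cases hw : w = q
    · subst hw
      rw [Function.update_self] at hn'
      rw [hS] at hn
      obtain rfl := Option.some.inj hn
      obtain rfl := Option.some.inj hn'
      refine ⟨rfl, le_rfl, fun h => ?_, fun h => ?_⟩
      · simp [nw, h]
      · simp [nw, h]
    · rw [Function.update_of_ne hw] at hn'
      exact same (by rw [hn] at hn'; exact (Option.some.inj hn').symm)
  | own S q d m K b hS hna hK hans hpf hpM =>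
    simp only at hn hn'
    by_cases hw : w = q
    · subst hw
      rw [Function.update_self] at hn'
      rw [hS] at hn
      obtain rfl := Option.some.inj hn
      obtain rfl := Option.some.inj hn'
      refine ⟨rfl, hs0, fun h => ?_, fun h => ?_⟩
      · simp [na, h]
      · simp [na, h]
    · rw [Function.update_of_ne hw] at hn'
      exact same (by rw [hn] at hn'; exact (Option.some.inj hn').symm)
  | go S q d m K b hS hna hK hans hno =>
    simp only at hn hn'
    split_ifs at hn'
    by_cases hw : w = q
    · subst hw
      rw [Function.update_self] at hn'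
      rw [hS] at hn
      obtain rfl := Option.some.inj hn
      obtain rfl := Option.some.inj hn'
      refine ⟨rfl, hs0, fun h => ?_, fun h => ?_⟩
      · simp [na, h]
      · simp [na, h]
    · rw [Function.update_of_ne hw] at hn'
      exact same (by rw [hn] at hn'; exact (Option.some.inj hn').symm)

theorem s0mono (A : ℕ → ACfg) (v : ℕ → List ℕ) (hT : Trace A v) (w : Path) (t t' : ℕ)
    (htt : t ≤ t') (hS : ∀ u, t ≤ u → u ≤ t' → ∃ n, (A u).S w = some n) (n n' : Node)
    (hn : (A t).S w = some n) (hn' : (A t').S w = some n') :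
    n'.c = n.c ∧ n.s0 ≤ n'.s0 ∧ (n.rm ≠ 0 → n'.rm ≠ 0) ∧ (n.rm = 2 → n'.rm = 2) := by
  induction t', htt using Nat.le_induction generalizing n' with
  | base =>
    rw [hn] at hn'
    obtain rfl := Option.some.inj hn'
    exact ⟨rfl, le_rfl, id, id⟩
  | succ u hu ih =>
    obtain ⟨m, hm⟩ := hS u hu (Nat.le_succ u)
    obtain ⟨i1, i2, i3, i4⟩ := ih (fun x hx hx' => hS x hx (hx'.trans (Nat.le_succ u))) m hm
    obtain ⟨j1, j2, j3, j4⟩ := s0mono_step (hT.step u) (hT.base u) w m n' hm hn'
    exact ⟨j1.trans i1, i2.trans j2, fun h => j3 (i3 h), fun h => j4 (i4 h)⟩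

end Pool.Agent.Helper158.FCD
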