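import Pool.Agent.Helper158.FCD.TraceDefs

set_option autoImplicit false
namespace Pool.Agent.Helper158.FCD

lemma same_one {t : ℕ} {C C' : ACfg} (h : Step t C C') (w : Path) (hs : ¬ Strict w C.p)
    (hv : ¬ (C.up = false ∧ C.p = w)) (hst : ∃ n, C'.S w = some n) :
    ¬ Strict w C'.p ∧ C'.S w = C.S w := by
  have hsub : ∀ (o : Fin 4) (q : Path), ¬ Strict w (o :: q) → ¬ Strict w q := by
    rintro o q h ⟨o', h'⟩
    exact h ⟨o', h'.trans (List.suffix_cons _ _)⟩
  have hup : ∀ (o : Fin 4) (q : Path), ¬ Strict w q → q ≠ w → ¬ Strict w (o :: q) := by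
    rintro o q h hq ⟨o', h'⟩
    rcases suffix_cons_cases h' with h'' | h''
    · exact hq (List.cons.inj h'').2.symm
    · exact h ⟨o', h''⟩
  cases h with
  | emit S d => exact ⟨hs, rfl⟩
  | upD S q d => exact ⟨hsub _ _ hs, rfl⟩
  | upN S q o d n ho hSq hpf =>
    refine ⟨hsub _ _ hs, ?_⟩
    have hq : w ≠ q := by
      rintro rfl
      exact hs ⟨o, List.suffix_refl _⟩
    exact Function.update_of_ne hq _ _
  | upP S q o d n ho hSq hpf =>
    refine ⟨hsub _ _ hs, ?_⟩
    have hq : w ≠ q := by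
      rintro rfl
      exact hs ⟨o, List.suffix_refl _⟩
    exact Function.update_of_ne hq _ _
  | create S q d hSq =>
    have hq : w ≠ q := by
      rintro rfl
      exact hv ⟨rfl, rfl⟩
    exact ⟨hs, Function.update_of_ne hq _ _⟩
  | act S q d n hSq hrm hPhi =>
    have hq : w ≠ q := by
      rintro rfl
      exact hv ⟨rfl, rfl⟩
    exact ⟨hs, Function.update_of_ne hq _ _⟩
  | skip S q d n K hSq hna hK hans =>
    have hq : w ≠ q := by
      rintro rfl
      exact hv ⟨rfl, rfl⟩
    exact ⟨hup _ _ hs hq.symm, Function.update_of_ne hq _ _⟩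
  | own S q d n K b hSq hna hK hans hpf hpM =>
    have hq : w ≠ q := by
      rintro rfl
      exact hv ⟨rfl, rfl⟩
    exact ⟨hs, Function.update_of_ne hq _ _⟩
  | go S q d n K b hSq hna hK hans hno =>
    have hq : w ≠ q := by
      rintro rfl
      exact hv ⟨rfl, rfl⟩
    refine ⟨hup _ _ hs hq.symm, ?_⟩
    obtain ⟨n', hn'⟩ := hst
    have hn'' : (if Kill (outc n.pf (xor n.pM b)) q w then none
            else Function.update S q (some (na t n b)) w) = some n' := hn'
    show (if Kill (outc n.pf (xor n.pM b)) q w then none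
            else Function.update S q (some (na t n b)) w) = S w
    by_cases hK : Kill (outc n.pf (xor n.pM b)) q w
    · rw [if_pos hK] at hn''; cases hn''
    · rw [if_neg hK]
      exact Function.update_of_ne hq _ _

theorem same_node (A : ℕ → ACfg) (v : ℕ → List ℕ) (hT : Trace A v) (w : Path) (t t' : ℕ)
    (htt : t ≤ t') (hs : ¬ Strict w (A t).p) (hv : ∀ u, t ≤ u → u < t' → ¬ Vis A w u)
    (hst : ∀ u, t ≤ u → u ≤ t' → ∃ n, (A u).S w = some n) :
    ¬ Strict w (A t').p ∧ (A t').S w = (A t).S w := by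
  induction t', htt using Nat.le_induction with
  | base => exact ⟨hs, rfl⟩
  | succ t' htt ih =>
    obtain ⟨h1, h2⟩ := ih (fun u hu hu' => hv u hu (by omega)) (fun u hu hu' => hst u hu (by omega))
    obtain ⟨h3, h4⟩ := same_one (hT.step t') w h1 (hv t' htt (by omega)) (hst (t' + 1) (by omega) le_rfl)
    exact ⟨h3, h4.trans h2⟩
end Pool.Agent.Helper158.FCD
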