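import Pool.Agent.Helper158.FCD.Run
import Pool.Agent.Helper158.FCD.StepInfvisRoot
import Pool.Agent.Helper158.FCD.StepSameNode
import Pool.Agent.Helper158.FCD.StepEnter
import Pool.Agent.Helper158.FCD.StepChildVis
import Pool.Agent.Helper158.FCD.StepChild
import Pool.Agent.Helper158.FCD.StepS0mono
import Pool.Agent.Helper158.FCD.StepNonisoTrace

/-! The true path and the non-computability part of the core theorem. -/

set_option autoImplicit false

namespace Pool.Agent.Helper158.FCD

lemma stay_root (A : ℕ → ACfg) (v : ℕ → List ℕ) (hT : Trace A v) : ∃ T, Stay A [] T := by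
  obtain ⟨t, _, ht⟩ := infvis_root A v hT 0
  obtain ⟨n', hn'⟩ := child_vis_aux (hT.step t) ht.1
  rw [ht.2] at hn'
  refine ⟨t + 1, fun u hu => ?_⟩
  induction u, hu using Nat.le_induction with
  | base => exact ⟨n', hn'⟩
  | succ u hu ih =>
    obtain ⟨n, hn⟩ := ih
    rcases child_keep (hT.step u) [] n hn with h | ⟨o₁, o₂, q, _, _, _, h, _⟩
    · exact h
    · simp at h

lemma ex_child (A : ℕ → ACfg) (v : ℕ → List ℕ) (hT : Trace A v) (w : Path) (T : ℕ)
    (hI : InfVis A w) (hS : Stay A w T) : ∃ o T', InfVis A (o :: w) ∧ Stay A (o :: w) T' :=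
  child A v hT w T hI hS (child_vis A v hT w T hI hS (fun t t' h1 h2 h3 h4 =>
    same_node A v hT w t t' h1 h2 h3 h4))

lemma tp (A : ℕ → ACfg) (v : ℕ → List ℕ) (hT : Trace A v) (k : ℕ) :
    ∃ w T, w.length = k ∧ InfVis A w ∧ Stay A w T := by
  induction k with
  | zero =>
    obtain ⟨T, h⟩ := stay_root A v hT
    exact ⟨[], T, rfl, infvis_root A v hT, h⟩
  | succ k ih =>
    obtain ⟨w, T, hl, hI, hS⟩ := ih
    obtain ⟨o, T', h1, h2⟩ := ex_child A v hT w T hI hS
    exact ⟨o :: w, T', by simp [hl], h1, h2⟩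

/-- **Core theorem, first half**: the two structures are not computably isomorphic. -/
theorem core_non : CoreNon mv dead :=
  noniso_trace arun mv dead trace_run dead_iff dead_mono (tp arun mv trace_run)
    (fun w t t' h1 h2 n n' h3 h4 => s0mono arun mv trace_run w t t' h1 h2 n n' h3 h4)

end Pool.Agent.Helper158.FCD
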