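import Pool.Agent.Helper158.FCD.Bridge

/-! The machine is primitive recursive. -/

set_option autoImplicit false

namespace Pool.Agent.Helper158.FCD

open Primrec

section parts

variable {α : Type*} [Primcodable α]

lemma prim_suf' : Primrec (fun x : Path × Path => decide (x.1 <:+ x.2)) := by
  have h : Primrec (fun x : Path × Path => (List.recOn x.2 (decide (x.1 = []))
      (fun o w IH => (decide (x.1 = o :: w) || IH)) : Bool)) := by
    refine Primrec.list_rec (f := fun x : Path × Path => x.2)
      (g := fun x : Path × Path => decide (x.1 = []))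
      (h := fun x y => (decide (x.1 = y.1 :: y.2.1) || y.2.2)) snd ?_ ?_
    · exact (Primrec.eq.comp fst (const [])).decide
    · refine Primrec.or.comp ?_ (snd.comp (snd.comp snd))
      refine (Primrec.eq.comp (fst.comp fst) ?_).decide
      exact list_cons.comp (fst.comp snd) (fst.comp (snd.comp snd))
  refine h.of_eq (fun x => ?_)
  obtain ⟨p, w⟩ := x
  induction w with
  | nil => simp
  | cons o w ih =>
    simp only at ih ⊢
    rw [ih, Bool.eq_iff_iff]
    simp only [Bool.or_eq_true, decide_eq_true_eq]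
    exact List.suffix_cons_iff.symm

lemma prim_suf {p w : α → Path} (hp : Primrec p) (hw : Primrec w) :
    Primrec (fun a => decide (p a <:+ w a)) :=
  prim_suf'.comp (hp.pair hw)

lemma prim_rel {p w : α → Path} (hp : Primrec p) (hw : Primrec w) :
    Primrec (fun a => decide (Rel (p a) (w a))) := by
  have h : Primrec (fun a => (decide ((0 :: p a) <:+ w a) || (decide ((1 :: p a) <:+ w a) ||
      decide ((2 :: p a) <:+ w a)))) := by
    refine Primrec.or.comp (prim_suf (list_cons.comp (const 0) hp) hw) ?_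
    exact Primrec.or.comp (prim_suf (list_cons.comp (const 1) hp) hw)
      (prim_suf (list_cons.comp (const 2) hp) hw)
  refine h.of_eq (fun a => ?_)
  rw [Bool.eq_iff_iff]
  simp only [Bool.or_eq_true, decide_eq_true_eq]
  rfl

lemma prim_kill {o : α → Fin 4} {p w : α → Path} (ho : Primrec o) (hp : Primrec p)
    (hw : Primrec w) : Primrec (fun a => decide (Kill (o a) (p a) (w a))) := by
  have hl : ∀ k : Fin 4, Primrec (fun a => decide (o a < k)) := fun k =>
    (Primrec.dom_finite (fun x : Fin 4 => decide (x < k))).comp ho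
  have h : Primrec (fun a => ((decide (o a < 1) && decide ((1 :: p a) <:+ w a)) ||
      ((decide (o a < 2) && decide ((2 :: p a) <:+ w a)) ||
      (decide (o a < 3) && decide ((3 :: p a) <:+ w a))))) := by
    refine Primrec.or.comp (Primrec.and.comp (hl 1) (prim_suf (list_cons.comp (const 1) hp) hw)) ?_
    exact Primrec.or.comp
      (Primrec.and.comp (hl 2) (prim_suf (list_cons.comp (const 2) hp) hw))
      (Primrec.and.comp (hl 3) (prim_suf (list_cons.comp (const 3) hp) hw))
  refine h.of_eq (fun a => ?_)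
  rw [Bool.eq_iff_iff]
  simp only [Bool.or_eq_true, Bool.and_eq_true, decide_eq_true_eq]
  rfl

lemma prim_evn {t j x : α → ℕ} (ht : Primrec t) (hj : Primrec j) (hx : Primrec x) :
    Primrec (fun a => Nat.Partrec.Code.evaln (t a)
      (Denumerable.ofNat Nat.Partrec.Code (j a)) (x a)) := by
  have h := Nat.Partrec.Code.primrec_evaln.comp
    (((ht.pair ((Primrec.ofNat Nat.Partrec.Code).comp hj))).pair hx)
  exact h

lemma prim_ev {j t s c : α → ℕ} (hj : Primrec j) (ht : Primrec t) (hs : Primrec s)
    (hc : Primrec c) : Primrec (fun a => ev (j a) (t a) (s a) (c a)) :=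
  prim_evn ht hj (Primrec₂.natPair.comp hs hc)

lemma prim_bv {j t s c : α → ℕ} (hj : Primrec j) (ht : Primrec t) (hs : Primrec s)
    (hc : Primrec c) : Primrec (fun a => bv (j a) (t a) (s a) (c a)) := by
  unfold bv
  exact (Primrec.eq.comp (prim_ev hj ht hs hc) (const (some 1))).decide

lemma prim_phi {j t c : α → ℕ} (hj : Primrec j) (ht : Primrec t)
    (hc : Primrec c) : Primrec (fun a => decide (Phi (j a) (t a) (c a))) := by
  have := (Primrec.eq.comp (prim_evn ht hj hc) (const (some 0))).decide
  exact this.of_eq (fun a => by unfold Phi; rfl)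

lemma prim_ansf {j t s0 s1 : α → ℕ} {r K : α → List ℕ} (hj : Primrec j) (ht : Primrec t)
    (h0 : Primrec s0) (h1 : Primrec s1) (hr : Primrec r) (hK : Primrec K) :
    Primrec (fun a => ansf (j a) (t a) (s0 a) (s1 a) (r a) (K a)) := by
  have hle : Primrec₂ (fun (a : α) (c : ℕ) => decide (s0 a ≤ c)) :=
    (Primrec.nat_le.comp (h0.comp fst) snd).decide
  have c1 : Primrec (fun a => (K a).all (fun c => (ev (j a) (t a) (s1 a) c).isSome &&
      (decide (s0 a ≤ c) || (ev (j a) (t a) (s0 a) c).isSome))) := by
    refine prim_all hK (Primrec.and.comp ?_ (Primrec.or.comp hle ?_))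
    · exact Primrec.option_isSome.comp
        (prim_ev (hj.comp fst) (ht.comp fst) (h1.comp fst) snd)
    · exact Primrec.option_isSome.comp
        (prim_ev (hj.comp fst) (ht.comp fst) (h0.comp fst) snd)
  have c2 : Primrec (fun a => (K a).all (fun c => decide (s0 a ≤ c) ||
      (bv (j a) (t a) (s1 a) c == bv (j a) (t a) (s0 a) c))) := by
    refine prim_all hK (Primrec.or.comp hle (Primrec.beq.comp ?_ ?_))
    · exact prim_bv (hj.comp fst) (ht.comp fst) (h1.comp fst) snd
    · exact prim_bv (hj.comp fst) (ht.comp fst) (h0.comp fst) snd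
  have c3 : Primrec (fun a => (K a).all (fun c => decide (s0 a ≤ c) ||
      (bv (j a) (t a) (s1 a) c == xor (bv (j a) (t a) (s0 a) c) (par (r a) c)))) := by
    refine prim_all hK (Primrec.or.comp hle (Primrec.beq.comp ?_ (prim_xor.comp ?_ ?_)))
    · exact prim_bv (hj.comp fst) (ht.comp fst) (h1.comp fst) snd
    · exact prim_bv (hj.comp fst) (ht.comp fst) (h0.comp fst) snd
    · exact prim_par.comp (hr.comp fst) snd
  unfold ansf
  refine Primrec.ite (Primrec.eq.comp c1 (const true)) ?_ (const none)
  refine Primrec.ite (Primrec.eq.comp c2 (const true)) (const (some false)) ?_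
  exact Primrec.ite (Primrec.eq.comp c3 (const true)) (const (some true)) (const none)

end parts

/-! ### nodes -/

/-- nodes as tuples -/
def nodeEquiv : Node ≃ ℕ × ℕ × Bool × List ℕ × Bool × Bool × ℕ × ℕ × List ℕ where
  toFun n := (n.c, n.rm, n.wait, n.dl, n.pf, n.pM, n.s0, n.s1, n.r)
  invFun x := ⟨x.1, x.2.1, x.2.2.1, x.2.2.2.1, x.2.2.2.2.1, x.2.2.2.2.2.1, x.2.2.2.2.2.2.1,
    x.2.2.2.2.2.2.2.1, x.2.2.2.2.2.2.2.2⟩
  left_inv n := rfl
  right_inv x := rfl

instance : Primcodable Node := Primcodable.ofEquiv _ nodeEquiv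

lemma prim_nodeEquiv : Primrec nodeEquiv := Primrec.of_equiv

lemma prim_nodeSymm : Primrec nodeEquiv.symm := Primrec.of_equiv_symm

/-- configurations as tuples -/
def cfgEquiv : Cfg ≃ List (Path × Node) × Path × Bool × List ℕ where
  toFun C := (C.L, C.p, C.up, C.d)
  invFun x := ⟨x.1, x.2.1, x.2.2.1, x.2.2.2⟩
  left_inv n := rfl
  right_inv x := rfl

instance : Primcodable Cfg := Primcodable.ofEquiv _ cfgEquiv

lemma prim_cfgEquiv : Primrec cfgEquiv := Primrec.of_equiv

lemma prim_cfgSymm : Primrec cfgEquiv.symm := Primrec.of_equiv_symm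

section nodes

variable {α : Type*} [Primcodable α]

lemma prim_mk {c rm : α → ℕ} {wait : α → Bool} {dl : α → List ℕ} {pf pM : α → Bool}
    {s0 s1 : α → ℕ} {r : α → List ℕ} (h1 : Primrec c) (h2 : Primrec rm) (h3 : Primrec wait)
    (h4 : Primrec dl) (h5 : Primrec pf) (h6 : Primrec pM) (h7 : Primrec s0) (h8 : Primrec s1)
    (h9 : Primrec r) :
    Primrec (fun a => (⟨c a, rm a, wait a, dl a, pf a, pM a, s0 a, s1 a, r a⟩ : Node)) :=
  prim_nodeSymm.comp (h1.pair (h2.pair (h3.pair (h4.pair (h5.pair (h6.pair (h7.pair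
    (h8.pair h9))))))))

lemma prim_cmk {L : α → List (Path × Node)} {p : α → Path} {up : α → Bool} {d : α → List ℕ}
    (h1 : Primrec L) (h2 : Primrec p) (h3 : Primrec up) (h4 : Primrec d) :
    Primrec (fun a => (⟨L a, p a, up a, d a⟩ : Cfg)) :=
  prim_cfgSymm.comp (h1.pair (h2.pair (h3.pair h4)))

variable {n : α → Node} {C : α → Cfg}

lemma pc (h : Primrec n) : Primrec (fun a => (n a).c) :=
  fst.comp (prim_nodeEquiv.comp h)
lemma prm (h : Primrec n) : Primrec (fun a => (n a).rm) :=
  fst.comp (snd.comp (prim_nodeEquiv.comp h))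
lemma pwait (h : Primrec n) : Primrec (fun a => (n a).wait) :=
  fst.comp (snd.comp (snd.comp (prim_nodeEquiv.comp h)))
lemma pdl (h : Primrec n) : Primrec (fun a => (n a).dl) :=
  fst.comp (snd.comp (snd.comp (snd.comp (prim_nodeEquiv.comp h))))
lemma ppf (h : Primrec n) : Primrec (fun a => (n a).pf) :=
  fst.comp (snd.comp (snd.comp (snd.comp (snd.comp (prim_nodeEquiv.comp h)))))
lemma ppM (h : Primrec n) : Primrec (fun a => (n a).pM) :=
  fst.comp (snd.comp (snd.comp (snd.comp (snd.comp (snd.comp (prim_nodeEquiv.comp h))))))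
lemma ps0 (h : Primrec n) : Primrec (fun a => (n a).s0) :=
  fst.comp (snd.comp (snd.comp (snd.comp (snd.comp (snd.comp (snd.comp
    (prim_nodeEquiv.comp h)))))))
lemma ps1 (h : Primrec n) : Primrec (fun a => (n a).s1) :=
  fst.comp (snd.comp (snd.comp (snd.comp (snd.comp (snd.comp (snd.comp (snd.comp
    (prim_nodeEquiv.comp h))))))))
lemma pr (h : Primrec n) : Primrec (fun a => (n a).r) :=
  snd.comp (snd.comp (snd.comp (snd.comp (snd.comp (snd.comp (snd.comp (snd.comp
    (prim_nodeEquiv.comp h))))))))

lemma pL (h : Primrec C) : Primrec (fun a => (C a).L) :=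
  fst.comp (prim_cfgEquiv.comp h)
lemma pp (h : Primrec C) : Primrec (fun a => (C a).p) :=
  fst.comp (snd.comp (prim_cfgEquiv.comp h))
lemma pup (h : Primrec C) : Primrec (fun a => (C a).up) :=
  fst.comp (snd.comp (snd.comp (prim_cfgEquiv.comp h)))
lemma pd (h : Primrec C) : Primrec (fun a => (C a).d) :=
  snd.comp (snd.comp (snd.comp (prim_cfgEquiv.comp h)))

lemma prim_fresh {t : α → ℕ} (ht : Primrec t) : Primrec (fun a => fresh (t a)) :=
  prim_mk ht (const 0) (const false) (const []) (const true) (const false) (const 0) (const 0)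
    (const [])

lemma prim_get {L : α → List (Path × Node)} {q : α → Path} (hL : Primrec L) (hq : Primrec q) :
    Primrec (fun a => get (L a) (q a)) := by
  have h : Primrec₂ (fun (a : α) (y : (Path × Node) × Option Node) =>
      if y.1.1 = q a then some y.1.2 else y.2) := by
    refine Primrec.ite ?_ ?_ ?_
    · exact Primrec.eq.comp (fst.comp (fst.comp snd)) (hq.comp fst)
    · exact Primrec.option_some.comp (snd.comp (fst.comp snd))
    · exact snd.comp snd
  exact (Primrec.list_foldr hL (const none) h).of_eq (fun a => rfl)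

lemma prim_getD' {L : α → List (Path × Node)} {q : α → Path} (hL : Primrec L)
    (hq : Primrec q) : Primrec (fun a => (get (L a) (q a)).getD (fresh 0)) :=
  Primrec.option_getD.comp (prim_get hL hq) (const (fresh 0))

lemma prim_filter {L : α → List (Path × Node)} {P : α → Path → Bool} (hL : Primrec L)
    (hP : Primrec₂ P) : Primrec (fun a => (L a).filter (fun e => P a e.1)) := by
  have h : Primrec (fun a => (L a).filterMap (fun e => if P a e.1 = true then some e else none)) := by
    refine Primrec.listFilterMap hL (Primrec.ite ?_ ?_ ?_)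
    · exact Primrec.eq.comp (hP.comp fst (fst.comp snd)) (const true)
    · exact Primrec.option_some.comp snd
    · exact const none
  refine h.of_eq (fun a => ?_)
  generalize L a = l
  induction l with
  | nil => rfl
  | cons e l ih =>
    by_cases he : P a e.1 = true
    · simp only [List.filterMap_cons, List.filter_cons, he, if_true, ih]
    · simp only [List.filterMap_cons, List.filter_cons, he, if_false, ih]
      simp

lemma prim_rels {L : α → List (Path × Node)} {q : α → Path} (hL : Primrec L)
    (hq : Primrec q) : Primrec (fun a => rels (L a) (q a)) := by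
  unfold rels
  have h1 : Primrec (fun a => (L a).filter (fun e => decide (Rel (q a) e.1))) :=
    prim_filter (P := fun a w => decide (Rel (q a) w)) hL (prim_rel (hq.comp fst) snd)
  exact Primrec.list_map h1 (pc (prim_getD' (hL.comp fst) (fst.comp snd)))

lemma prim_stamp {n : α → Node} {t : α → ℕ} (hn : Primrec n) (ht : Primrec t) :
    Primrec (fun a => if (n a).wait then (n a).s1 else t a) :=
  Primrec.ite (Primrec.eq.comp (pwait hn) (const true)) (ps1 hn) ht

lemma prim_rm {n : α → Node} (hn : Primrec n) :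
    Primrec (fun a => if (n a).rm = 0 then 0 else 2) :=
  Primrec.ite (Primrec.eq.comp (prm hn) (const 0)) (const 0) (const 2)

lemma prim_nw {n : α → Node} {t : α → ℕ} (hn : Primrec n) (ht : Primrec t) :
    Primrec (fun a => nw (t a) (n a)) :=
  prim_mk (pc hn) (prim_rm hn) (const true) (pdl hn) (ppf hn) (ppM hn) (ps0 hn)
    (prim_stamp hn ht) (pr hn)

lemma prim_na {n : α → Node} {t : α → ℕ} {b : α → Bool} (hn : Primrec n) (ht : Primrec t)
    (hb : Primrec b) : Primrec (fun a => na (t a) (n a) (b a)) :=
  prim_mk (pc hn) (prim_rm hn) (const false) (pdl hn) (ppf hn) (prim_xor.comp (ppM hn) hb)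
    (prim_stamp hn ht) (prim_stamp hn ht) (pr hn)

lemma prim_outc {x y : α → Bool} (hx : Primrec x) (hy : Primrec y) :
    Primrec (fun a => outc (x a) (y a)) :=
  (Primrec.dom_finite (fun z : Bool × Bool => outc z.1 z.2)).comp (hx.pair hy)

end nodes

/-! ### the step function in pieces -/

/-- upward steps -/
def stepU (C : Cfg) (o : Fin 4) (q : Path) : Cfg :=
  if o = 3 then ⟨C.L, q, true, C.d⟩
  else
    if ((get C.L q).getD (fresh 0)).pf then
      ⟨(q, ⟨((get C.L q).getD (fresh 0)).c, ((get C.L q).getD (fresh 0)).rm,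
        ((get C.L q).getD (fresh 0)).wait, C.d, ((get C.L q).getD (fresh 0)).pf,
        ((get C.L q).getD (fresh 0)).pM, ((get C.L q).getD (fresh 0)).s0,
        ((get C.L q).getD (fresh 0)).s1, C.d⟩) :: C.L, q, true, C.d⟩
    else
      ⟨(q, ⟨((get C.L q).getD (fresh 0)).c, ((get C.L q).getD (fresh 0)).rm,
        ((get C.L q).getD (fresh 0)).wait, ((get C.L q).getD (fresh 0)).dl, true,
        ((get C.L q).getD (fresh 0)).pM, ((get C.L q).getD (fresh 0)).s0,
        ((get C.L q).getD (fresh 0)).s1, ((get C.L q).getD (fresh 0)).dl ++ C.d⟩) :: C.L,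
        q, true, ((get C.L q).getD (fresh 0)).dl ++ C.d⟩

/-- steps after an answer -/
def stepA (t : ℕ) (C : Cfg) (n : Node) (b : Bool) : Cfg :=
  if n.pf && xor n.pM b then
    ⟨(C.p, ⟨(na t n b).c, (na t n b).rm, false, n.dl, false, (na t n b).pM, (na t n b).s0,
      (na t n b).s1, n.dl⟩) :: C.L, C.p, true, n.dl⟩
  else
    ⟨(C.p, na t n b) ::
      C.L.filter (fun e => !decide (Kill (outc n.pf (xor n.pM b)) C.p e.1)),
      outc n.pf (xor n.pM b) :: C.p, false, []⟩

/-- downward steps at a present node -/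
def stepD (t : ℕ) (C : Cfg) (n : Node) : Cfg :=
  if n.rm = 0 ∧ Phi C.p.length t n.c then
    ⟨(C.p, ⟨n.c, 1, n.wait, n.dl, n.pf, n.pM, n.s0, n.s1, n.r⟩) :: C.L, C.p, true, [n.c]⟩
  else
    match ansf C.p.length t n.s0 (if n.wait then n.s1 else t) n.r (rels C.L C.p) with
    | none => ⟨(C.p, nw t n) :: C.L, 3 :: C.p, false, []⟩
    | some b => stepA t C n b

lemma step_eq (t : ℕ) (C : Cfg) : step t C =
    if C.up = true then
      match C.p with
      | [] => ⟨C.L, [], false, []⟩
      | o :: q => stepU C o q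
    else
      match get C.L C.p with
      | none => ⟨(C.p, fresh t) :: C.L, C.p, true, []⟩
      | some n => stepD t C n := rfl

section steps

variable {α : Type*} [Primcodable α]

lemma prim_stepU {C : α → Cfg} {o : α → Fin 4} {q : α → Path} (hC : Primrec C) (ho : Primrec o)
    (hq : Primrec q) : Primrec (fun a => stepU (C a) (o a) (q a)) := by
  unfold stepU
  have hn : Primrec (fun a => (get (C a).L (q a)).getD (fresh 0)) := prim_getD' (pL hC) hq
  refine Primrec.ite (Primrec.eq.comp ho (const 3)) ?_ ?_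
  · exact prim_cmk (pL hC) hq (const true) (pd hC)
  · refine Primrec.ite (Primrec.eq.comp (ppf hn) (const true)) ?_ ?_
    · refine prim_cmk (list_cons.comp (hq.pair ?_) (pL hC)) hq (const true) (pd hC)
      exact prim_mk (pc hn) (prm hn) (pwait hn) (pd hC) (ppf hn) (ppM hn) (ps0 hn) (ps1 hn) (pd hC)
    · refine prim_cmk (list_cons.comp (hq.pair ?_) (pL hC)) hq (const true)
        (list_append.comp (pdl hn) (pd hC))
      exact prim_mk (pc hn) (prm hn) (pwait hn) (pdl hn) (const true) (ppM hn) (ps0 hn) (ps1 hn)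
        (list_append.comp (pdl hn) (pd hC))

lemma prim_stepA {t : α → ℕ} {C : α → Cfg} {n : α → Node} {b : α → Bool} (ht : Primrec t)
    (hC : Primrec C) (hn : Primrec n) (hb : Primrec b) :
    Primrec (fun a => stepA (t a) (C a) (n a) (b a)) := by
  unfold stepA
  have hx : Primrec (fun a => xor (n a).pM (b a)) := prim_xor.comp (ppM hn) hb
  have hna : Primrec (fun a => na (t a) (n a) (b a)) := prim_na hn ht hb
  have ho : Primrec (fun a => outc (n a).pf (xor (n a).pM (b a))) := prim_outc (ppf hn) hx
  refine Primrec.ite (Primrec.eq.comp (Primrec.and.comp (ppf hn) hx) (const true)) ?_ ?_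
  · refine prim_cmk (list_cons.comp ((pp hC).pair ?_) (pL hC)) (pp hC) (const true) (pdl hn)
    exact prim_mk (pc hna) (prm hna) (const false) (pdl hn) (const false) (ppM hna) (ps0 hna)
      (ps1 hna) (pdl hn)
  · refine prim_cmk (list_cons.comp ((pp hC).pair hna) ?_) (list_cons.comp ho (pp hC))
      (const false) (const [])
    refine prim_filter (P := fun a w => !decide (Kill (outc (n a).pf (xor (n a).pM (b a)))
      (C a).p w)) (pL hC) ?_
    exact Primrec.not.comp (prim_kill (ho.comp fst) ((pp hC).comp fst) snd)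

lemma prim_stepD {t : α → ℕ} {C : α → Cfg} {n : α → Node} (ht : Primrec t)
    (hC : Primrec C) (hn : Primrec n) :
    Primrec (fun a => stepD (t a) (C a) (n a)) := by
  unfold stepD
  have hlen : Primrec (fun a => (C a).p.length) := list_length.comp (pp hC)
  have hcond : PrimrecPred (fun a => (n a).rm = 0 ∧ Phi (C a).p.length (t a) (n a).c) := by
    refine PrimrecPred.and (Primrec.eq.comp (prm hn) (const 0)) ?_
    exact ⟨inferInstance, prim_phi hlen ht (pc hn)⟩
  refine Primrec.ite hcond ?_ ?_
  · refine prim_cmk (list_cons.comp ((pp hC).pair ?_) (pL hC)) (pp hC) (const true)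
      (list_cons.comp (pc hn) (const []))
    exact prim_mk (pc hn) (const 1) (pwait hn) (pdl hn) (ppf hn) (ppM hn) (ps0 hn) (ps1 hn)
      (pr hn)
  · have hans : Primrec (fun a => ansf (C a).p.length (t a) (n a).s0
        (if (n a).wait then (n a).s1 else t a) (n a).r (rels (C a).L (C a).p)) :=
      prim_ansf hlen ht (ps0 hn) (prim_stamp hn ht) (pr hn) (prim_rels (pL hC) (pp hC))
    have h1 : Primrec (fun a => (⟨((C a).p, nw (t a) (n a)) :: (C a).L, 3 :: (C a).p, false, []⟩ :
        Cfg)) :=
      prim_cmk (list_cons.comp ((pp hC).pair (prim_nw hn ht)) (pL hC))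
        (list_cons.comp (const 3) (pp hC)) (const false) (const [])
    have h2 : Primrec₂ (fun (a : α) (b : Bool) => stepA (t a) (C a) (n a) b) :=
      prim_stepA (ht.comp fst) (hC.comp fst) (hn.comp fst) snd
    refine (Primrec.option_casesOn hans h1 h2).of_eq (fun a => ?_)
    cases ansf (C a).p.length (t a) (n a).s0
        (if (n a).wait then (n a).s1 else t a) (n a).r (rels (C a).L (C a).p) <;> rfl

lemma prim_step : Primrec₂ step := by
  have ht : Primrec (fun x : ℕ × Cfg => x.1) := fst
  have hC : Primrec (fun x : ℕ × Cfg => x.2) := snd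
  have h1 : Primrec (fun x : ℕ × Cfg => (List.casesOn x.2.p (⟨x.2.L, [], false, []⟩ : Cfg)
      (fun o q => stepU x.2 o q) : Cfg)) := by
    refine Primrec.list_casesOn (f := fun x : ℕ × Cfg => x.2.p)
      (g := fun x : ℕ × Cfg => (⟨x.2.L, [], false, []⟩ : Cfg))
      (h := fun x y => stepU x.2 y.1 y.2) (pp hC) ?_ ?_
    · exact prim_cmk (pL hC) (const []) (const false) (const [])
    · exact prim_stepU (hC.comp fst) (fst.comp snd) (snd.comp snd)
  have h2 : Primrec (fun x : ℕ × Cfg => (Option.casesOn (get x.2.L x.2.p)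
      (⟨(x.2.p, fresh x.1) :: x.2.L, x.2.p, true, []⟩ : Cfg) (fun n => stepD x.1 x.2 n) : Cfg)) := by
    refine Primrec.option_casesOn (o := fun x : ℕ × Cfg => get x.2.L x.2.p)
      (f := fun x : ℕ × Cfg => (⟨(x.2.p, fresh x.1) :: x.2.L, x.2.p, true, []⟩ : Cfg))
      (g := fun x n => stepD x.1 x.2 n) (prim_get (pL hC) (pp hC)) ?_ ?_
    · exact prim_cmk (list_cons.comp ((pp hC).pair (prim_fresh ht)) (pL hC)) (pp hC) (const true)
        (const [])
    · exact prim_stepD (ht.comp fst) (hC.comp fst) snd
  refine (Primrec.ite (Primrec.eq.comp (pup hC) (const true)) h1 h2).of_eq (fun x => ?_)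
  obtain ⟨t, C⟩ := x
  show _ = step t C
  rw [step_eq]
  congr 1
  · cases C.p <;> rfl
  · cases get C.L C.p <;> rfl

end steps

lemma prim_run : Primrec run := by
  have h : Primrec₂ (fun (_ : Unit) (y : ℕ × Cfg) => step y.1 y.2) :=
    prim_step.comp (fst.comp snd) (snd.comp snd)
  have h2 := Primrec.nat_rec' (f := fun t : ℕ => t) (g := fun _ : ℕ => (⟨[], [], false, []⟩ : Cfg))
    (h := fun _ y => step y.1 y.2) Primrec.id (const _)
    (prim_step.comp (fst.comp snd) (snd.comp snd))
  refine h2.of_eq (fun t => ?_)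
  induction t with
  | zero => rfl
  | succ t ih => simp only [run]; rw [← ih]

lemma prim_mv : Primrec mv := by
  unfold mv
  refine Primrec.ite ?_ (pd prim_run) (const [])
  exact PrimrecPred.and (Primrec.eq.comp (pup prim_run) (const true))
    (Primrec.eq.comp (pp prim_run) (const []))

lemma prim_dead : Primrec₂ dead := by
  unfold dead
  have h1 : Primrec (fun x : ℕ × ℕ => (run x.1).L.any (fun e =>
      decide (((get (run x.1).L e.1).getD (fresh 0)).c = x.2))) := by
    refine prim_any (pL (prim_run.comp fst)) ?_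
    refine (Primrec.eq.comp (pc (prim_getD' (pL (prim_run.comp (fst.comp fst)))
      (fst.comp snd))) (snd.comp fst)).decide
  exact Primrec.and.comp (Primrec.nat_lt.comp snd fst).decide (Primrec.not.comp h1)

lemma comp_vis (w : Path) :
    Computable (fun t : ℕ => decide ((run t).up = false ∧ (run t).p = w)) := by
  have : PrimrecPred (fun t : ℕ => (run t).up = false ∧ (run t).p = w) :=
    PrimrecPred.and (Primrec.eq.comp (pup prim_run) (const false))
      (Primrec.eq.comp (pp prim_run) (const w))
  exact this.decide.to_comp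

lemma comp_s0 (w : Path) :
    Computable (fun t : ℕ => ((get (run t).L w).getD (fresh 0)).s0) :=
  (ps0 (prim_getD' (pL prim_run) (const w))).to_comp

end Pool.Agent.Helper158.FCD
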