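import Pool.Agent.Helper158.FCD.Small

set_option autoImplicit false
namespace Pool.Agent.Helper158.FCD

private lemma upd_forall {S : Path → Option Node} {q : Path} {n' : Node} {P : Node → Prop}
    (h : ∀ w n, S w = some n → P n) (hn : P n') :
    ∀ w n, Function.update S q (some n') w = some n → P n := by
  intro w n hw
  by_cases hq : w = q
  · subst hq
    rw [Function.update_self, Option.some.injEq] at hw
    rw [← hw]; exact hn
  · rw [Function.update_of_ne hq] at hw
    exact h w n hw

private lemma upd_inj {S : Path → Option Node} {q : Path} {n' : Node}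
    (h : ∀ w n w' n', S w = some n → S w' = some n' → n.c = n'.c → w = w')
    (hn : ∀ w n, w ≠ q → S w = some n → n.c ≠ n'.c) :
    ∀ w n w' m, Function.update S q (some n') w = some n →
      Function.update S q (some n') w' = some m → n.c = m.c → w = w' := by
  intro w n w' m hw hw' hc
  by_cases hq : w = q
  · by_cases hq' : w' = q
    · rw [hq, hq']
    · exfalso
      rw [Function.update_of_ne hq'] at hw'
      rw [hq, Function.update_self, Option.some.injEq] at hw
      rw [← hw] at hc
      exact hn w' m hq' hw' hc.symm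
  · rw [Function.update_of_ne hq] at hw
    by_cases hq' : w' = q
    · exfalso
      rw [hq', Function.update_self, Option.some.injEq] at hw'
      rw [← hw'] at hc
      exact hn w n hq hw hc
    · rw [Function.update_of_ne hq'] at hw'
      exact h w n w' m hw hw' hc

private lemma inj_ne {S : Path → Option Node} {q : Path} {k : Node} {c : ℕ}
    (h : ∀ w n w' n', S w = some n → S w' = some n' → n.c = n'.c → w = w')
    (hk : S q = some k) (hc : k.c = c) :
    ∀ w n, w ≠ q → S w = some n → n.c ≠ c := by
  intro w n hw hn hcc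
  exact hw (h w n q k hn hk (by rw [hcc, hc]))

private lemma upd_pre {S : Path → Option Node} {q : Path} {n' : Node}
    (h : ∀ w n, S w = some n → ∀ q', q' <:+ w → ∃ k, S q' = some k)
    (hq : ∀ q', q' <:+ q → q' ≠ q → ∃ k, S q' = some k) :
    ∀ w n, Function.update S q (some n') w = some n → ∀ q', q' <:+ w →
      ∃ k, Function.update S q (some n') q' = some k := by
  intro w n hw q' hq'
  by_cases he : q' = q
  · exact ⟨n', by rw [he, Function.update_self]⟩
  · rw [Function.update_of_ne he]
    by_cases hwq : w = q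
    · rw [hwq] at hq'
      exact hq q' hq' he
    · rw [Function.update_of_ne hwq] at hw
      exact h w n hw q' hq'

private lemma suffix_ne {o : Fin 4} {x q : Path} (h : (o :: x) <:+ q) : x ≠ q := by
  rintro rfl
  exact not_cons_suffix h

private lemma not_kill_of_suffix {o : Fin 4} {x q : Path} (h : x <:+ q) : ¬ Kill o q x := by
  intro hk
  have h1 := h.length_le
  rcases hk with ⟨_, hk⟩ | ⟨_, hk⟩ | ⟨_, hk⟩ <;>
  · have h2 := hk.length_le
    simp only [List.length_cons] at h2
    omega

private lemma kill_down {o : Fin 4} {q x w : Path} (h : x <:+ w) (hk : Kill o q x) :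
    Kill o q w := by
  rcases hk with ⟨a, hk⟩ | ⟨a, hk⟩ | ⟨a, hk⟩
  · exact Or.inl ⟨a, hk.trans h⟩
  · exact Or.inr (Or.inl ⟨a, hk.trans h⟩)
  · exact Or.inr (Or.inr ⟨a, hk.trans h⟩)

/-- the condition in `path` -/
private def PC (o : Fin 4) (n : Node) : Prop :=
  ((o = 0 ∧ n.pf = true ∧ n.pM = false ∧ n.wait = false) ∨
     (o = 1 ∧ n.pf = false ∧ n.pM = false ∧ n.wait = false) ∨
     (o = 2 ∧ n.pf = false ∧ n.pM = true ∧ n.wait = false) ∨ (o = 3 ∧ n.wait = true))

private lemma path_upd {S : Path → Option Node} {p q : Path} {n' : Node}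
    (h : ∀ o x, (o :: x) <:+ p → ∃ n, S x = some n ∧ PC o n) (hqp : q <:+ p) :
    ∀ o x, (o :: x) <:+ q → ∃ n, Function.update S q (some n') x = some n ∧ PC o n := by
  intro o x hx
  obtain ⟨n, h1, h2⟩ := h o x (hx.trans hqp)
  exact ⟨n, by rw [Function.update_of_ne (suffix_ne hx)]; exact h1, h2⟩

/-- the condition in `bnd` -/
private def BC (t : ℕ) (n : Node) : Prop :=
  n.c < t ∧ (∀ x ∈ n.dl, x < t) ∧ (∀ x ∈ n.r, x < t) ∧ n.s0 ≤ n.s1 ∧ n.s1 ≤ t

private lemma BC.mono {t : ℕ} {n : Node} (h : BC t n) : BC (t + 1) n :=
  ⟨by have := h.1; omega, fun x hx => by have := h.2.1 x hx; omega,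
    fun x hx => by have := h.2.2.1 x hx; omega, h.2.2.2.1, by have := h.2.2.2.2; omega⟩

/-- Preservation of the basic invariants. -/
theorem base_step (t : ℕ) (C C' : ACfg) (hB : Base t C) (h : Step t C C') : Base (t + 1) C' := by
  obtain ⟨hbnd, hbd, hinj, hpre, hpath, hupp⟩ := hB
  have hbnd' : ∀ w n, C.S w = some n → BC t n := hbnd
  have hpath' : ∀ o x, (o :: x) <:+ C.p → ∃ n, C.S x = some n ∧ PC o n := hpath
  have hbd' : ∀ x ∈ C.d, x < t + 1 := fun x hx => by have := hbd x hx; omega
  cases h with
  | emit S d =>
    refine ⟨fun w n hw => (hbnd' w n hw).mono, by simp, hinj, hpre, ?_, by simp⟩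
    intro o q hq
    simp at hq
  | upD S q d =>
    refine ⟨fun w n hw => (hbnd' w n hw).mono, hbd', hinj, hpre, ?_, ?_⟩
    · intro o x hx
      exact hpath o x (hx.trans (List.suffix_cons _ _))
    · intro _
      obtain ⟨n, hn, -⟩ := hpath 3 q (List.suffix_refl _)
      exact ⟨n, hn⟩
  | upN S q o d n ho hS hpf =>
    have hb := (hbnd' q n hS).mono
    refine ⟨upd_forall (P := BC (t + 1)) (fun w n hw => (hbnd' w n hw).mono)
      ⟨hb.1, hbd', hbd', hb.2.2.2.1, hb.2.2.2.2⟩, hbd', upd_inj hinj (inj_ne hinj hS rfl),
      upd_pre hpre (fun x hx _ => hpre q n hS x hx),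
      path_upd hpath' (List.suffix_cons _ _), fun _ => ⟨_, Function.update_self _ _ _⟩⟩
  | upP S q o d n ho hS hpf =>
    have hb := (hbnd' q n hS).mono
    have hd : ∀ x ∈ n.dl ++ d, x < t + 1 := by
      intro x hx
      rcases List.mem_append.1 hx with h | h
      · exact hb.2.1 x h
      · exact hbd' x h
    refine ⟨upd_forall (P := BC (t + 1)) (fun w n hw => (hbnd' w n hw).mono)
      ⟨hb.1, hb.2.1, hd, hb.2.2.2.1, hb.2.2.2.2⟩, hd, upd_inj hinj (inj_ne hinj hS rfl),
      upd_pre hpre (fun x hx _ => hpre q n hS x hx),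
      path_upd hpath' (List.suffix_cons _ _), fun _ => ⟨_, Function.update_self _ _ _⟩⟩
  | create S q d hS =>
    refine ⟨upd_forall (P := BC (t + 1)) (fun w n hw => (hbnd' w n hw).mono)
      ⟨by simp [fresh], by simp [fresh], by simp [fresh], by simp [fresh], by simp [fresh]⟩,
      by simp, upd_inj hinj ?_, upd_pre hpre ?_,
      path_upd hpath' (List.suffix_refl _), fun _ => ⟨_, Function.update_self _ _ _⟩⟩
    · intro w n _ hw hc
      have := (hbnd' w n hw).1
      simp only [fresh] at hc
      omega
    · intro x hx hne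
      rcases suffix_eq_or hx with h | ⟨o, ho⟩
      · exact absurd h.symm hne
      · obtain ⟨n, hn, -⟩ := hpath o x ho
        exact ⟨n, hn⟩
  | act S q d n hS hrm hPhi =>
    have hb := (hbnd' q n hS).mono
    refine ⟨upd_forall (P := BC (t + 1)) (fun w n hw => (hbnd' w n hw).mono)
      ⟨hb.1, hb.2.1, hb.2.2.1, hb.2.2.2.1, hb.2.2.2.2⟩, ?_, upd_inj hinj (inj_ne hinj hS rfl),
      upd_pre hpre (fun x hx _ => hpre q n hS x hx),
      path_upd hpath' (List.suffix_refl _), fun _ => ⟨_, Function.update_self _ _ _⟩⟩
    intro x hx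
    simp only [List.mem_singleton] at hx
    rw [hx]; exact hb.1
  | skip S q d n K hS hna hK hans =>
    have hb0 := hbnd' q n hS
    have hb := hb0.mono
    refine ⟨upd_forall (P := BC (t + 1)) (fun w n hw => (hbnd' w n hw).mono)
      ⟨hb.1, hb.2.1, hb.2.2.1, ?_, ?_⟩, by simp, upd_inj hinj (inj_ne hinj hS rfl),
      upd_pre hpre (fun x hx _ => hpre q n hS x hx), ?_, by simp⟩
    · have h1 := hb0.2.2.2.1
      have h2 := hb0.2.2.2.2
      simp only [nw]
      split_ifs <;> omega
    · have h1 := hb0.2.2.2.1
      have h2 := hb0.2.2.2.2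
      simp only [nw]
      split_ifs <;> omega
    · intro o x hx
      rcases suffix_cons_cases hx with h | h
      · rw [List.cons.injEq] at h
        obtain ⟨rfl, rfl⟩ := h
        exact ⟨nw t n, Function.update_self _ _ _, Or.inr (Or.inr (Or.inr ⟨rfl, rfl⟩))⟩
      · exact path_upd hpath' (List.suffix_refl _) o x h
  | own S q d n K b hS hna hK hans hpf hpM =>
    have hb0 := hbnd' q n hS
    have hb := hb0.mono
    refine ⟨upd_forall (P := BC (t + 1)) (fun w n hw => (hbnd' w n hw).mono)
      ⟨hb.1, hb.2.1, hb.2.1, ?_, ?_⟩, hb.2.1, upd_inj hinj (inj_ne hinj hS rfl),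
      upd_pre hpre (fun x hx _ => hpre q n hS x hx),
      path_upd hpath' (List.suffix_refl _), fun _ => ⟨_, Function.update_self _ _ _⟩⟩
    · simp only [na]
      exact le_refl _
    · have h1 := hb0.2.2.2.1
      have h2 := hb0.2.2.2.2
      simp only [na]
      split_ifs <;> omega
  | go S q d n K b hS hna hK hans hno =>
    have hb0 := hbnd' q n hS
    have hb := hb0.mono
    have hb1 : BC (t + 1) (na t n b) := by
      refine ⟨hb.1, hb.2.1, hb.2.2.1, ?_, ?_⟩
      · simp only [na]
        exact le_refl _
      · have h1 := hb0.2.2.2.1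
        have h2 := hb0.2.2.2.2
        simp only [na]
        split_ifs <;> omega
    have hS' : ∀ w m, (if Kill (outc n.pf (xor n.pM b)) q w then none
            else Function.update S q (some (na t n b)) w) = some m →
        ¬ Kill (outc n.pf (xor n.pM b)) q w ∧
          Function.update S q (some (na t n b)) w = some m := by
      intro w m hw
      split_ifs at hw with hk
      exact ⟨hk, hw⟩
    refine ⟨?_, by simp, ?_, ?_, ?_, by simp⟩
    · intro w m hw
      exact upd_forall (P := BC (t + 1)) (fun w n hw => (hbnd' w n hw).mono) hb1 w m (hS' w m hw).2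
    · intro w m w' m' hw hw' hc
      exact upd_inj (n' := na t n b) hinj (inj_ne hinj hS rfl) w m w' m' (hS' w m hw).2
        (hS' w' m' hw').2 hc
    · intro w m hw x hx
      obtain ⟨hk, hw2⟩ := hS' w m hw
      obtain ⟨k, hkk⟩ := upd_pre (n' := na t n b) hpre (fun x hx _ => hpre q n hS x hx) w m hw2 x hx
      refine ⟨k, ?_⟩
      show (if Kill (outc n.pf (xor n.pM b)) q x then none
            else Function.update S q (some (na t n b)) x) = some k
      rw [if_neg (fun h => hk (kill_down hx h))]
      exact hkk
    · intro o x hx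
      show ∃ m, (if Kill (outc n.pf (xor n.pM b)) q x then none
            else Function.update S q (some (na t n b)) x) = some m ∧ PC o m
      rcases suffix_cons_cases hx with h | h
      · rw [List.cons.injEq] at h
        obtain ⟨h1, rfl⟩ := h
        refine ⟨na t n b, ?_, ?_⟩
        · rw [if_neg (not_kill_of_suffix (List.suffix_refl _)), Function.update_self]
        · rw [h1]
          unfold PC outc na
          simp only []
          rcases Bool.eq_false_or_eq_true n.pf with hpf | hpf
          · have : (xor n.pM b) = false := by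
              by_contra hcon
              exact hno ⟨hpf, by simpa using hcon⟩
            left
            rw [hpf, this]
            simp
          · rcases Bool.eq_false_or_eq_true (xor n.pM b) with hx2 | hx2
            · right; right; left
              rw [hpf, hx2]
              simp
            · right; left
              rw [hpf, hx2]
              simp
      · obtain ⟨m, hm1, hm2⟩ := path_upd (n' := na t n b) hpath' (List.suffix_refl _) o x h
        refine ⟨m, ?_, hm2⟩
        rw [if_neg (not_kill_of_suffix (suffix_cons' h))]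
        exact hm1

end Pool.Agent.Helper158.FCD
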