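import Pool.Agent.Helper158.FCD.Small

set_option autoImplicit false
namespace Pool.Agent.Helper158.FCD

/-- the summand of `sumN` -/
def fs_term (S : Path → Option Node) (q : Path) (c : ℕ) : Bool :=
  match S q with
  | some n => !n.pf && par n.dl c
  | none => false

theorem fs_sumN_cons (S : Path → Option Node) (o : Fin 4) (q : Path) (c : ℕ) :
    sumN S (o :: q) c = xor (sumN S q c) (if o = 0 then fs_term S q c else false) := rfl

theorem fs_term_some {S : Path → Option Node} {q : Path} {n : Node} (h : S q = some n) (c : ℕ) :
    fs_term S q c = (!n.pf && par n.dl c) := by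
  unfold fs_term
  rw [h]

theorem fs_congr (S S' : Path → Option Node) (c : ℕ) (w : Path)
    (h : ∀ q, (0 :: q) <:+ w → fs_term S q c = fs_term S' q c) : sumN S w c = sumN S' w c := by
  induction w with
  | nil => rfl
  | cons o w ih =>
    rw [fs_sumN_cons, fs_sumN_cons, ih (fun q hq => h q (hq.trans (List.suffix_cons o w)))]
    by_cases ho : o = 0
    · subst ho
      rw [if_pos rfl, if_pos rfl, h w List.suffix_rfl]
    · rw [if_neg ho, if_neg ho]

theorem fs_zero (S : Path → Option Node) (c : ℕ) (w : Path)
    (h : ∀ q, (0 :: q) <:+ w → fs_term S q c = false) : sumN S w c = false := by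
  induction w with
  | nil => rfl
  | cons o w ih =>
    rw [fs_sumN_cons, ih (fun q hq => h q (hq.trans (List.suffix_cons o w)))]
    by_cases ho : o = 0
    · subst ho
      rw [if_pos rfl, h w List.suffix_rfl]
      rfl
    · rw [if_neg ho]
      rfl

theorem fs_update (S : Path → Option Node) (q : Path) (n' : Node) (c : ℕ) (w : Path) :
    sumN (Function.update S q (some n')) w c = xor (sumN S w c)
      (if (0 :: q) <:+ w then xor (fs_term S q c) (!n'.pf && par n'.dl c) else false) := by
  induction w with
  | nil =>
    rw [if_neg (by simp)]
    rfl
  | cons o w ih =>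
    rw [fs_sumN_cons, fs_sumN_cons, ih]
    by_cases hw : w = q
    · subst hw
      have h1 : ¬ ((0 : Fin 4) :: w) <:+ w := not_cons_suffix
      have h2 : fs_term (Function.update S w (some n')) w c = (!n'.pf && par n'.dl c) :=
        fs_term_some (Function.update_self w (some n') S) c
      rw [if_neg h1, h2]
      by_cases ho : o = 0
      · subst ho
        rw [if_pos rfl, if_pos rfl, if_pos List.suffix_rfl]
        cases sumN S w c <;> cases fs_term S w c <;> cases (!n'.pf && par n'.dl c) <;> rfl
      · have h3 : ¬ ((0 : Fin 4) :: w) <:+ (o :: w) := by
          intro h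
          rcases suffix_cons_cases h with h | h
          · exact ho (List.cons.inj h).1.symm
          · exact h1 h
        rw [if_neg ho, if_neg ho, if_neg h3]
    · have h2 : fs_term (Function.update S q (some n')) w c = fs_term S w c := by
        unfold fs_term
        rw [Function.update_of_ne hw]
      have h3 : ((0 : Fin 4) :: q) <:+ (o :: w) ↔ ((0 : Fin 4) :: q) <:+ w := by
        constructor
        · intro h
          rcases suffix_cons_cases h with h | h
          · exact absurd (List.cons.inj h).2.symm hw
          · exact h
        · intro h
          exact h.trans (List.suffix_cons o w)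
      rw [h2]
      simp only [h3]
      generalize (if ((0 : Fin 4) :: q) <:+ w then xor (fs_term S q c) (!n'.pf && par n'.dl c)
        else false) = z
      generalize (if o = 0 then fs_term S w c else false) = y
      cases sumN S w c <;> cases z <;> cases y <;> rfl

/-- update of a node without changing `pf` and `dl` -/
theorem fs_update_same {S : Path → Option Node} {q : Path} {n : Node} (h : S q = some n)
    (n' : Node) (h1 : n'.pf = n.pf) (h2 : n'.dl = n.dl) (c : ℕ) (w : Path) :
    sumN (Function.update S q (some n')) w c = sumN S w c := by
  rw [fs_update, fs_term_some h, h1, h2]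
  split_ifs <;> cases sumN S w c <;> cases (!n.pf && par n.dl c) <;> rfl

theorem fs_update_self (S : Path → Option Node) (q : Path) (n' : Node) (c : ℕ) :
    sumN (Function.update S q (some n')) q c = sumN S q c := by
  rw [fs_update, if_neg not_cons_suffix]
  cases sumN S q c <;> rfl

theorem fs_upd_self {S : Path → Option Node} {q : Path} {n' m : Node}
    (h : Function.update S q (some n') q = some m) : m = n' := by
  rw [Function.update_self] at h
  exact (Option.some.inj h).symm

theorem fs_upd_ne {S : Path → Option Node} {q w : Path} {n' m : Node} (hne : w ≠ q)
    (h : Function.update S q (some n') w = some m) : S w = some m := by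
  rw [Function.update_of_ne hne] at h
  exact h

/-- Preservation of the formula for `f`. -/
theorem finv_step (t : ℕ) (C C' : ACfg) (f : ℕ → Bool) (hB : Base t C) (hS : Supp C)
    (hF : FInv t C f) (h : Step t C C') :
    FInv (t + 1) C' (fun c => xor (f c) (par (emis C) c)) := by
  obtain ⟨hF1, hF2⟩ := hF
  refine ⟨?_, ?_⟩
  · intro c hc
    have h1 : par (emis C) c = false := by
      unfold emis
      split_ifs
      · exact par_of_lt hB.bd (by omega)
      · rfl
    show xor (f c) (par (emis C) c) = false
    rw [h1, hF1 c (by omega)]
    rfl
  · cases h with
    | emit S d =>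
      intro w m hw
      have h1 := hF2 w m hw
      have h2 : emis (⟨S, [], true, d⟩ : ACfg) = d := by simp [emis]
      simp only [h2]
      simp only [Bool.true_and] at h1
      simp only [Bool.false_and, Bool.xor_false]
      exact h1
    | upD S q d =>
      intro w m hw
      have h1 := hF2 w m hw
      have h2 : emis (⟨S, 3 :: q, true, d⟩ : ACfg) = [] := by simp [emis]
      simp only [h2, par_nil, Bool.xor_false]
      exact h1
    | upN S q o d n ho hSq hpf =>
      intro w m hw
      have h2 : emis (⟨S, o :: q, true, d⟩ : ACfg) = [] := by simp [emis]
      simp only [h2, par_nil, Bool.xor_false]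
      have hsum : ∀ (w : Path) (c : ℕ), sumN (Function.update S q (some ⟨n.c, n.rm, n.wait, d,
          n.pf, n.pM, n.s0, n.s1, d⟩)) w c = sumN S w c := by
        intro w c
        rw [fs_update, fs_term_some hSq, hpf]
        split_ifs <;> cases sumN S w c <;> rfl
      rw [hsum]
      by_cases hwq : w = q
      · subst hwq
        obtain rfl := fs_upd_self hw
        exact hF2 w n hSq
      · have h3 : S w = some m := fs_upd_ne hwq hw
        exact hF2 w m h3
    | upP S q o d n ho hSq hpf =>
      intro w m hw
      have h2 : emis (⟨S, o :: q, true, d⟩ : ACfg) = [] := by simp [emis]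
      simp only [h2, par_nil, Bool.xor_false]
      have hsum : ∀ (w : Path) (k : Node), S w = some k →
          sumN (Function.update S q (some ⟨n.c, n.rm, n.wait, n.dl,
          true, n.pM, n.s0, n.s1, n.dl ++ d⟩)) w k.c = xor (sumN S w k.c) (par n.dl k.c) := by
        intro w k hk
        rw [fs_update, fs_term_some hSq, hpf]
        split_ifs with hs
        · cases sumN S w k.c <;> cases par n.dl k.c <;> rfl
        · rw [hS.j2 q n hSq w k hk hs]
      by_cases hwq : w = q
      · subst hwq
        obtain rfl := fs_upd_self hw
        have h4 := hF2 w n hSq
        have h5 := hsum w n hSq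
        simp only [Bool.true_and, par_append] at h4 ⊢
        rw [h5]
        revert h4
        generalize f n.c = a1
        generalize par d n.c = a2
        generalize par n.dl n.c = a3
        generalize sumN S w n.c = a4
        generalize decide (n.rm ≠ 0) = a5
        cases a1 <;> cases a2 <;> cases a3 <;> cases a4 <;> cases a5 <;> simp
      · have h3 : S w = some m := fs_upd_ne hwq hw
        have h4 := hF2 w m h3
        have h5 := hsum w m h3
        simp only [Bool.true_and, par_append] at h4 ⊢
        rw [h5]
        revert h4
        generalize f m.c = a1
        generalize par d m.c = a2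
        generalize par n.dl m.c = a3
        generalize sumN S w m.c = a4
        generalize decide (m.rm ≠ 0) = a5
        cases a1 <;> cases a2 <;> cases a3 <;> cases a4 <;> cases a5 <;> simp
    | create S q d hSq =>
      intro w m hw
      have h2 : emis (⟨S, q, false, d⟩ : ACfg) = [] := by simp [emis]
      simp only [h2, par_nil, Bool.xor_false, Bool.and_false]
      by_cases hwq : w = q
      · subst hwq
        obtain rfl := fs_upd_self hw
        rw [fs_update_self]
        have h4 : sumN S w t = false := by
          apply fs_zero
          intro q' hq'
          obtain ⟨k, hk, hk'⟩ := hB.path 0 q' hq'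
          rw [fs_term_some hk]
          have h5 : k.pf = true := by
            rcases hk' with h | h | h | h
            · exact h.2.1
            · exact absurd h.1 (by decide)
            · exact absurd h.1 (by decide)
            · exact absurd h.1 (by decide)
          rw [h5]
          rfl
        show f t = xor (decide ((0 : ℕ) ≠ 0)) (sumN S w t)
        rw [h4, hF1 t le_rfl]
        rfl
      · have h3 : S w = some m := fs_upd_ne hwq hw
        have h4 := hF2 w m h3
        have h5 : ¬ ((0 : Fin 4) :: q) <:+ w := by
          intro hs
          obtain ⟨k, hk⟩ := hB.pre w m h3 q (suffix_cons' hs)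
          have h6 : S q = some k := hk
          rw [hSq] at h6
          exact absurd h6 (by simp)
        rw [fs_update, if_neg h5]
        simp only [Bool.false_and, Bool.xor_false] at h4 ⊢
        exact h4
    | act S q d n hSq hrm hPhi =>
      intro w m hw
      have h2 : emis (⟨S, q, false, d⟩ : ACfg) = [] := by simp [emis]
      simp only [h2, par_nil, Bool.xor_false]
      rw [fs_update_same hSq ⟨n.c, 1, n.wait, n.dl, n.pf, n.pM, n.s0, n.s1, n.r⟩ rfl rfl]
      by_cases hwq : w = q
      · subst hwq
        obtain rfl := fs_upd_self hw
        have h4 := hF2 w n hSq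
        simp only [Bool.false_and, Bool.xor_false, hrm] at h4
        simp only [Bool.true_and, par_cons, par_nil, Bool.xor_false]
        rw [h4]
        simp
      · have h3 : S w = some m := fs_upd_ne hwq hw
        have h4 := hF2 w m h3
        have h5 : n.c ≠ m.c := by
          intro hc
          exact hwq (hB.inj q n w m hSq h3 hc).symm
        simp only [Bool.false_and, Bool.xor_false] at h4
        simp only [Bool.true_and, par_cons, par_nil, Bool.xor_false, h5, decide_false]
        exact h4
    | skip S q d n K hSq hna hK hans =>
      intro w m hw
      have h2 : emis (⟨S, q, false, d⟩ : ACfg) = [] := by simp [emis]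
      simp only [h2, par_nil, Bool.xor_false]
      rw [fs_update_same hSq (nw t n) rfl rfl]
      by_cases hwq : w = q
      · subst hwq
        obtain rfl := fs_upd_self hw
        have h4 := hF2 w n hSq
        have h5 : decide ((nw t n).rm ≠ 0) = decide (n.rm ≠ 0) := by
          show decide ((if n.rm = 0 then 0 else 2) ≠ 0) = decide (n.rm ≠ 0)
          by_cases hr : n.rm = 0 <;> simp [hr]
        rw [h5]
        simp only [Bool.false_and, Bool.xor_false] at h4 ⊢
        exact h4
      · have h3 : S w = some m := fs_upd_ne hwq hw
        have h4 := hF2 w m h3
        simp only [Bool.false_and, Bool.xor_false] at h4 ⊢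
        exact h4
    | own S q d n K b hSq hna hK hans hpf hpM =>
      intro w m hw
      have h2 : emis (⟨S, q, false, d⟩ : ACfg) = [] := by simp [emis]
      simp only [h2, par_nil, Bool.xor_false]
      have hsum : ∀ (w : Path) (k : Node), S w = some k →
          sumN (Function.update S q (some ⟨(na t n b).c, (na t n b).rm, false, n.dl, false,
          (na t n b).pM, (na t n b).s0, (na t n b).s1, n.dl⟩)) w k.c =
          xor (sumN S w k.c) (par n.dl k.c) := by
        intro w k hk
        rw [fs_update, fs_term_some hSq, hpf]
        split_ifs with hs
        · cases sumN S w k.c <;> cases par n.dl k.c <;> rfl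
        · rw [hS.j2 q n hSq w k hk hs]
      by_cases hwq : w = q
      · subst hwq
        obtain rfl := fs_upd_self hw
        have h4 := hF2 w n hSq
        have h5 := hsum w n hSq
        have h6 : decide ((na t n b).rm ≠ 0) = decide (n.rm ≠ 0) := by
          show decide ((if n.rm = 0 then 0 else 2) ≠ 0) = decide (n.rm ≠ 0)
          by_cases hr : n.rm = 0 <;> simp [hr]
        show xor (f n.c) (true && par n.dl n.c) = xor (decide ((na t n b).rm ≠ 0))
          (sumN (Function.update S w (some ⟨(na t n b).c, (na t n b).rm, false, n.dl, false,
          (na t n b).pM, (na t n b).s0, (na t n b).s1, n.dl⟩)) w n.c)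
        rw [h5, h6]
        simp only [Bool.false_and, Bool.xor_false, Bool.true_and] at h4 ⊢
        rw [h4, Bool.xor_assoc]
      · have h3 : S w = some m := fs_upd_ne hwq hw
        have h4 := hF2 w m h3
        have h5 := hsum w m h3
        rw [h5]
        simp only [Bool.false_and, Bool.xor_false, Bool.true_and] at h4 ⊢
        rw [h4, Bool.xor_assoc]
    | go S q d n K b hSq hna hK hans hno =>
      intro w m hw
      have h2 : emis (⟨S, q, false, d⟩ : ACfg) = [] := by simp [emis]
      simp only [h2, par_nil, Bool.xor_false]
      have hk : ¬ Kill (outc n.pf (xor n.pM b)) q w := by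
        intro hk
        have h3 : (none : Option Node) = some m := by
          rw [← hw]
          exact (if_pos hk).symm
        exact absurd h3 (by simp)
      have hw' : Function.update S q (some (na t n b)) w = some m := by
        rw [← hw]
        exact (if_neg hk).symm
      have hsum : ∀ c, sumN (fun w => if Kill (outc n.pf (xor n.pM b)) q w then none
            else Function.update S q (some (na t n b)) w) w c = sumN S w c := by
        intro c
        rw [← fs_update_same hSq (na t n b) rfl rfl]
        apply fs_congr
        intro q' hq'
        have hk' : ¬ Kill (outc n.pf (xor n.pM b)) q q' := by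
          intro hk'
          apply hk
          have hs : q' <:+ w := suffix_cons' hq'
          rcases hk' with h | h | h
          · exact Or.inl ⟨h.1, h.2.trans hs⟩
          · exact Or.inr (Or.inl ⟨h.1, h.2.trans hs⟩)
          · exact Or.inr (Or.inr ⟨h.1, h.2.trans hs⟩)
        unfold fs_term
        simp only [if_neg hk']
      rw [hsum]
      by_cases hwq : w = q
      · subst hwq
        obtain rfl := fs_upd_self hw'
        have h4 := hF2 w n hSq
        have h5 : decide ((na t n b).rm ≠ 0) = decide (n.rm ≠ 0) := by
          show decide ((if n.rm = 0 then 0 else 2) ≠ 0) = decide (n.rm ≠ 0)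
          by_cases hr : n.rm = 0 <;> simp [hr]
        rw [h5]
        simp only [Bool.false_and, Bool.xor_false] at h4 ⊢
        exact h4
      · have h3 : S w = some m := fs_upd_ne hwq hw'
        have h4 := hF2 w m h3
        simp only [Bool.false_and, Bool.xor_false] at h4 ⊢
        exact h4

end Pool.Agent.Helper158.FCD
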