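import Pool.Agent.Helper158.FCD.Small

set_option autoImplicit false
namespace Pool.Agent.Helper158.FCD

/-- `S'` has the same nodes as `S`, up to deletions and a change of the data of `q` other than its
coordinate -/
def FSim (q : Path) (S S' : Path → Option Node) : Prop :=
  ∀ w m', S' w = some m' → ∃ m, S w = some m ∧ m.c = m'.c ∧ (w ≠ q → m = m')

lemma fsim_update {q : Path} {S : Path → Option Node} {n n' : Node} (hS : S q = some n)
    (hc : n.c = n'.c) : FSim q S (Function.update S q (some n')) := by
  intro w m' hw
  by_cases h : w = q
  · subst h
    rw [Function.update_self] at hw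
    simp only [Option.some.injEq] at hw
    subst hw
    exact ⟨n, hS, hc, fun h => absurd rfl h⟩
  · rw [Function.update_of_ne h] at hw
    exact ⟨m', hw, rfl, fun _ => rfl⟩

lemma fsim_coord {q : Path} {S S' : Path → Option Node} (h : FSim q S S') {w : Path} {m' : Node}
    (hw : S' w = some m') : ∃ m, S w = some m ∧ m.c = m'.c := by
  obtain ⟨m, h1, h2, _⟩ := h w m' hw
  exact ⟨m, h1, h2⟩

lemma good_mono {S S' : Path → Option Node} {s : Path} {k : Node} {x : List ℕ}
    (h : Good S s k x)
    (hS : ∀ w m', Rel s w → S' w = some m' → ∃ m, S w = some m ∧ m.c = m'.c) :
    Good S' s k x := by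
  refine ⟨?_, h.2⟩
  rcases h.1 with h1 | ⟨h1, h2⟩
  · left
    intro w m' hr hw
    obtain ⟨m, hm, hc⟩ := hS w m' hr hw
    rw [← hc]
    exact h1 w m hr hm
  · right
    refine ⟨h1, ?_⟩
    intro w m' hr hw
    obtain ⟨m, hm, hc⟩ := hS w m' hr hw
    rw [← hc]
    exact h2 w m hr hm

lemma good_sim {q : Path} {S S' : Path → Option Node} {s : Path} {k : Node} {x : List ℕ}
    (h : Good S s k x) (hS : FSim q S S') : Good S' s k x :=
  good_mono h (fun _ _ _ hw => fsim_coord hS hw)

lemma good_zero {S : Path → Option Node} {s : Path} {k : Node} {x : List ℕ} (hs : S s = some k)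
    (h : ∀ w m, s <:+ w → S w = some m → par x m.c = false) : Good S s k x := by
  refine ⟨Or.inl ?_, ?_⟩
  · intro w m hr hw
    exact h w m (rel_suffix hr) hw
  · intro hx
    rw [h s k List.suffix_rfl hs] at hx
    exact absurd hx (by simp)

lemma good_same {S : Path → Option Node} {s : Path} {k : Node} {x : List ℕ}
    (hw : k.wait = false) (hr : k.r = x) (hc : par x k.c = false) : Good S s k x := by
  refine ⟨Or.inr ⟨hw, ?_⟩, ?_⟩
  · intro w m _ _
    rw [hr]
  · intro hx
    rw [hc] at hx
    exact absurd hx (by simp)

lemma good_congr {S : Path → Option Node} {s : Path} {k : Node} {x y : List ℕ} (hs : S s = some k)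
    (h : Good S s k x) (hxy : ∀ w m, s <:+ w → S w = some m → par y m.c = par x m.c) :
    Good S s k y := by
  refine ⟨?_, ?_⟩
  · rcases h.1 with h1 | ⟨h1, h2⟩
    · left
      intro w m hr hw
      rw [hxy w m (rel_suffix hr) hw]
      exact h1 w m hr hw
    · right
      refine ⟨h1, ?_⟩
      intro w m hr hw
      rw [hxy w m (rel_suffix hr) hw]
      exact h2 w m hr hw
  · intro hy
    rw [hxy s k List.suffix_rfl hs] at hy
    exact h.2 hy

lemma j1_one {C : ACfg} (hF : Flow C) {q : Path} {S' : Path → Option Node}
    (hsim : FSim q C.S S') {q' s : Path} {n' k : Node} (hq' : S' q' = some n')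
    (hdl : ∀ n, C.S q' = some n → n.dl = n'.dl) (hs : S' s = some k) (h0 : (0 :: q') <:+ s)
    (hne : ¬ ((0 :: q') <:+ q)) (hp : ¬ ((0 :: q') <:+ C.p)) : Good S' s k n'.dl := by
  obtain ⟨n, hn, _, _⟩ := hsim q' n' hq'
  obtain ⟨m, hm, _, hm2⟩ := hsim s k hs
  have hsq : s ≠ q := by
    rintro rfl
    exact hne h0
  have hmk := hm2 hsq
  subst hmk
  rw [← hdl n hn]
  exact good_sim (hF.j1 q' n s m hn hm h0 hp) hsim

/-- the situation in which only the data of `q` change, without changing `dl` -/
lemma j1_gen {C : ACfg} (hF : Flow C) {q : Path} {S' : Path → Option Node} {p' : Path}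
    (hsim : FSim q C.S S') (hdl : ∀ n n', C.S q = some n → S' q = some n' → n.dl = n'.dl)
    (hex : ∀ q', (0 :: q') <:+ C.p → (0 :: q') <:+ p')
    (hq : ∀ q' : Path, (0 :: q') <:+ q → (0 :: q') <:+ p') :
    ∀ q' n s k, S' q' = some n → S' s = some k → (0 :: q') <:+ s →
      ¬ ((0 :: q') <:+ p') → Good S' s k n.dl := by
  intro q' n' s k hq' hs h0 hnp
  apply j1_one hF hsim hq' _ hs h0 (fun h => hnp (hq q' h)) (fun h => hnp (hex q' h))
  intro n hn
  by_cases h : q' = q
  · subst h
    exact hdl n n' hn hq'
  · obtain ⟨m, hm, _, hm2⟩ := hsim q' n' hq'
    have := hm2 h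
    subst this
    rw [hn] at hm
    simp only [Option.some.injEq] at hm
    rw [hm]

lemma ne_of_below {q s w : Path} (hqs : q <:+ s) (hne : s ≠ q) (hsw : s <:+ w) : w ≠ q := by
  rintro rfl
  have h1 := hqs.length_le
  have h2 := hsw.length_le
  exact hne (hsw.eq_of_length (by omega))

/-- Preservation of the flow conditions. -/
theorem flow_step (t : ℕ) (C C' : ACfg) (hB : Base t C) (hS : Supp C) (hF : Flow C)
    (h : Step t C C') : Flow C' := by
  cases h with
  | emit S d =>
    refine ⟨?_, ?_⟩
    · intro q n s k hq hs h0 hnp
      exact hF.j1 q n s k hq hs h0 hnp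
    · intro hup
      exact absurd hup (by simp)
  | upD S q d =>
    refine ⟨?_, ?_⟩
    · intro q' n s k hq' hs h0 hnp
      refine hF.j1 q' n s k hq' hs h0 ?_
      intro hcon
      rcases suffix_cons_cases hcon with h | h
      · simp at h
      · exact hnp h
    · intro _ s k hs hqs
      have hj4 := hS.j4 rfl
      have hj3 := hF.j3 rfl
      simp only at hj4 hj3 hs hqs ⊢
      rcases suffix_eq_or hqs with rfl | ⟨o, ho⟩
      · refine ⟨Or.inl ?_, ?_⟩
        · intro w m hr hw
          apply hj4 w m hw
          intro h3
          rcases hr with h | h | h <;> exact absurd (suffix_head h h3) (by decide)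
        · intro hx
          rw [hj4 s k hs not_cons_suffix] at hx
          exact absurd hx (by simp)
      · by_cases h3 : o = 3
        · subst h3
          exact hj3 s k hs ho
        · apply good_zero hs
          intro w m hsw hw
          apply hj4 w m hw
          intro h
          exact h3 (suffix_head (ho.trans hsw) h)
  | upN S q o d n ho hSq hpf =>
    have hj4 := hS.j4 rfl
    have hj3 := hF.j3 rfl
    have hpath := hB.path o q List.suffix_rfl
    simp only at hj4 hj3 hpath
    obtain ⟨n1, hn1, hcase⟩ := hpath
    rw [hSq] at hn1
    simp only [Option.some.injEq] at hn1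
    subst hn1
    have ho0 : o = 0 ∧ n.wait = false := by
      rcases hcase with h | h | h | h
      · exact ⟨h.1, h.2.2.2⟩
      · rw [hpf] at h; simp at h
      · rw [hpf] at h; simp at h
      · exact absurd h.1 ho
    obtain ⟨rfl, hwait⟩ := ho0
    have hsim : FSim q S (Function.update S q
        (some ⟨n.c, n.rm, n.wait, d, n.pf, n.pM, n.s0, n.s1, d⟩)) := fsim_update hSq rfl
    refine ⟨?_, ?_⟩
    · intro q' n' s k hq' hs h0 hnp
      simp only at hq' hs hnp
      by_cases hqq : q' = q
      · subst hqq
        rw [Function.update_self] at hq'
        simp only [Option.some.injEq] at hq'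
        subst hq'
        have hsq : s ≠ q' := by
          rintro rfl
          exact not_cons_suffix h0
        rw [Function.update_of_ne hsq] at hs
        exact good_sim (hj3 s k hs h0) hsim
      · apply j1_one hF hsim hq' _ hs h0 hnp
        · intro h
          rcases suffix_cons_cases h with h | h
          · simp only [List.cons.injEq, true_and] at h
            exact hqq h
          · exact hnp h
        · intro n2 hn2
          rw [Function.update_of_ne hqq] at hq'
          simp only at hn2
          rw [hn2] at hq'
          simp only [Option.some.injEq] at hq'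
          rw [hq']
    · intro _ s k hs hqs
      simp only at hs hqs ⊢
      rcases suffix_eq_or hqs with rfl | ⟨o', ho'⟩
      · rw [Function.update_self] at hs
        simp only [Option.some.injEq] at hs
        subst hs
        exact good_same hwait rfl (hj4 s n hSq not_cons_suffix)
      · have hsq : s ≠ q := by
          rintro rfl
          exact not_cons_suffix ho'
        rw [Function.update_of_ne hsq] at hs
        by_cases h3 : o' = 0
        · subst h3
          exact good_sim (hj3 s k hs ho') hsim
        · apply good_sim _ hsim
          apply good_zero hs
          intro w m hsw hw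
          apply hj4 w m hw
          intro h
          exact h3 (suffix_head (ho'.trans hsw) h)
  | upP S q o d n ho hSq hpf =>
    have hj4 := hS.j4 rfl
    have hj2 := hS.j2 q n hSq
    have hj3 := hF.j3 rfl
    have hj1 := hF.j1 q n
    have hpath := hB.path o q List.suffix_rfl
    simp only at hj4 hj3 hpath hj2 hj1
    obtain ⟨n1, hn1, hcase⟩ := hpath
    rw [hSq] at hn1
    simp only [Option.some.injEq] at hn1
    subst hn1
    have ho0 : o ≠ 0 ∧ n.wait = false := by
      rcases hcase with h | h | h | h
      · rw [hpf] at h; simp at h
      · exact ⟨by rw [h.1]; decide, h.2.2.2⟩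
      · exact ⟨by rw [h.1]; decide, h.2.2.2⟩
      · exact absurd h.1 ho
    obtain ⟨ho0, hwait⟩ := ho0
    have hsim : FSim q S (Function.update S q
        (some ⟨n.c, n.rm, n.wait, n.dl, true, n.pM, n.s0, n.s1, n.dl ++ d⟩)) :=
      fsim_update hSq rfl
    refine ⟨?_, ?_⟩
    · apply j1_gen hF hsim
      · intro m m' hm hm'
        rw [Function.update_self] at hm'
        simp only [Option.some.injEq] at hm' hm
        subst hm'
        rw [hSq] at hm
        simp only [Option.some.injEq] at hm
        rw [hm]
      · intro q' h
        rcases suffix_cons_cases h with h | h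
        · simp only [List.cons.injEq] at h
          exact absurd h.1.symm ho0
        · exact h
      · intro q' h
        exact h
    · intro _ s k hs hqs
      simp only at hs hqs ⊢
      rcases suffix_eq_or hqs with rfl | ⟨o', ho'⟩
      · rw [Function.update_self] at hs
        simp only [Option.some.injEq] at hs
        subst hs
        refine good_same hwait rfl ?_
        show par (n.dl ++ d) n.c = false
        rw [par_append, hj2 s n hSq not_cons_suffix, hj4 s n hSq not_cons_suffix]
        rfl
      · have hsq : s ≠ q := by
          rintro rfl
          exact not_cons_suffix ho'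
        rw [Function.update_of_ne hsq] at hs
        apply good_sim _ hsim
        by_cases h3 : o' = 0
        · subst h3
          have hg : Good S s k n.dl := by
            apply hj1 s k hSq hs ho'
            intro h
            rcases suffix_cons_cases h with h | h
            · simp only [List.cons.injEq, and_true] at h
              exact ho0 h.symm
            · exact not_cons_suffix h
          apply good_congr hs hg
          intro w m hsw hw
          rw [par_append, hj4 w m hw, Bool.xor_false]
          intro h
          exact ho0 (suffix_head (ho'.trans hsw) h).symm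
        · have hz : ∀ w m, s <:+ w → S w = some m → par (n.dl ++ d) m.c = par d m.c := by
            intro w m hsw hw
            rw [par_append, hj2 w m hw, Bool.false_xor]
            intro h
            exact h3 (suffix_head (ho'.trans hsw) h)
          by_cases h4 : o' = o
          · subst h4
            exact good_congr hs (hj3 s k hs ho') hz
          · apply good_zero hs
            intro w m hsw hw
            rw [hz w m hsw hw]
            apply hj4 w m hw
            intro h
            exact h4 (suffix_head (ho'.trans hsw) h)
  | create S q d hSq =>
    have hpre := hB.pre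
    have hj1 := hF.j1
    simp only at hpre hj1
    refine ⟨?_, ?_⟩
    · intro q' n' s k hq' hs h0 hnp
      simp only at hq' hs hnp
      have hsq : s ≠ q := by
        rintro rfl
        exact hnp h0
      rw [Function.update_of_ne hsq] at hs
      have hqq : q' ≠ q := by
        rintro rfl
        obtain ⟨k', hk'⟩ := hpre s k hs q' (suffix_cons' h0)
        rw [hSq] at hk'
        exact absurd hk' (by simp)
      rw [Function.update_of_ne hqq] at hq'
      apply good_mono (hj1 q' n' s k hq' hs h0 hnp)
      intro w m' hr hw
      have hwq : w ≠ q := by
        rintro rfl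
        exact hnp (h0.trans (rel_suffix hr))
      simp only at hw
      rw [Function.update_of_ne hwq] at hw
      exact ⟨m', hw, rfl⟩
    · intro _ s k hs hqs
      simp only at hs hqs ⊢
      apply good_zero hs
      intro w m _ _
      rfl
  | act S q d n hSq hrm hPhi =>
    have hinj := hB.inj
    simp only at hinj
    have hsim : FSim q S (Function.update S q
        (some ⟨n.c, 1, n.wait, n.dl, n.pf, n.pM, n.s0, n.s1, n.r⟩)) := fsim_update hSq rfl
    refine ⟨?_, ?_⟩
    · apply j1_gen hF hsim
      · intro m m' hm hm'
        rw [Function.update_self] at hm'
        simp only [Option.some.injEq] at hm' hm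
        subst hm'
        rw [hSq] at hm
        simp only [Option.some.injEq] at hm
        rw [hm]
      · intro q' h
        exact h
      · intro q' h
        exact h
    · intro _ s k hs hqs
      simp only at hs hqs ⊢
      have hz : ∀ w m, w ≠ q → S w = some m → par [n.c] m.c = false := by
        intro w m hwq hw
        have : n.c ≠ m.c := by
          intro h
          exact hwq (hinj q n w m hSq hw h).symm
        simp [this]
      by_cases hsq : s = q
      · subst hsq
        rw [Function.update_self] at hs
        simp only [Option.some.injEq] at hs
        subst hs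
        refine ⟨Or.inl ?_, fun _ => rfl⟩
        intro w m hr hw
        have hwq := rel_ne hr
        rw [Function.update_of_ne hwq] at hw
        exact hz w m hwq hw
      · apply good_zero hs
        intro w m hsw hw
        have hwq := ne_of_below hqs hsq hsw
        rw [Function.update_of_ne hwq] at hw
        exact hz w m hwq hw
  | skip S q d n K hSq hna hK hans =>
    have hsim : FSim q S (Function.update S q (some (nw t n))) := fsim_update hSq rfl
    refine ⟨?_, ?_⟩
    · apply j1_gen hF hsim
      · intro m m' hm hm'
        rw [Function.update_self] at hm'
        simp only [Option.some.injEq] at hm' hm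
        subst hm'
        rw [hSq] at hm
        simp only [Option.some.injEq] at hm
        rw [← hm]
        rfl
      · intro q' h
        exact h.trans (List.suffix_cons _ _)
      · intro q' h
        exact h.trans (List.suffix_cons _ _)
    · intro hup
      exact absurd hup (by simp)
  | own S q d n K b hSq hna hK hans hpf hpM =>
    have hj2 := hS.j2 q n hSq
    have hj1 := hF.j1 q n
    simp only at hj2 hj1
    have hsim : FSim q S (Function.update S q (some ⟨(na t n b).c, (na t n b).rm, false, n.dl,
      false, (na t n b).pM, (na t n b).s0, (na t n b).s1, n.dl⟩)) := fsim_update hSq rfl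
    refine ⟨?_, ?_⟩
    · apply j1_gen hF hsim
      · intro m m' hm hm'
        rw [Function.update_self] at hm'
        simp only [Option.some.injEq] at hm' hm
        subst hm'
        rw [hSq] at hm
        simp only [Option.some.injEq] at hm
        rw [hm]
      · intro q' h
        exact h
      · intro q' h
        exact h
    · intro _ s k hs hqs
      simp only at hs hqs ⊢
      rcases suffix_eq_or hqs with rfl | ⟨o', ho'⟩
      · rw [Function.update_self] at hs
        simp only [Option.some.injEq] at hs
        subst hs
        refine good_same rfl rfl ?_
        exact hj2 s n hSq not_cons_suffix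
      · have hsq : s ≠ q := by
          rintro rfl
          exact not_cons_suffix ho'
        rw [Function.update_of_ne hsq] at hs
        apply good_sim _ hsim
        by_cases h3 : o' = 0
        · subst h3
          exact hj1 s k hSq hs ho' not_cons_suffix
        · apply good_zero hs
          intro w m hsw hw
          apply hj2 w m hw
          intro h
          exact h3 (suffix_head (ho'.trans hsw) h)
  | go S q d n K b hSq hna hK hans hno =>
    have hsim0 : FSim q S (Function.update S q (some (na t n b))) := fsim_update hSq rfl
    have hsim : FSim q S (fun w => if Kill (outc n.pf (xor n.pM b)) q w then none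
            else Function.update S q (some (na t n b)) w) := by
      intro w m' hw
      simp only at hw
      split_ifs at hw with hk
      exact hsim0 w m' hw
    refine ⟨?_, ?_⟩
    · apply j1_gen hF hsim
      · intro m m' hm hm'
        split_ifs at hm' with hk
        rw [Function.update_self] at hm'
        simp only [Option.some.injEq] at hm' hm
        subst hm'
        rw [hSq] at hm
        simp only [Option.some.injEq] at hm
        rw [← hm]
        rfl
      · intro q' h
        exact h.trans (List.suffix_cons _ _)
      · intro q' h
        exact h.trans (List.suffix_cons _ _)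
    · intro hup
      exact absurd hup (by simp)

end Pool.Agent.Helper158.FCD
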