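import Pool.Agent.Helper158.FCD.Small

set_option autoImplicit false
namespace Pool.Agent.Helper158.FCD

lemma zeroOn_nil (S : Path → Option Node) (s : Path) : ZeroOn S s [] := by
  intro w m _ _
  rfl

lemma zeroOn_mono {S S' : Path → Option Node} {s : Path} {x : List ℕ}
    (h : ∀ w m, S' w = some m → ∃ m', S w = some m' ∧ m'.c = m.c)
    (hz : ZeroOn S s x) : ZeroOn S' s x := by
  intro w m hr hw
  obtain ⟨m', h1, h2⟩ := h w m hw
  rw [← h2]
  exact hz w m' hr h1

lemma sameOn_mono {S S' : Path → Option Node} {s : Path} {x y : List ℕ}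
    (h : ∀ w m, S' w = some m → ∃ m', S w = some m' ∧ m'.c = m.c)
    (hz : SameOn S s x y) : SameOn S' s x y := by
  intro w m hr hw
  obtain ⟨m', h1, h2⟩ := h w m hw
  rw [← h2]
  exact hz w m' hr h1

lemma hist_gen (t : ℕ) (C C' : ACfg) (v : ℕ → List ℕ) (hH : Hist t C v) (hv : v t = [])
    (q : Path)
    (hc : ∀ w m, C'.S w = some m → ∃ m', C.S w = some m' ∧ m'.c = m.c)
    (hk : ∀ w m, w ≠ q → C'.S w = some m → C.S w = some m)
    (hp : ∀ o s, s ≠ q → (o :: s) <:+ C'.p → (o :: s) <:+ C.p)
    (hq : ∀ k, C'.S q = some k →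
      (k.wait = true → ∀ x, k.s1 ≤ x → x < t → ZeroOn C.S q (v x)) ∧
      (∀ x, k.s0 ≤ x → x < t → ZeroOn C.S q (v x) ∨ SameOn C.S q (v x) k.r) ∧
      (k.wait = false → (∃ o, (o :: q) <:+ C'.p) →
        ∀ x, k.s0 ≤ x → x < t → ZeroOn C.S q (v x))) : Hist (t + 1) C' v := by
  intro s k hs
  have key : (k.wait = true → ∀ x, k.s1 ≤ x → x < t → ZeroOn C.S s (v x)) ∧
      (∀ x, k.s0 ≤ x → x < t → ZeroOn C.S s (v x) ∨ SameOn C.S s (v x) k.r) ∧
      (k.wait = false → (∃ o, (o :: s) <:+ C'.p) →
        ∀ x, k.s0 ≤ x → x < t → ZeroOn C.S s (v x)) := by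
    by_cases hsq : s = q
    · subst hsq
      exact hq k hs
    · obtain ⟨h1, h2, h3⟩ := hH s k (hk s k hsq hs)
      refine ⟨h1, h2, fun hw ⟨o, ho⟩ => h3 hw ⟨o, hp o s hsq ho⟩⟩
  obtain ⟨h1, h2, h3⟩ := key
  refine ⟨fun hw x hx hxt => ?_, fun x hx hxt => ?_, fun hw ho x hx hxt => ?_⟩
  · rcases Nat.lt_succ_iff_lt_or_eq.1 hxt with h | h
    · exact zeroOn_mono hc (h1 hw x hx h)
    · rw [h, hv]; exact zeroOn_nil _ _
  · rcases Nat.lt_succ_iff_lt_or_eq.1 hxt with h | h
    · rcases h2 x hx h with h4 | h4
      · exact Or.inl (zeroOn_mono hc h4)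
      · exact Or.inr (sameOn_mono hc h4)
    · rw [h, hv]; exact Or.inl (zeroOn_nil _ _)
  · rcases Nat.lt_succ_iff_lt_or_eq.1 hxt with h | h
    · exact zeroOn_mono hc (h3 hw ho x hx h)
    · rw [h, hv]; exact zeroOn_nil _ _

lemma upd_c {S : Path → Option Node} {q : Path} {n n' : Node} (hS : S q = some n)
    (hc : n.c = n'.c) : ∀ w m, Function.update S q (some n') w = some m →
      ∃ m', S w = some m' ∧ m'.c = m.c := by
  intro w m hw
  by_cases h : w = q
  · subst h
    rw [Function.update_self] at hw
    cases hw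
    exact ⟨n, hS, hc⟩
  · rw [Function.update_of_ne h] at hw
    exact ⟨m, hw, rfl⟩

lemma upd_k {S : Path → Option Node} {q : Path} {n' : Node} : ∀ w m, w ≠ q →
    Function.update S q (some n') w = some m → S w = some m := by
  intro w m h hw
  rwa [Function.update_of_ne h] at hw

lemma up_wait {t : ℕ} {S : Path → Option Node} {q : Path} {o : Fin 4} {d : List ℕ} {n : Node}
    (hB : Base t ⟨S, o :: q, true, d⟩) (ho : o ≠ 3) (hS : S q = some n) : n.wait = false := by
  obtain ⟨n', h1, h2⟩ := hB.path o q (List.suffix_refl _)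
  have h3 : n' = n := by
    have h4 : S q = some n' := h1
    rw [hS] at h4
    exact (Option.some.inj h4).symm
  subst h3
  rcases h2 with ⟨_, _, _, h⟩ | ⟨_, _, _, h⟩ | ⟨_, _, _, h⟩ | ⟨h, _⟩
  · exact h
  · exact h
  · exact h
  · exact absurd h ho

/-- Preservation of the history condition. -/
theorem hist_step (t : ℕ) (C C' : ACfg) (v : ℕ → List ℕ) (hB : Base t C) (hS : Supp C)
    (hF : Flow C) (hv : v t = emis C) (hvb : ∀ x < t, ∀ y ∈ v x, y < t)
    (hH : Hist t C v) (h : Step t C C') : Hist (t + 1) C' v := by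
  cases h with
  | emit S d =>
    have hvt : v t = d := by rw [hv]; simp [emis]
    intro s k hs
    obtain ⟨h1, h2, h3⟩ := hH s k hs
    have hG : Good S s k d := hF.j3 rfl s k hs (List.nil_suffix)
    refine ⟨fun hw x hx hxt => ?_, fun x hx hxt => ?_, fun hw ho x hx hxt => ?_⟩
    · rcases Nat.lt_succ_iff_lt_or_eq.1 hxt with h | h
      · exact h1 hw x hx h
      · rw [h, hvt]
        rcases hG.1 with h4 | ⟨h4, _⟩
        · exact h4
        · rw [hw] at h4; exact absurd h4 (by simp)
    · rcases Nat.lt_succ_iff_lt_or_eq.1 hxt with h | h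
      · exact h2 x hx h
      · rw [h, hvt]
        rcases hG.1 with h4 | ⟨_, h4⟩
        · exact Or.inl h4
        · exact Or.inr h4
    · obtain ⟨o, ho⟩ := ho
      exact absurd (List.suffix_nil.1 ho) (by simp)
  | upD S q d =>
    have hvt : v t = [] := by rw [hv]; simp [emis]
    refine hist_gen t _ _ v hH hvt q (fun w m hw => ⟨m, hw, rfl⟩) (fun w m _ hw => hw)
      (fun o s _ ho => ho.trans (List.suffix_cons _ _)) ?_
    intro k hk
    obtain ⟨h1, h2, h3⟩ := hH q k hk
    exact ⟨h1, h2, fun hw ⟨o, ho⟩ => absurd ho not_cons_suffix⟩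
  | upN S q o d n ho hSq hpf =>
    have hvt : v t = [] := by rw [hv]; simp [emis]
    have hw := up_wait hB ho hSq
    obtain ⟨h1, h2, h3⟩ := hH q n hSq
    have h4 := h3 hw ⟨o, List.suffix_refl _⟩
    refine hist_gen t _ _ v hH hvt q (upd_c hSq rfl) upd_k
      (fun o s _ ho => ho.trans (List.suffix_cons _ _)) ?_
    intro k hk
    simp only [Function.update_self, Option.some.injEq] at hk
    subst hk
    refine ⟨fun hw' => ?_, fun x hx hxt => Or.inl (h4 x hx hxt), fun _ _ x hx hxt => h4 x hx hxt⟩
    simp [hw] at hw'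
  | upP S q o d n ho hSq hpf =>
    have hvt : v t = [] := by rw [hv]; simp [emis]
    have hw := up_wait hB ho hSq
    obtain ⟨h1, h2, h3⟩ := hH q n hSq
    have h4 := h3 hw ⟨o, List.suffix_refl _⟩
    refine hist_gen t _ _ v hH hvt q (upd_c hSq rfl) upd_k
      (fun o s _ ho => ho.trans (List.suffix_cons _ _)) ?_
    intro k hk
    simp only [Function.update_self, Option.some.injEq] at hk
    subst hk
    refine ⟨fun hw' => ?_, fun x hx hxt => Or.inl (h4 x hx hxt), fun _ _ x hx hxt => h4 x hx hxt⟩
    simp [hw] at hw'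
  | create S q d hSq =>
    have hvt : v t = [] := by rw [hv]; simp [emis]
    have hpar : ∀ x < t + 1, par (v x) t = false := by
      intro x hx
      rcases Nat.lt_succ_iff_lt_or_eq.1 hx with h | h
      · exact par_of_lt (hvb x h) le_rfl
      · rw [h, hvt]; rfl
    intro s k hs
    by_cases hsq : s = q
    · subst hsq
      have hno : ∀ w m, Rel s w → Function.update S s (some (fresh t)) w = some m → False := by
        intro w m hr hw
        rw [Function.update_of_ne (rel_ne hr)] at hw
        obtain ⟨k', hk'⟩ := hB.pre w m hw s (rel_suffix hr)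
        have : S s = some k' := hk'
        rw [hSq] at this
        cases this
      simp only [Function.update_self, Option.some.injEq] at hs
      subst hs
      refine ⟨fun hw => by simp [fresh] at hw, fun x _ _ => Or.inl ?_, fun _ _ x _ _ => ?_⟩
      · intro w m hr hw; exact (hno w m hr hw).elim
      · intro w m hr hw; exact (hno w m hr hw).elim
    · have hs' : S s = some k := upd_k s k hsq hs
      obtain ⟨h1, h2, h3⟩ := hH s k hs'
      have hz : ∀ x < t + 1, ZeroOn S s (v x) →
          ZeroOn (Function.update S q (some (fresh t))) s (v x) := by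
        intro x hx hz w m hr hw
        by_cases hwq : w = q
        · subst hwq
          rw [Function.update_self] at hw
          cases hw
          exact hpar x hx
        · exact hz w m hr (upd_k w m hwq hw)
      have hrt : par k.r t = false := par_of_lt ((hB.bnd s k hs').2.2.1) le_rfl
      refine ⟨fun hw x hx hxt => ?_, fun x hx hxt => ?_, fun hw ho x hx hxt => ?_⟩
      · rcases Nat.lt_succ_iff_lt_or_eq.1 hxt with h | h
        · exact hz x hxt (h1 hw x hx h)
        · rw [h, hvt]; exact zeroOn_nil _ _
      · rcases Nat.lt_succ_iff_lt_or_eq.1 hxt with h | h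
        · rcases h2 x hx h with h4 | h4
          · exact Or.inl (hz x hxt h4)
          · right
            intro w m hr hw
            by_cases hwq : w = q
            · subst hwq
              replace hw : Function.update S w (some (fresh t)) w = some m := hw
              rw [Function.update_self] at hw
              cases hw
              show par (v x) t = par k.r t
              rw [hpar x hxt, hrt]
            · exact h4 w m hr (upd_k w m hwq hw)
        · rw [h, hvt]; exact Or.inl (zeroOn_nil _ _)
      · rcases Nat.lt_succ_iff_lt_or_eq.1 hxt with h | h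
        · exact hz x hxt (h3 hw ho x hx h)
        · rw [h, hvt]; exact zeroOn_nil _ _
  | act S q d n hSq hrm hPhi =>
    have hvt : v t = [] := by rw [hv]; simp [emis]
    obtain ⟨h1, h2, h3⟩ := hH q n hSq
    refine hist_gen t _ _ v hH hvt q (upd_c hSq rfl) upd_k
      (fun o s _ ho => ho) ?_
    intro k hk
    simp only [Function.update_self, Option.some.injEq] at hk
    subst hk
    exact ⟨h1, h2, h3⟩
  | skip S q d n K hSq hna hK hans =>
    have hvt : v t = [] := by rw [hv]; simp [emis]
    obtain ⟨h1, h2, h3⟩ := hH q n hSq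
    refine hist_gen t _ _ v hH hvt q (upd_c hSq rfl) upd_k ?_ ?_
    · intro o s hsq ho
      rcases suffix_cons_cases ho with h | h
      · exact absurd (List.cons.inj h).2 hsq
      · exact h
    intro k hk
    simp only [Function.update_self, Option.some.injEq] at hk
    subst hk
    refine ⟨fun _ x hx hxt => ?_, h2, fun hw => ?_⟩
    · by_cases hw : n.wait = true
      · simp only [nw, hw, if_true] at hx
        exact h1 hw x hx hxt
      · simp only [nw, hw] at hx
        simp at hx
        omega
    · simp [nw] at hw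
  | own S q d n K b hSq hna hK hans hpf hpM =>
    have hvt : v t = [] := by rw [hv]; simp [emis]
    obtain ⟨h1, h2, h3⟩ := hH q n hSq
    have h4 : ∀ x, (if n.wait then n.s1 else t) ≤ x → x < t → ZeroOn S q (v x) := by
      intro x hx hxt
      by_cases hw : n.wait = true
      · rw [if_pos hw] at hx
        exact h1 hw x hx hxt
      · rw [if_neg hw] at hx
        omega
    refine hist_gen t _ _ v hH hvt q (upd_c hSq rfl) upd_k
      (fun o s _ ho => ho) ?_
    intro k hk
    simp only [Function.update_self, Option.some.injEq] at hk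
    subst hk
    refine ⟨fun hw => ?_, fun x hx hxt => Or.inl (h4 x hx hxt), fun _ _ x hx hxt => h4 x hx hxt⟩
    simp at hw
  | go S q d n K b hSq hna hK hans hno =>
    have hvt : v t = [] := by rw [hv]; simp [emis]
    obtain ⟨h1, h2, h3⟩ := hH q n hSq
    have h4 : ∀ x, (if n.wait then n.s1 else t) ≤ x → x < t → ZeroOn S q (v x) := by
      intro x hx hxt
      by_cases hw : n.wait = true
      · rw [if_pos hw] at hx
        exact h1 hw x hx hxt
      · rw [if_neg hw] at hx
        omega
    have hred : ∀ w m, (if Kill (outc n.pf (xor n.pM b)) q w then none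
            else Function.update S q (some (na t n b)) w) = some m →
          Function.update S q (some (na t n b)) w = some m := by
      intro w m hw
      by_cases hK : Kill (outc n.pf (xor n.pM b)) q w
      · rw [if_pos hK] at hw; cases hw
      · rwa [if_neg hK] at hw
    refine hist_gen t _ _ v hH hvt q
      (fun w m hw => upd_c (n' := na t n b) hSq rfl w m (hred w m hw))
      (fun w m hwq hw => upd_k w m hwq (hred w m hw)) ?_ ?_
    · intro o s hsq ho
      rcases suffix_cons_cases ho with h | h
      · exact absurd (List.cons.inj h).2 hsq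
      · exact h
    intro k hk
    have hk := hred q k hk
    simp only [Function.update_self, Option.some.injEq] at hk
    subst hk
    refine ⟨fun hw => ?_, fun x hx hxt => Or.inl (h4 x hx hxt), fun _ _ x hx hxt => h4 x hx hxt⟩
    simp [na] at hw

end Pool.Agent.Helper158.FCD
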