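import Pool.Agent.Helper158.FCD.Small

set_option autoImplicit false
namespace Pool.Agent.Helper158.FCD

lemma rinv_update {S : Path → Option Node} {q : Path} {n n' : Node} {p p' : Path}
    {up up' : Bool} {d d' : List ℕ}
    (hn : S q = some n) (hc : n'.c = n.c) (hR : RInv ⟨S, p, up, d⟩)
    (hq : ∀ w m, S w = some m →
      ((0 :: q) <:+ w → par n'.r m.c = par n'.dl m.c) ∧
      ((1 :: q) <:+ w → par n'.r m.c = true → n'.pf = true ∧ n'.pM = false) ∧
      ((2 :: q) <:+ w → par n'.r m.c = true → n'.pf = true ∧ n'.pM = true)) :
    RInv ⟨Function.update S q (some n'), p', up', d'⟩ := by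
  intro a k hk w m hm
  have hold : ∃ m₀, S w = some m₀ ∧ m₀.c = m.c := by
    by_cases hw : w = q
    · subst hw
      simp only [Function.update_self, Option.some.injEq] at hm
      subst hm
      exact ⟨n, hn, hc.symm⟩
    · simp only [Function.update_of_ne hw] at hm
      exact ⟨m, hm, rfl⟩
  obtain ⟨m₀, hm₀, hmc⟩ := hold
  rw [← hmc]
  by_cases ha : a = q
  · subst ha
    simp only [Function.update_self, Option.some.injEq] at hk
    subst hk
    exact hq w m₀ hm₀
  · simp only [Function.update_of_ne ha] at hk
    exact hR a k hk w m₀ hm₀

/-- Preservation of the conditions on the vectors `r`. -/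
theorem rinv_step (t : ℕ) (C C' : ACfg) (hB : Base t C) (hS : Supp C) (hR : RInv C)
    (h : Step t C C') : RInv C' := by
  cases h with
  | emit S d => exact fun q n hq w m hw => hR q n hq w m hw
  | upD S q d => exact fun q n hq w m hw => hR q n hq w m hw
  | upN S q o d n ho hSq hpf =>
    refine rinv_update hSq ?_ hR ?_
    · rfl
    intro w m hw
    have hp := hB.path o q (List.suffix_refl _)
    obtain ⟨n₁, hn₁, hcase⟩ := hp
    have hn₁' : S q = some n₁ := hn₁
    rw [hSq] at hn₁'
    simp only [Option.some.injEq] at hn₁'
    subst hn₁'
    have ho0 : o = 0 := by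
      rcases hcase with h | h | h | h
      · exact h.1
      · rw [hpf] at h; exact absurd h.2.1 (by simp)
      · rw [hpf] at h; exact absurd h.2.1 (by simp)
      · exact absurd h.1 ho
    subst ho0
    have hj4 := hS.j4 rfl w m hw
    refine ⟨fun _ => rfl, fun h1 h2 => ?_, fun h1 h2 => ?_⟩
    · exfalso
      have h3 : ¬ ((0 :: q) <:+ w) := fun h0 => by
        have := suffix_head h0 h1
        exact absurd this (by decide)
      have h4 : par d m.c = false := hj4 h3
      have h5 : par d m.c = true := h2
      rw [h4] at h5
      exact absurd h5 (by simp)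
    · exfalso
      have h3 : ¬ ((0 :: q) <:+ w) := fun h0 => by
        have := suffix_head h0 h1
        exact absurd this (by decide)
      have h4 : par d m.c = false := hj4 h3
      have h5 : par d m.c = true := h2
      rw [h4] at h5
      exact absurd h5 (by simp)
  | upP S q o d n ho hSq hpf =>
    refine rinv_update hSq ?_ hR ?_
    · rfl
    intro w m hw
    have hp := hB.path o q (List.suffix_refl _)
    obtain ⟨n₁, hn₁, hcase⟩ := hp
    have hn₁' : S q = some n₁ := hn₁
    rw [hSq] at hn₁'
    simp only [Option.some.injEq] at hn₁'
    subst hn₁'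
    have ho0 : (o = 1 ∧ n.pM = false) ∨ (o = 2 ∧ n.pM = true) := by
      rcases hcase with h | h | h | h
      · rw [hpf] at h; exact absurd h.2.1 (by simp)
      · exact Or.inl ⟨h.1, h.2.2.1⟩
      · exact Or.inr ⟨h.1, h.2.2.1⟩
      · exact absurd h.1 ho
    have hj4 : ¬ ((o :: q) <:+ w) → par d m.c = false := hS.j4 rfl w m hw
    have hj2 : ¬ ((0 :: q) <:+ w) → par n.dl m.c = false := hS.j2 q n hSq w m hw
    refine ⟨fun h0 => ?_, fun h1 h2 => ?_, fun h1 h2 => ?_⟩
    · have h3 : ¬ ((o :: q) <:+ w) := fun h => by
        have := suffix_head h h0
        rcases ho0 with h | h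
        · rw [h.1] at this; exact absurd this (by decide)
        · rw [h.1] at this; exact absurd this (by decide)
      have h4 := hj4 h3
      simp [h4]
    · have h3 : ¬ ((0 :: q) <:+ w) := fun h0 => by
        have := suffix_head h0 h1
        exact absurd this (by decide)
      have h4 := hj2 h3
      have h5 : par (n.dl ++ d) m.c = true := h2
      rw [par_append, h4] at h5
      have h6 : (o :: q) <:+ w := by
        by_contra h
        rw [hj4 h] at h5
        exact absurd h5 (by simp)
      have h7 : o = 1 := suffix_head h6 h1
      refine ⟨rfl, ?_⟩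
      rcases ho0 with h | h
      · exact h.2
      · rw [h.1] at h7; exact absurd h7 (by decide)
    · have h3 : ¬ ((0 :: q) <:+ w) := fun h0 => by
        have := suffix_head h0 h1
        exact absurd this (by decide)
      have h4 := hj2 h3
      have h5 : par (n.dl ++ d) m.c = true := h2
      rw [par_append, h4] at h5
      have h6 : (o :: q) <:+ w := by
        by_contra h
        rw [hj4 h] at h5
        exact absurd h5 (by simp)
      have h7 : o = 2 := suffix_head h6 h1
      refine ⟨rfl, ?_⟩
      rcases ho0 with h | h
      · rw [h.1] at h7; exact absurd h7 (by decide)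
      · exact h.2
  | create S q d hSq =>
    intro a k hk w m hm
    by_cases ha : a = q
    · subst ha
      simp only [Function.update_self, Option.some.injEq] at hk
      subst hk
      simp [fresh]
    · simp only [Function.update_of_ne ha] at hk
      by_cases hw : w = q
      · subst hw
        simp only [Function.update_self, Option.some.injEq] at hm
        subst hm
        have hb := hB.bnd a k hk
        have h1 : par k.dl t = false := par_of_lt hb.2.1 le_rfl
        have h2 : par k.r t = false := par_of_lt hb.2.2.1 le_rfl
        simp [fresh, h1, h2]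
      · simp only [Function.update_of_ne hw] at hm
        exact hR a k hk w m hm
  | act S q d n hSq hrm hPhi =>
    refine rinv_update hSq ?_ hR ?_
    · rfl
    intro w m hw
    exact hR q n hSq w m hw
  | skip S q d n K hSq hna hK hans =>
    refine rinv_update hSq ?_ hR ?_
    · rfl
    intro w m hw
    exact hR q n hSq w m hw
  | own S q d n K b hSq hna hK hans hpf hpM =>
    refine rinv_update hSq ?_ hR ?_
    · rfl
    intro w m hw
    have hj2 : ¬ ((0 :: q) <:+ w) → par n.dl m.c = false := hS.j2 q n hSq w m hw
    refine ⟨fun _ => rfl, fun h1 h2 => ?_, fun h1 h2 => ?_⟩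
    · exfalso
      have h3 : ¬ ((0 :: q) <:+ w) := fun h0 => by
        have := suffix_head h0 h1
        exact absurd this (by decide)
      have h4 := hj2 h3
      have h5 : par n.dl m.c = true := h2
      rw [h4] at h5
      exact absurd h5 (by simp)
    · exfalso
      have h3 : ¬ ((0 :: q) <:+ w) := fun h0 => by
        have := suffix_head h0 h1
        exact absurd this (by decide)
      have h4 := hj2 h3
      have h5 : par n.dl m.c = true := h2
      rw [h4] at h5
      exact absurd h5 (by simp)
  | go S q d n K b hSq hna hK hans hno =>
    intro a k hk w m hm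
    have hm' : ¬ Kill (outc n.pf (xor n.pM b)) q w ∧
        Function.update S q (some (na t n b)) w = some m := by
      have h0 : (if Kill (outc n.pf (xor n.pM b)) q w then none
            else Function.update S q (some (na t n b)) w) = some m := hm
      split_ifs at h0 with hh
      exact ⟨hh, h0⟩
    have hk' : ¬ Kill (outc n.pf (xor n.pM b)) q a ∧
        Function.update S q (some (na t n b)) a = some k := by
      have h0 : (if Kill (outc n.pf (xor n.pM b)) q a then none
            else Function.update S q (some (na t n b)) a) = some k := hk
      split_ifs at h0 with hh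
      exact ⟨hh, h0⟩
    obtain ⟨hkm, hm1⟩ := hm'
    obtain ⟨hka, hk1⟩ := hk'
    have hold : ∃ m₀, S w = some m₀ ∧ m₀.c = m.c := by
      by_cases hw : w = q
      · subst hw
        simp only [Function.update_self, Option.some.injEq] at hm1
        subst hm1
        exact ⟨n, hSq, rfl⟩
      · simp only [Function.update_of_ne hw] at hm1
        exact ⟨m, hm1, rfl⟩
    obtain ⟨m₀, hm₀, hmc⟩ := hold
    rw [← hmc]
    by_cases ha : a = q
    · subst ha
      simp only [Function.update_self, Option.some.injEq] at hk1
      subst hk1
      have hRq := hR a n hSq w m₀ hm₀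
      refine ⟨hRq.1, fun h1 h2 => ?_, fun h1 h2 => ?_⟩
      · exfalso
        have h3 := (hRq.2.1 h1 h2).1
        have h4 : xor n.pM b = false := by
          cases hx : xor n.pM b
          · rfl
          · exact absurd ⟨h3, hx⟩ hno
        apply hkm
        rw [h3, h4]
        left
        exact ⟨by decide, h1⟩
      · exfalso
        have h3 := (hRq.2.2 h1 h2).1
        have h4 : xor n.pM b = false := by
          cases hx : xor n.pM b
          · rfl
          · exact absurd ⟨h3, hx⟩ hno
        apply hkm
        rw [h3, h4]
        right; left
        exact ⟨by decide, h1⟩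
    · simp only [Function.update_of_ne ha] at hk1
      exact hR a k hk1 w m₀ hm₀

end Pool.Agent.Helper158.FCD
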