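import Pool.Agent.Helper158.FCD.Small

set_option autoImplicit false
namespace Pool.Agent.Helper158.FCD

theorem get_upd' (L : List (Path × Node)) (q : Path) (n : Node) :
    get ((q, n) :: L) = Function.update (get L) q (some n) := by
  funext w
  rw [get_cons]
  by_cases h : q = w
  · subst h; simp
  · rw [if_neg h, Function.update_of_ne (Ne.symm h)]

/-- The concrete step is a step of the abstract machine. -/
theorem sim_step (t : ℕ) (C : Cfg)
    (hp : ∀ o q, (o :: q) <:+ C.p → ∃ n, get C.L q = some n) :
    Step t ⟨get C.L, C.p, C.up, C.d⟩
      ⟨get (step t C).L, (step t C).p, (step t C).up, (step t C).d⟩ := by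
  obtain ⟨L, p, up, d⟩ := C
  simp only at hp
  cases up with
  | true =>
    cases p with
    | nil =>
      have hs : step t ⟨L, [], true, d⟩ = ⟨L, [], false, []⟩ := rfl
      rw [hs]
      exact Step.emit _ _
    | cons o q =>
      by_cases ho : o = 3
      · subst ho
        have hs : step t ⟨L, 3 :: q, true, d⟩ = ⟨L, q, true, d⟩ := rfl
        rw [hs]
        exact Step.upD _ _ _
      · obtain ⟨n, hn⟩ := hp o q (List.suffix_refl _)
        cases hpf : n.pf with
        | true =>
          have hs : step t ⟨L, o :: q, true, d⟩ =
              ⟨(q, ⟨n.c, n.rm, n.wait, d, n.pf, n.pM, n.s0, n.s1, d⟩) :: L, q, true, d⟩ := by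
            unfold step
            simp only [if_true, if_neg ho, hn, Option.getD_some, hpf]
          rw [hs]
          show Step t _ ⟨get ((q, _) :: L), q, true, d⟩
          rw [get_upd']
          exact Step.upN _ _ _ _ n ho hn hpf
        | false =>
          have hs : step t ⟨L, o :: q, true, d⟩ =
              ⟨(q, ⟨n.c, n.rm, n.wait, n.dl, true, n.pM, n.s0, n.s1, n.dl ++ d⟩) :: L, q, true, n.dl ++ d⟩ := by
            unfold step
            simp only [if_true, if_neg ho, hn, Option.getD_some, hpf]
            rfl
          rw [hs]
          show Step t _ ⟨get ((q, _) :: L), q, true, n.dl ++ d⟩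
          rw [get_upd']
          exact Step.upP _ _ _ _ n ho hn hpf
  | false =>
    cases hg : get L p with
    | none =>
      have hs : step t ⟨L, p, false, d⟩ = ⟨(p, fresh t) :: L, p, true, []⟩ := by
        unfold step
        simp only [hg]
        rfl
      rw [hs]
      show Step t _ ⟨get ((p, _) :: L), p, true, []⟩
      rw [get_upd']
      exact Step.create _ _ _ hg
    | some n =>
      by_cases hact : n.rm = 0 ∧ Phi p.length t n.c
      · have hs : step t ⟨L, p, false, d⟩ =
            ⟨(p, ⟨n.c, 1, n.wait, n.dl, n.pf, n.pM, n.s0, n.s1, n.r⟩) :: L, p, true, [n.c]⟩ := by
          unfold step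
          simp only [hg, if_pos hact]
          rfl
        rw [hs]
        show Step t _ ⟨get ((p, _) :: L), p, true, [n.c]⟩
        rw [get_upd']
        exact Step.act _ _ _ n hg hact.1 hact.2
      · cases hans : ansf p.length t n.s0 (if n.wait then n.s1 else t) n.r (rels L p) with
        | none =>
          have hs : step t ⟨L, p, false, d⟩ = ⟨(p, nw t n) :: L, 3 :: p, false, []⟩ := by
            unfold step
            simp only [hg, if_neg hact, hans]
            rfl
          rw [hs]
          show Step t _ ⟨get ((p, _) :: L), 3 :: p, false, []⟩
          rw [get_upd']
          exact Step.skip _ _ _ n (rels L p) hg hact (fun c => mem_rels) hans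
        | some b =>
          by_cases hown : (n.pf && xor n.pM b) = true
          · have hs : step t ⟨L, p, false, d⟩ =
                ⟨(p, ⟨(na t n b).c, (na t n b).rm, false, n.dl, false, (na t n b).pM, (na t n b).s0,
                  (na t n b).s1, n.dl⟩) :: L, p, true, n.dl⟩ := by
              unfold step
              simp only [hg, if_neg hact, hans, if_pos hown]
              rfl
            rw [hs]
            show Step t _ ⟨get ((p, _) :: L), p, true, n.dl⟩
            rw [get_upd']
            rw [Bool.and_eq_true] at hown
            exact Step.own _ _ _ n (rels L p) b hg hact (fun c => mem_rels) hans hown.1 hown.2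
          · have hs : step t ⟨L, p, false, d⟩ =
                ⟨(p, na t n b) ::
                  L.filter (fun e => !decide (Kill (outc n.pf (xor n.pM b)) p e.1)),
                  outc n.pf (xor n.pM b) :: p, false, []⟩ := by
              unfold step
              simp only [hg, if_neg hact, hans, if_neg hown]
              rfl
            rw [hs]
            have hget : get ((p, na t n b) :: L.filter (fun e => !decide (Kill (outc n.pf (xor n.pM b)) p e.1)))
                = fun w => if Kill (outc n.pf (xor n.pM b)) p w then none
                  else Function.update (get L) p (some (na t n b)) w := by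
              funext w
              rw [get_cons, get_filter L (fun w => !decide (Kill (outc n.pf (xor n.pM b)) p w))]
              by_cases hw : p = w
              · subst hw
                have hk : ¬ Kill (outc n.pf (xor n.pM b)) p p := by
                  rintro (⟨_, h⟩ | ⟨_, h⟩ | ⟨_, h⟩) <;> exact not_cons_suffix h
                rw [if_neg hk]
                simp
              · simp only [if_neg hw]
                rw [Function.update_of_ne (Ne.symm hw)]
                by_cases hk : Kill (outc n.pf (xor n.pM b)) p w
                · simp [hk]
                · simp [hk]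
            show Step t _ ⟨get ((p, na t n b) :: L.filter (fun e => !decide (Kill (outc n.pf (xor n.pM b)) p e.1))), _, false, []⟩
            rw [hget]
            rw [Bool.and_eq_true] at hown
            exact Step.go _ _ _ n (rels L p) b hg hact (fun c => mem_rels) hans hown


end Pool.Agent.Helper158.FCD
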