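import Pool.Agent.Helper158.FCD.Small

set_option autoImplicit false
namespace Pool.Agent.Helper158.FCD

lemma ss_update (S : Path → Option Node) (q : Path) (n n' : Node) (hS : S q = some n)
    (w : Path) (m : Node) (h : Function.update S q (some n') w = some m)
    (hc : n'.c = n.c) :
    ∃ m', S w = some m' ∧ m'.c = m.c := by
  by_cases hw : w = q
  · subst hw
    rw [Function.update_self] at h
    simp only [Option.some.injEq] at h
    subst h
    exact ⟨n, hS, hc.symm⟩
  · rw [Function.update_of_ne hw] at h
    exact ⟨m, h, rfl⟩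

lemma ss_update2 (S : Path → Option Node) (q : Path) (n n' : Node) (hS : S q = some n)
    (w : Path) (m : Node) (h : Function.update S q (some n') w = some m)
    (hc : n'.c = n.c) (hd : n'.dl = n.dl) :
    ∃ m', S w = some m' ∧ m'.c = m.c ∧ m'.dl = m.dl := by
  by_cases hw : w = q
  · subst hw
    rw [Function.update_self] at h
    simp only [Option.some.injEq] at h
    subst h
    exact ⟨n, hS, hc.symm, hd.symm⟩
  · rw [Function.update_of_ne hw] at h
    exact ⟨m, h, rfl, rfl⟩

lemma ss_j2 {C : ACfg} (hS : Supp C) {S' : Path → Option Node}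
    (h : ∀ w m, S' w = some m → ∃ m', C.S w = some m' ∧ m'.c = m.c ∧ m'.dl = m.dl) :
    ∀ q n, S' q = some n → ∀ w m, S' w = some m → ¬ ((0 :: q) <:+ w) →
    par n.dl m.c = false := by
  intro q n hq w m hw hs
  obtain ⟨n', h1, _, h2⟩ := h q n hq
  obtain ⟨m', h3, h4, _⟩ := h w m hw
  rw [← h2, ← h4]
  exact hS.j2 q n' h1 w m' h3 hs

/-- Preservation of the support conditions. -/
theorem supp_step (t : ℕ) (C C' : ACfg) (hB : Base t C) (hS : Supp C) (h : Step t C C') :
    Supp C' := by
  cases h with
  | emit S d =>
    exact ⟨fun q n hq w m hw hs => hS.j2 q n hq w m hw hs, fun h => by simp at h⟩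
  | upD S q d =>
    refine ⟨fun q n hq w m hw hs => hS.j2 q n hq w m hw hs, fun _ w m hw hs => ?_⟩
    exact hS.j4 rfl w m hw (fun h => hs (suffix_cons' h))
  | upN S q o d n ho hq hpf =>
    have hupd : ∀ w m, Function.update S q
        (some ⟨n.c, n.rm, n.wait, d, n.pf, n.pM, n.s0, n.s1, d⟩) w = some m →
        ∃ m', S w = some m' ∧ m'.c = m.c := fun w m h =>
      ss_update S q n _ hq w m h rfl
    have ho0 : o = 0 := by
      obtain ⟨n', h1, h2⟩ := hB.path o q List.suffix_rfl
      have h1' : S q = some n' := h1
      rw [hq] at h1'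
      simp only [Option.some.injEq] at h1'
      subst h1'
      rcases h2 with h | h | h | h
      · exact h.1
      · rw [hpf] at h; simp at h
      · rw [hpf] at h; simp at h
      · exact absurd h.1 ho
    subst ho0
    constructor
    · intro q1 n1 h1 w m hw hs
      obtain ⟨m', h3, h4⟩ := hupd w m hw
      rw [← h4]
      by_cases hq1 : q1 = q
      · subst hq1
        have h1' : Function.update S q1
          (some ⟨n.c, n.rm, n.wait, d, n.pf, n.pM, n.s0, n.s1, d⟩) q1 = some n1 := h1
        rw [Function.update_self] at h1'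
        simp only [Option.some.injEq] at h1'
        subst h1'
        exact hS.j4 rfl w m' h3 hs
      · have h1' : Function.update S q
          (some ⟨n.c, n.rm, n.wait, d, n.pf, n.pM, n.s0, n.s1, d⟩) q1 = some n1 := h1
        rw [Function.update_of_ne hq1] at h1'
        exact hS.j2 q1 n1 h1' w m' h3 hs
    · intro _ w m hw hs
      obtain ⟨m', h3, h4⟩ := hupd w m hw
      rw [← h4]
      exact hS.j4 rfl w m' h3 (fun h => hs (suffix_cons' h))
  | upP S q o d n ho hq hpf =>
    have hupd : ∀ w m, Function.update S q
        (some ⟨n.c, n.rm, n.wait, n.dl, true, n.pM, n.s0, n.s1, n.dl ++ d⟩) w = some m →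
        ∃ m', S w = some m' ∧ m'.c = m.c ∧ m'.dl = m.dl := fun w m h =>
      ss_update2 S q n _ hq w m h rfl rfl
    refine ⟨ss_j2 hS hupd, fun _ w m hw hs => ?_⟩
    obtain ⟨m', h3, h4, _⟩ := hupd w m hw
    change par (n.dl ++ d) m.c = false
    rw [← h4, par_append, hS.j2 q n hq w m' h3 (fun h => hs (suffix_cons' h)),
      hS.j4 rfl w m' h3 (fun h => hs (suffix_cons' h))]
    rfl
  | create S q d hq =>
    constructor
    · intro q1 n1 h1 w m hw hs
      by_cases hq1 : q1 = q
      · subst hq1
        have h1' : Function.update S q1 (some (fresh t)) q1 = some n1 := h1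
        rw [Function.update_self] at h1'
        simp only [Option.some.injEq] at h1'
        subst h1'
        rfl
      · have h1' : Function.update S q (some (fresh t)) q1 = some n1 := h1
        rw [Function.update_of_ne hq1] at h1'
        by_cases hwq : w = q
        · subst hwq
          have hw' : Function.update S w (some (fresh t)) w = some m := hw
          rw [Function.update_self] at hw'
          simp only [Option.some.injEq] at hw'
          subst hw'
          exact par_of_lt (hB.bnd q1 n1 h1').2.1 le_rfl
        · have hw' : Function.update S q (some (fresh t)) w = some m := hw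
          rw [Function.update_of_ne hwq] at hw'
          exact hS.j2 q1 n1 h1' w m hw' hs
    · intro _ w m hw hs
      rfl
  | act S q d n hq hrm hPhi =>
    have hupd : ∀ w m, Function.update S q
        (some ⟨n.c, 1, n.wait, n.dl, n.pf, n.pM, n.s0, n.s1, n.r⟩) w = some m →
        ∃ m', S w = some m' ∧ m'.c = m.c ∧ m'.dl = m.dl := fun w m h =>
      ss_update2 S q n _ hq w m h rfl rfl
    refine ⟨ss_j2 hS hupd, fun _ w m hw hs => ?_⟩
    obtain ⟨m', h3, h4, _⟩ := hupd w m hw
    change par [n.c] m.c = false
    have hne : n.c ≠ m'.c := by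
      intro he
      have := hB.inj q n w m' hq h3 he
      subst this
      exact hs List.suffix_rfl
    rw [← h4]
    simp [hne]
  | skip S q d n K hq hna hK hans =>
    have hupd : ∀ w m, Function.update S q (some (nw t n)) w = some m →
        ∃ m', S w = some m' ∧ m'.c = m.c ∧ m'.dl = m.dl := fun w m h =>
      ss_update2 S q n _ hq w m h rfl rfl
    exact ⟨ss_j2 hS hupd, fun h => by simp at h⟩
  | own S q d n K b hq hna hK hans hpf hpM =>
    have hupd : ∀ w m, Function.update S q
        (some ⟨(na t n b).c, (na t n b).rm, false, n.dl, false, (na t n b).pM,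
          (na t n b).s0, (na t n b).s1, n.dl⟩) w = some m →
        ∃ m', S w = some m' ∧ m'.c = m.c ∧ m'.dl = m.dl := fun w m h =>
      ss_update2 S q n _ hq w m h rfl rfl
    refine ⟨ss_j2 hS hupd, fun _ w m hw hs => ?_⟩
    obtain ⟨m', h3, h4, _⟩ := hupd w m hw
    change par n.dl m.c = false
    rw [← h4]
    exact hS.j2 q n hq w m' h3 (fun h => hs (suffix_cons' h))
  | go S q d n K b hq hna hK hans hno =>
    have hupd : ∀ w m, (if Kill (outc n.pf (xor n.pM b)) q w then none
            else Function.update S q (some (na t n b)) w) = some m →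
        ∃ m', S w = some m' ∧ m'.c = m.c ∧ m'.dl = m.dl := by
      intro w m h
      by_cases hk : Kill (outc n.pf (xor n.pM b)) q w
      · rw [if_pos hk] at h
        simp at h
      · rw [if_neg hk] at h
        exact ss_update2 S q n _ hq w m h rfl rfl
    exact ⟨ss_j2 hS hupd, fun h => by simp at h⟩

end Pool.Agent.Helper158.FCD
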