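import Pool.Agent.Helper158.FCD.TraceDefs
import Pool.Agent.Helper158.FCD.StepBaseStep
import Pool.Agent.Helper158.FCD.StepSuppStep
import Pool.Agent.Helper158.FCD.StepFlowStep
import Pool.Agent.Helper158.FCD.StepFinvStep
import Pool.Agent.Helper158.FCD.StepRinvStep
import Pool.Agent.Helper158.FCD.StepHistStep
import Pool.Agent.Helper158.FCD.StepSimStep

/-! The concrete run is a trace. -/

set_option autoImplicit false

namespace Pool.Agent.Helper158.FCD

lemma arun_zero : arun 0 = ⟨fun _ => none, [], false, []⟩ := by
  unfold arun
  simp only [run]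
  congr 1

lemma base_zero : Base 0 (arun 0) := by
  rw [arun_zero]
  exact ⟨fun w n h => by simp at h, fun x h => by simp at h, fun w n w' n' h => by simp at h,
    fun w n h => by simp at h, fun o q h => by simp at h, fun h => by simp at h⟩

lemma sim (t : ℕ) (hB : Base t (arun t)) : Step t (arun t) (arun (t + 1)) := by
  have := sim_step t (run t) (fun o q h => by
    obtain ⟨n, hn, _⟩ := hB.path o q h
    exact ⟨n, hn⟩)
  exact this

lemma base_run (t : ℕ) : Base t (arun t) := by
  induction t with
  | zero => exact base_zero
  | succ t ih => exact base_step t _ _ ih (sim t ih)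

lemma step_run (t : ℕ) : Step t (arun t) (arun (t + 1)) := sim t (base_run t)

lemma supp_run (t : ℕ) : Supp (arun t) := by
  induction t with
  | zero =>
    rw [arun_zero]
    exact ⟨fun w n h => by simp at h, fun h => by simp at h⟩
  | succ t ih => exact supp_step t _ _ (base_run t) ih (step_run t)

lemma flow_run (t : ℕ) : Flow (arun t) := by
  induction t with
  | zero =>
    rw [arun_zero]
    exact ⟨fun w n s k h => by simp at h, fun h => by simp at h⟩
  | succ t ih => exact flow_step t _ _ (base_run t) (supp_run t) ih (step_run t)

lemma mv_eq (t : ℕ) : mv t = emis (arun t) := rfl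

lemma finv_run (t : ℕ) : FInv t (arun t) (ff mv t) := by
  induction t with
  | zero =>
    refine ⟨fun c _ => rfl, fun w n h => ?_⟩
    rw [arun_zero] at h
    simp at h
  | succ t ih => exact finv_step t _ _ _ (base_run t) (supp_run t) ih (step_run t)

lemma rinv_run (t : ℕ) : RInv (arun t) := by
  induction t with
  | zero =>
    intro q n h
    rw [arun_zero] at h
    simp at h
  | succ t ih => exact rinv_step t _ _ (base_run t) (supp_run t) ih (step_run t)

lemma mv_bd (t : ℕ) : ∀ x ∈ mv t, x < t := by
  intro x hx
  rw [mv_eq] at hx
  unfold emis at hx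
  split_ifs at hx
  · exact (base_run t).bd x hx
  · simp at hx

lemma hist_run (t : ℕ) : Hist t (arun t) mv := by
  induction t with
  | zero =>
    intro s k h
    rw [arun_zero] at h
    simp at h
  | succ t ih =>
    exact hist_step t _ _ mv (base_run t) (supp_run t) (flow_run t) (mv_eq t)
      (fun x hx y hy => lt_trans (mv_bd x y hy) hx) ih (step_run t)

/-- facts about a node that was acted upon -/
lemma phi_step (t : ℕ) (C C' : ACfg) (h : Step t C C')
    (hC : ∀ w n, C.S w = some n → n.rm ≠ 0 → ∃ u, Phi w.length u n.c) :
    ∀ w n, C'.S w = some n → n.rm ≠ 0 → ∃ u, Phi w.length u n.c := by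
  intro w k hk hrm
  cases h with
  | emit S d => exact hC w k hk hrm
  | upD S q d => exact hC w k hk hrm
  | upN S q o d n ho hS hpf =>
    simp only [Function.update_apply] at hk
    split_ifs at hk with hw
    · simp only [Option.some.injEq] at hk
      subst hk; subst hw
      exact hC _ n hS hrm
    · exact hC w k hk hrm
  | upP S q o d n ho hS hpf =>
    simp only [Function.update_apply] at hk
    split_ifs at hk with hw
    · simp only [Option.some.injEq] at hk
      subst hk; subst hw
      exact hC _ n hS hrm
    · exact hC w k hk hrm
  | create S q d hS =>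
    simp only [Function.update_apply] at hk
    split_ifs at hk with hw
    · simp only [Option.some.injEq] at hk
      subst hk
      exact absurd rfl hrm
    · exact hC w k hk hrm
  | act S q d n hS hrm0 hPhi =>
    simp only [Function.update_apply] at hk
    split_ifs at hk with hw
    · simp only [Option.some.injEq] at hk
      subst hk; subst hw
      exact ⟨t, hPhi⟩
    · exact hC w k hk hrm
  | skip S q d n K hS hna hK hans =>
    simp only [Function.update_apply] at hk
    split_ifs at hk with hw
    · simp only [Option.some.injEq] at hk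
      subst hk; subst hw
      refine hC _ n hS ?_
      intro h0
      apply hrm
      simp [nw, h0]
    · exact hC w k hk hrm
  | own S q d n K b hS hna hK hans hpf hpM =>
    simp only [Function.update_apply] at hk
    split_ifs at hk with hw
    · simp only [Option.some.injEq] at hk
      subst hk; subst hw
      refine hC _ n hS ?_
      intro h0
      apply hrm
      simp [na, h0]
    · exact hC w k hk hrm
  | go S q d n K b hS hna hK hans hno =>
    simp only at hk
    split_ifs at hk with hKi
    simp only [Function.update_apply] at hk
    split_ifs at hk with hw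
    · simp only [Option.some.injEq] at hk
      subst hk; subst hw
      refine hC _ n hS ?_
      intro h0
      apply hrm
      simp [na, h0]
    · exact hC w k hk hrm

lemma phi_run (t : ℕ) : ∀ w n, (arun t).S w = some n → n.rm ≠ 0 → ∃ u, Phi w.length u n.c := by
  induction t with
  | zero =>
    intro w n h
    rw [arun_zero] at h
    simp at h
  | succ t ih => exact phi_step t _ _ (step_run t) ih

lemma fin_run (t : ℕ) : ∃ N, ∀ w n, (arun t).S w = some n → w.length ≤ N := by
  refine ⟨((run t).L.map (fun e => e.1.length)).sum, fun w n h => ?_⟩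
  have h1 : (w, n) ∈ (run t).L := mem_of_get h
  exact List.single_le_sum (fun x _ => Nat.zero_le x) _
    (List.mem_map.2 ⟨(w, n), h1, rfl⟩)

theorem trace_run : Trace arun mv :=
  ⟨arun_zero, step_run, base_run, supp_run, flow_run, finv_run, rinv_run, hist_run, mv_eq,
    fin_run, phi_run⟩

lemma dead_iff (t c : ℕ) :
    dead t c = false ↔ (t ≤ c ∨ ∃ w n, (arun t).S w = some n ∧ n.c = c) := by
  unfold dead
  rw [Bool.and_eq_false_iff]
  simp only [decide_eq_false_iff_not, not_lt, Bool.not_eq_false', List.any_eq_true,
    decide_eq_true_eq]
  apply or_congr Iff.rfl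
  constructor
  · rintro ⟨e, he, hc⟩
    obtain ⟨n, hn⟩ := get_isSome (L := (run t).L) (q := e.1) (List.mem_map.2 ⟨e, he, rfl⟩)
    rw [hn] at hc
    exact ⟨e.1, n, hn, hc⟩
  · rintro ⟨w, n, hn, hc⟩
    refine ⟨(w, n), mem_of_get hn, ?_⟩
    have : get (run t).L w = some n := hn
    simp [this, hc]

/-- no step gives an old coordinate to a new node -/
lemma coord_step (t : ℕ) (C C' : ACfg) (h : Step t C C') :
    ∀ w k, C'.S w = some k → k.c = t ∨ ∃ k', C.S w = some k' ∧ k'.c = k.c := by
  intro w k hk
  cases h with
  | emit S d => exact Or.inr ⟨k, hk, rfl⟩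
  | upD S q d => exact Or.inr ⟨k, hk, rfl⟩
  | upN S q o d n ho hS hpf =>
    simp only [Function.update_apply] at hk
    split_ifs at hk with hw
    · simp only [Option.some.injEq] at hk
      subst hk; subst hw
      exact Or.inr ⟨n, hS, rfl⟩
    · exact Or.inr ⟨k, hk, rfl⟩
  | upP S q o d n ho hS hpf =>
    simp only [Function.update_apply] at hk
    split_ifs at hk with hw
    · simp only [Option.some.injEq] at hk
      subst hk; subst hw
      exact Or.inr ⟨n, hS, rfl⟩
    · exact Or.inr ⟨k, hk, rfl⟩
  | create S q d hS =>
    simp only [Function.update_apply] at hk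
    split_ifs at hk with hw
    · simp only [Option.some.injEq] at hk
      subst hk
      exact Or.inl rfl
    · exact Or.inr ⟨k, hk, rfl⟩
  | act S q d n hS hrm0 hPhi =>
    simp only [Function.update_apply] at hk
    split_ifs at hk with hw
    · simp only [Option.some.injEq] at hk
      subst hk; subst hw
      exact Or.inr ⟨n, hS, rfl⟩
    · exact Or.inr ⟨k, hk, rfl⟩
  | skip S q d n K hS hna hK hans =>
    simp only [Function.update_apply] at hk
    split_ifs at hk with hw
    · simp only [Option.some.injEq] at hk
      subst hk; subst hw
      exact Or.inr ⟨n, hS, rfl⟩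
    · exact Or.inr ⟨k, hk, rfl⟩
  | own S q d n K b hS hna hK hans hpf hpM =>
    simp only [Function.update_apply] at hk
    split_ifs at hk with hw
    · simp only [Option.some.injEq] at hk
      subst hk; subst hw
      exact Or.inr ⟨n, hS, rfl⟩
    · exact Or.inr ⟨k, hk, rfl⟩
  | go S q d n K b hS hna hK hans hno =>
    simp only at hk
    split_ifs at hk with hKi
    simp only [Function.update_apply] at hk
    split_ifs at hk with hw
    · simp only [Option.some.injEq] at hk
      subst hk; subst hw
      exact Or.inr ⟨n, hS, rfl⟩
    · exact Or.inr ⟨k, hk, rfl⟩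

lemma dead_mono : DeadMono dead := by
  intro t c h
  by_contra hcon
  rw [Bool.not_eq_true, dead_iff] at hcon
  have h0 : ¬ (dead t c = false) := by rw [h]; simp
  rw [dead_iff] at h0
  push Not at h0
  obtain ⟨h1, h2⟩ := h0
  rcases hcon with h3 | ⟨w, n, h3, h4⟩
  · omega
  · rcases coord_step t _ _ (step_run t) w n h3 with h5 | ⟨k', h5, h6⟩
    · omega
    · exact h2 w k' h5 (by omega)

end Pool.Agent.Helper158.FCD
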