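import Pool.Agent.Helper158.FCD.InvDefs

/-! Small lemmas about the machine. -/

set_option autoImplicit false

namespace Pool.Agent.Helper158.FCD

@[simp] lemma par_nil (c : ℕ) : par [] c = false := rfl

@[simp] lemma par_cons (x : ℕ) (l : List ℕ) (c : ℕ) :
    par (x :: l) c = xor (decide (x = c)) (par l c) := rfl

@[simp] lemma par_append (l l' : List ℕ) (c : ℕ) :
    par (l ++ l') c = xor (par l c) (par l' c) := by
  induction l with
  | nil => simp
  | cons x l ih => simp [ih]

lemma par_of_lt {l : List ℕ} {t c : ℕ} (h : ∀ x ∈ l, x < t) (hc : t ≤ c) : par l c = false := by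
  induction l with
  | nil => rfl
  | cons x l ih =>
    have h1 : x < t := h x (by simp)
    have h2 : par l c = false := ih fun y hy => h y (by simp [hy])
    have h3 : x ≠ c := by omega
    simp [h2, h3]

lemma not_cons_suffix {o : Fin 4} {q : Path} : ¬ ((o :: q) <:+ q) := by
  intro h
  have := h.length_le
  simp at this

lemma suffix_cons' {o : Fin 4} {q w : Path} (h : (o :: q) <:+ w) : q <:+ w :=
  (List.suffix_cons o q).trans h

/-- two suffixes with the same tail are equal -/
lemma suffix_head {o o' : Fin 4} {q w : Path} (h : (o :: q) <:+ w) (h' : (o' :: q) <:+ w) :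
    o = o' := by
  have h1 := List.suffix_of_suffix_length_le h h' (by simp)
  have h2 := h1.eq_of_length (by simp)
  simpa using h2

lemma rel_suffix {q w : Path} (h : Rel q w) : q <:+ w := by
  rcases h with h | h | h <;> exact suffix_cons' h

lemma rel_ne {q w : Path} (h : Rel q w) : w ≠ q := by
  rintro rfl
  rcases h with h | h | h <;> exact not_cons_suffix h

lemma suffix_eq_or {q w : Path} (h : q <:+ w) : w = q ∨ ∃ o, (o :: q) <:+ w := by
  obtain ⟨l, rfl⟩ := h
  rcases List.eq_nil_or_concat l with rfl | ⟨l', o, rfl⟩
  · left; rfl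
  · right
    exact ⟨o, l', by simp⟩

/-- comparability of suffixes -/
lemma suffix_cmp {x y w : Path} (h : x <:+ w) (h' : y <:+ w) : x <:+ y ∨ y <:+ x :=
  List.suffix_or_suffix_of_suffix h h'

lemma suffix_cons_cases {o : Fin 4} {x p : Path} (h : x <:+ (o :: p)) : x = o :: p ∨ x <:+ p := by
  rcases List.suffix_cons_iff.1 h with h | h
  · exact Or.inl h
  · exact Or.inr h

@[simp] lemma get_cons (e : Path × Node) (L : List (Path × Node)) (q : Path) :
    get (e :: L) q = if e.1 = q then some e.2 else get L q := rfl

@[simp] lemma get_nil (q : Path) : get [] q = none := rfl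

lemma get_filter (L : List (Path × Node)) (P : Path → Bool) (q : Path) :
    get (L.filter (fun e => P e.1)) q = if P q = true then get L q else none := by
  induction L with
  | nil => simp
  | cons e L ih =>
    rw [List.filter_cons]
    by_cases h : P e.1 = true
    · rw [if_pos h, get_cons, get_cons, ih]
      by_cases h2 : e.1 = q
      · subst h2; simp [h]
      · simp [h2]
    · rw [if_neg h, get_cons, ih]
      by_cases h2 : e.1 = q
      · subst h2; simp [h]
      · simp [h2]

lemma get_isSome {L : List (Path × Node)} {q : Path} (h : q ∈ L.map Prod.fst) :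
    ∃ n, get L q = some n := by
  induction L with
  | nil => simp at h
  | cons e L ih =>
    rw [get_cons]
    by_cases h2 : e.1 = q
    · exact ⟨e.2, by simp [h2]⟩
    · rw [if_neg h2]
      apply ih
      simp only [List.map_cons, List.mem_cons] at h
      rcases h with h | h
      · exact absurd h.symm h2
      · exact h

lemma mem_of_get {L : List (Path × Node)} {q : Path} {n : Node} (h : get L q = some n) :
    (q, n) ∈ L := by
  induction L with
  | nil => simp at h
  | cons e L ih =>
    rw [get_cons] at h
    by_cases h2 : e.1 = q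
    · rw [if_pos h2] at h
      simp only [Option.some.injEq] at h
      subst h; subst h2
      simp
    · rw [if_neg h2] at h
      exact List.mem_cons_of_mem _ (ih h)

lemma mem_rels {L : List (Path × Node)} {q : Path} {c : ℕ} :
    c ∈ rels L q ↔ ∃ w m, Rel q w ∧ get L w = some m ∧ m.c = c := by
  unfold rels
  simp only [List.mem_map, List.mem_filter, decide_eq_true_eq]
  constructor
  · rintro ⟨e, ⟨he, hr⟩, rfl⟩
    obtain ⟨n, hn⟩ := get_isSome (L := L) (q := e.1) (List.mem_map.2 ⟨e, he, rfl⟩)
    exact ⟨e.1, n, hr, hn, by simp [hn]⟩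
  · rintro ⟨w, m, hr, hg, rfl⟩
    exact ⟨(w, m), ⟨mem_of_get hg, hr⟩, by simp [hg]⟩

end Pool.Agent.Helper158.FCD
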