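import Pool.Agent.Helper158.FCD.Prim
import Pool.Agent.Helper158.FCD.Dich

/-! The torsor data exist. -/

set_option autoImplicit false

namespace Pool.Agent.Helper158.FCD

/-- **There is a computable torsor of dimension two.** -/
theorem torsor : Nonempty TorsorData :=
  torsor_of_core prim_mv prim_dead dead_mono core_non
    (core_dich comp_vis comp_s0 (prim_ff prim_mv).to_comp)

end Pool.Agent.Helper158.FCD
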