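import Pool.Agent.Helper158.FCD.CoreDefs

/-! Traces of the abstract machine. -/

set_option autoImplicit false

namespace Pool.Agent.Helper158.FCD

/-- a run of the abstract machine with all its invariants -/
structure Trace (A : ℕ → ACfg) (v : ℕ → List ℕ) : Prop where
  init : A 0 = ⟨fun _ => none, [], false, []⟩
  step : ∀ t, Step t (A t) (A (t + 1))
  base : ∀ t, Base t (A t)
  supp : ∀ t, Supp (A t)
  flow : ∀ t, Flow (A t)
  finv : ∀ t, FInv t (A t) (ff v t)
  rinv : ∀ t, RInv (A t)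
  hist : ∀ t, Hist t (A t) v
  vmv : ∀ t, v t = emis (A t)
  fin : ∀ t, ∃ N, ∀ w n, (A t).S w = some n → w.length ≤ N
  phi : ∀ t w n, (A t).S w = some n → n.rm ≠ 0 → ∃ u, Phi w.length u n.c

/-- `w` is visited at time `t` -/
def Vis (A : ℕ → ACfg) (w : Path) (t : ℕ) : Prop := (A t).up = false ∧ (A t).p = w

/-- `w` is visited infinitely often -/
def InfVis (A : ℕ → ACfg) (w : Path) : Prop := ∀ T, ∃ t, T ≤ t ∧ Vis A w t

/-- `w` is present from time `T` on -/
def Stay (A : ℕ → ACfg) (w : Path) (T : ℕ) : Prop := ∀ t, T ≤ t → ∃ n, (A t).S w = some n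

/-- `p` is strictly below `w` -/
def Strict (w p : Path) : Prop := ∃ o, (o :: w) <:+ p

/-- the coordinate `c` never dies -/
def Forever (A : ℕ → ACfg) (c : ℕ) : Prop := ∀ t, c < t → ∃ w n, (A t).S w = some n ∧ n.c = c

/-- the coordinate `c` belongs to `u` forever -/
def Owns (A : ℕ → ACfg) (u : Path) (c : ℕ) : Prop := ∀ t, c < t → ∃ n, (A t).S u = some n ∧ n.c = c

end Pool.Agent.Helper158.FCD
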